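import Pool.Agent.Lib.MP_aa40d3_nt.RR.Final

open Polynomial Pool.Agent.Lib.MP_aa40d3_nt.RR

namespace Pool.Agent.Lib.MP_aa40d3_nt.AnyOrderTwistsVariant

theorem result (n : ℕ) (b : Fin (n + 1) → ℤ[X]) (hb : b (Fin.last n) ≠ 0)
    (S : Finset (AlgebraicClosure ℚ)) (hS : ∀ s, aeval s (b (Fin.last n)) = 0 → s ∈ S)
    (α : Option (AlgebraicClosure ℚ) → Fin n → ℚ)
    (hα : ∀ q ∈ S.insertNone, HasExponents n b q (α q))
    (m : ℕ) (β : Fin m → Option (AlgebraicClosure ℚ) → ℚ) (l : Fin m → ℤ)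
    (hβ : ∀ i, ∃ z : ℤ, ∑ q ∈ S.insertNone, β i q = z)
    (hne : ∀ i i', i ≠ i' → ∃ q ∈ S.insertNone, ∀ z : ℤ, β i q - β i' q ≠ z)
    (hl : ∀ i, ∀ q ∈ S.insertNone, ∀ j, IsCoprime (l i) (α q j - β i q).den)
    (hsum : (n : ℚ) ≤ ∑ i, ((n : ℚ)
      - ∑ q ∈ S.insertNone, ∑ j, Int.fract (l i * (α q j - β i q)))) :
    AlgebraicBasis n b ↔ RationalBasisModAlmostAll n b :=
  ⟨Pool.Agent.Lib.MP_aa40d3_nt.Easy.easy_direction n b hb,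
    rr_criterion n b hb S hS α hα m β l hβ hne hl hsum⟩

end Pool.Agent.Lib.MP_aa40d3_nt.AnyOrderTwistsVariant
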