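import Mathlib

set_option autoImplicit false

namespace Pool.Agent.Lib.MP_aa40d3_nt.Easy

open Polynomial

/-- The derivation `d/dx` on a rational function field. -/
theorem exists_derivation_ratFunc (k : Type) [Field k] :
    ∃ D : RatFunc k →+ RatFunc k, (∀ a b, D (a * b) = a * D b + b * D a) ∧ D RatFunc.X = 1 := by
  let φ : k[X] →ₐ[k] TrivSqZeroExt (RatFunc k) (RatFunc k) :=
    Polynomial.aeval (TrivSqZeroExt.inl RatFunc.X + TrivSqZeroExt.inr 1)
  have hφ : ∀ p : k[X], (φ p).fst = algebraMap k[X] (RatFunc k) p := by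
    intro p
    have h : (TrivSqZeroExt.fstHom k (RatFunc k) (RatFunc k)).comp φ
        = IsScalarTower.toAlgHom k k[X] (RatFunc k) := by
      apply Polynomial.algHom_ext
      simp [φ]
    exact DFunLike.congr_fun h p
  have hu : ∀ y : nonZeroDivisors k[X], IsUnit (φ.toRingHom y) := by
    intro y
    rw [TrivSqZeroExt.isUnit_iff_isUnit_fst]
    have : (φ.toRingHom (y : k[X])).fst = algebraMap k[X] (RatFunc k) y := hφ y
    rw [this]
    exact IsLocalization.map_units (RatFunc k) y
  let ψ : RatFunc k →+* TrivSqZeroExt (RatFunc k) (RatFunc k) := IsLocalization.lift hu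
  have hψa : ∀ p : k[X], ψ (algebraMap k[X] (RatFunc k) p) = φ p := fun p =>
    IsLocalization.lift_eq hu p
  have hψ : ∀ f, (ψ f).fst = f := by
    have h : (TrivSqZeroExt.fstHom k (RatFunc k) (RatFunc k)).toRingHom.comp ψ
        = RingHom.id _ := by
      apply IsLocalization.ringHom_ext (nonZeroDivisors k[X])
      apply RingHom.ext
      intro p
      show (ψ (algebraMap k[X] (RatFunc k) p)).fst = algebraMap k[X] (RatFunc k) p
      rw [hψa, hφ]
    intro f
    exact DFunLike.congr_fun h f
  refine ⟨(TrivSqZeroExt.sndHom (RatFunc k) (RatFunc k)).toAddMonoidHom.comp ψ.toAddMonoidHom,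
    ?_, ?_⟩
  · intro a b
    show (ψ (a * b)).snd = a * (ψ b).snd + b * (ψ a).snd
    rw [map_mul, TrivSqZeroExt.snd_mul, hψ, hψ]
    simp [mul_comm]
  · show (ψ RatFunc.X).snd = 1
    rw [← RatFunc.algebraMap_X, hψa]
    simp [φ]

section Basic
variable {F : Type} [CommRing F] (D : F →+ F)

theorem d_one (hD : ∀ a b, D (a * b) = a * D b + b * D a) : D 1 = 0 := by
  have h := hD 1 1
  rw [mul_one, one_mul] at h
  exact left_eq_add.mp h

theorem d_ringHom (hD : ∀ a b, D (a * b) = a * D b + b * D a) (ι : ℤ[X] →+* F)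
    (hx : D (ι X) = 1) (a : ℤ[X]) : D (ι a) = ι (derivative a) := by
  have hC : ∀ c : ℤ, D (ι (C c)) = 0 := by
    intro c
    have : ι (C c) = c • (1 : F) := by simp
    rw [this, map_zsmul, d_one D hD, smul_zero]
  induction a using Polynomial.induction_on with
  | C c => rw [hC]; simp
  | add p q hp hq => rw [map_add, map_add, hp, hq, derivative_add, map_add]
  | monomial n c h =>
    rw [pow_succ, ← mul_assoc, map_mul, hD, h, hx, derivative_mul (f := C c * X ^ n)]
    simp only [derivative_X, mul_one, map_add, map_mul]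
    ring

theorem iter_add (i : ℕ) (a b : F) : D^[i] (a + b) = D^[i] a + D^[i] b := by
  induction i with
  | zero => rfl
  | succ i ih => rw [Function.iterate_succ_apply', Function.iterate_succ_apply',
      Function.iterate_succ_apply', ih, map_add]

theorem iter_const (hD : ∀ a b, D (a * b) = a * D b + b * D a) (i : ℕ) (c a : F) (hc : D c = 0) :
    D^[i] (c * a) = c * D^[i] a := by
  induction i with
  | zero => rfl
  | succ i ih => rw [Function.iterate_succ_apply', Function.iterate_succ_apply', ih, hD, hc,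
      mul_zero, add_zero]

theorem d_nat (hD : ∀ a b, D (a * b) = a * D b + b * D a) (m : ℕ) : D (m : F) = 0 := by
  have : (m : F) = m • (1 : F) := by simp
  rw [this, map_nsmul, d_one D hD, smul_zero]

theorem iter_leibniz (hD : ∀ a b, D (a * b) = a * D b + b * D a) (n : ℕ) (a b : F) :
    D^[n] (a * b) = ∑ i ∈ Finset.range (n + 1),
      (n.choose i : F) * (D^[i] a * D^[n - i] b) := by
  induction n with
  | zero => simp
  | succ n ih =>
    rw [Finset.sum_choose_succ_mul (fun i j => D^[i] a * D^[j] b) n,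
      Function.iterate_succ_apply', ih, map_sum, ← Finset.sum_add_distrib]
    refine Finset.sum_congr rfl ?_
    intro i hi
    have hs : n + 1 - i = (n - i) + 1 := by
      have := Finset.mem_range.mp hi
      omega
    rw [hD, d_nat D hD, hD, hs, Function.iterate_succ_apply', Function.iterate_succ_apply']
    ring

end Basic

/-- Wronskian lemma. -/
theorem wronski {F : Type} [Field F] (D : F →+ F) (hD : ∀ a b, D (a * b) = a * D b + b * D a)
    {ι : Type} [Fintype ι] (m : ℕ) (q : Fin (m + 1) → F) (hq : q (Fin.last m) ≠ 0) (y : ι → F)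
    (hy : ∀ j, ∑ i : Fin (m + 1), q i * D^[(i : ℕ)] (y j) = 0)
    (hind : ∀ c : ι → F, (∀ j, D (c j) = 0) → ∑ j, c j * y j = 0 → ∀ j, c j = 0)
    (f : ι → F) (hf : ∀ i < m, ∑ j, f j * D^[i] (y j) = 0) : ∀ j, f j = 0 := by
  classical
  have hext : ∀ f : ι → F, (∀ i < m, ∑ j, f j * D^[i] (y j) = 0) →
      ∀ i ≤ m, ∑ j, f j * D^[i] (y j) = 0 := by
    intro f hf i hi
    rcases hi.lt_or_eq with h | h
    · exact hf i h
    · subst h
      have h1 : ∑ k : Fin (i + 1), q k * ∑ j, f j * D^[(k : ℕ)] (y j) = 0 := by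
        simp only [Finset.mul_sum]
        rw [Finset.sum_comm]
        refine Finset.sum_eq_zero fun j _ => ?_
        have := congrArg (fun t => f j * t) (hy j)
        simp only [Finset.mul_sum, mul_zero] at this
        rw [← this]
        refine Finset.sum_congr rfl fun k _ => by ring
      rw [Fin.sum_univ_castSucc] at h1
      have h2 : ∑ k : Fin i, q k.castSucc * ∑ j, f j * D^[((k.castSucc : Fin (i + 1)) : ℕ)] (y j)
          = 0 := by
        refine Finset.sum_eq_zero fun k _ => ?_
        rw [hf _ (by simp), mul_zero]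
      rw [h2, zero_add] at h1
      simpa [hq] using h1
  have hder : ∀ f : ι → F, (∀ i < m, ∑ j, f j * D^[i] (y j) = 0) →
      ∀ i < m, ∑ j, D (f j) * D^[i] (y j) = 0 := by
    intro f hf i hi
    have h1 := congrArg D (hf i hi)
    rw [map_sum, map_zero] at h1
    have h2 := hext f hf (i + 1) hi
    simp only [hD] at h1
    rw [Finset.sum_add_distrib] at h1
    simp only [Function.iterate_succ_apply'] at h2
    rw [h2, zero_add] at h1
    rw [← h1]
    exact Finset.sum_congr rfl fun j _ => mul_comm _ _
  have key : ∀ s : Finset ι, ∀ f : ι → F, (∀ i < m, ∑ j, f j * D^[i] (y j) = 0) →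
      (∀ j, j ∉ s → f j = 0) → ∀ j, f j = 0 := by
    intro s
    induction s using Finset.strongInduction with
    | H s ih =>
      intro f hf hs j0
      by_contra hne
      have hj0 : j0 ∈ s := by
        by_contra h
        exact hne (hs j0 h)
      have hg : ∀ i < m, ∑ j, (f j / f j0) * D^[i] (y j) = 0 := by
        intro i hi
        have := congrArg (fun t => t / f j0) (hf i hi)
        simp only [Finset.sum_div, zero_div] at this
        rw [← this]
        exact Finset.sum_congr rfl fun j _ => by ring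
      have hg' := ih (s.erase j0) (Finset.erase_ssubset hj0) (fun j => D (f j / f j0))
        (hder _ hg) (by
          intro j hj
          by_cases h : j = j0
          · subst h
            rw [div_self hne, d_one D hD]
          · have : j ∉ s := fun hjs => hj (Finset.mem_erase.mpr ⟨h, hjs⟩)
            rw [hs j this, zero_div, map_zero])
      have h0 := hext _ hg 0 (Nat.zero_le _)
      have := hind (fun j => f j / f j0) hg' h0 j0
      rw [div_self hne] at this
      exact one_ne_zero this
  exact key Finset.univ f hf (fun j hj => absurd (Finset.mem_univ j) hj)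

/-- Pseudo-division of `∂^(n+k)` by the operator. -/
theorem pdiv {M : Type} [AddCommGroup M] [Module ℤ[X] M] (d : M →+ M)
    (hd : ∀ (a : ℤ[X]) (m : M), d (a • m) = derivative a • m + a • d m)
    (n : ℕ) (b : Fin (n + 1) → ℤ[X]) (y w : M)
    (hw : w = ∑ i : Fin (n + 1), b i • d^[(i : ℕ)] y) (k : ℕ) :
    ∃ (R : Fin n → ℤ[X]) (Q : Fin k → ℤ[X]),
      (b (Fin.last n)) ^ (k + 1) • d^[n + k] y - (b (Fin.last n)) ^ k • d^[k] w
        = ∑ i : Fin n, R i • d^[(i : ℕ)] y + ∑ j : Fin k, Q j • d^[(j : ℕ)] w := by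
  set β := b (Fin.last n) with hβ
  let S : ℕ → Submodule ℤ[X] M := fun k =>
    Submodule.span ℤ[X] ({m | ∃ i < n, m = d^[i] y} ∪ {m | ∃ j < k, m = d^[j] w})
  have hy : ∀ k, ∀ i < n, d^[i] y ∈ S k := fun k i hi =>
    Submodule.subset_span (Or.inl ⟨i, hi, rfl⟩)
  have hw' : ∀ k, ∀ j < k, d^[j] w ∈ S k := fun k j hj =>
    Submodule.subset_span (Or.inr ⟨j, hj, rfl⟩)
  have hmono : ∀ k, S k ≤ S (k + 1) := by
    intro k
    refine Submodule.span_le.mpr ?_
    rintro m (⟨i, hi, rfl⟩ | ⟨j, hj, rfl⟩)
    · exact hy _ i hi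
    · exact hw' _ j (by omega)
  have h0 : ∀ k, β • d^[n] y - w ∈ S k := by
    intro k
    rw [hw, Fin.sum_univ_castSucc]
    simp only [Fin.val_last, Fin.val_castSucc, ← hβ]
    rw [sub_add_cancel_right]
    exact neg_mem (Submodule.sum_mem _ fun i _ => Submodule.smul_mem _ _ (hy k i i.2))
  have hstep : ∀ k, ∀ m ∈ S k, β • d m ∈ S (k + 1) := by
    intro k m hm
    induction hm using Submodule.span_induction with
    | mem m hm =>
      rcases hm with ⟨i, hi, rfl⟩ | ⟨j, hj, rfl⟩
      · rw [← Function.iterate_succ_apply' d i y]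
        rcases (Nat.succ_le_of_lt hi).lt_or_eq with h | h
        · exact Submodule.smul_mem _ _ (hy _ _ h)
        · rw [h]
          have := add_mem (h0 (k + 1)) (hw' (k + 1) 0 (Nat.succ_pos k))
          simpa using this
      · rw [← Function.iterate_succ_apply' d j w]
        exact Submodule.smul_mem _ _ (hw' _ _ (Nat.succ_lt_succ hj))
    | zero => simp
    | add a c _ _ ha hc => rw [map_add, smul_add]; exact add_mem ha hc
    | smul a m hm ih =>
      rw [hd, smul_add, smul_comm β a]
      exact add_mem (Submodule.smul_mem _ _ (Submodule.smul_mem _ _ (hmono k hm)))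
        (Submodule.smul_mem _ _ ih)
  have hmain : ∀ k, β ^ (k + 1) • d^[n + k] y - β ^ k • d^[k] w ∈ S k := by
    intro k
    induction k with
    | zero => simpa using h0 0
    | succ k ih =>
      have h1 := hstep k _ ih
      have h2 : β ^ (k + 1) • d^[n + k] y ∈ S (k + 1) := by
        have := add_mem (hmono k ih) (Submodule.smul_mem _ (β ^ k) (hw' (k + 1) k (by omega)))
        simpa using this
      have h3 := Submodule.smul_mem _ (((k + 1 : ℕ) : ℤ[X]) * derivative β) h2
      have h4 := Submodule.smul_mem _ (β * derivative (β ^ k)) (hw' (k + 1) k (by omega))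
      have h5 := add_mem (sub_mem h1 h3) h4
      have e : β ^ (k + 1 + 1) • d^[n + (k + 1)] y - β ^ (k + 1) • d^[k + 1] w
          = β • d (β ^ (k + 1) • d^[n + k] y - β ^ k • d^[k] w)
            - (((k + 1 : ℕ) : ℤ[X]) * derivative β) • β ^ (k + 1) • d^[n + k] y
            + (β * derivative (β ^ k)) • d^[k] w := by
        rw [map_sub, hd, hd, ← add_assoc n k 1, Function.iterate_succ_apply',
          Function.iterate_succ_apply', derivative_pow_succ]
        simp only [smul_add, smul_sub, smul_smul]
        have e1 : β * (C ((k : ℤ) + 1) * β ^ k * derivative β)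
            = ((k + 1 : ℕ) : ℤ[X]) * derivative β * β ^ (k + 1) := by
          simp only [map_add, map_natCast, map_one, Nat.cast_add, Nat.cast_one]
          ring
        rw [e1, ← pow_succ', ← pow_succ']
        abel
      rw [e]
      exact h5
  have hm := hmain k
  have hS : S k = Submodule.span ℤ[X] (Set.range fun i : Fin n => d^[(i : ℕ)] y) ⊔
      Submodule.span ℤ[X] (Set.range fun j : Fin k => d^[(j : ℕ)] w) := by
    rw [← Submodule.span_union]
    refine congrArg (Submodule.span ℤ[X]) ?_
    apply Set.ext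
    intro m
    constructor
    · rintro (⟨i, hi, rfl⟩ | ⟨j, hj, rfl⟩)
      · exact Or.inl ⟨⟨i, hi⟩, rfl⟩
      · exact Or.inr ⟨⟨j, hj⟩, rfl⟩
    · rintro (⟨i, rfl⟩ | ⟨j, rfl⟩)
      · exact Or.inl ⟨i, i.2, rfl⟩
      · exact Or.inr ⟨j, j.2, rfl⟩
  rw [hS, Submodule.mem_sup] at hm
  obtain ⟨u, hu, v, hv, huv⟩ := hm
  obtain ⟨R, rfl⟩ := (Submodule.mem_span_range_iff_exists_fun ℤ[X]).mp hu
  obtain ⟨Q, rfl⟩ := (Submodule.mem_span_range_iff_exists_fun ℤ[X]).mp hv
  exact ⟨R, Q, huv.symm⟩

end Pool.Agent.Lib.MP_aa40d3_nt.Easy
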