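import Mathlib
import Pool.Agent.Lib.MP_aa40d3_nt.EasyA

set_option autoImplicit false

namespace Pool.Agent.Lib.MP_aa40d3_nt.Easy

open Polynomial

section Spread
variable {K : Type} [Field K] [Algebra ℤ[X] K]

/-- An additive map that is a derivation modulo `I` on `B` and maps the base ring into `I`
maps `B` into `I`, when `B` is generated by simple roots and the inverses of the derivatives. -/
theorem closure_deriv (Z : Set K) (P : K → ℤ[X][X]) (hP0 : ∀ z ∈ Z, aeval z (P z) = 0)
    (hP1 : ∀ z ∈ Z, aeval z (derivative (P z)) ≠ 0) (B : Subalgebra ℤ[X] K)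
    (hB : B = Algebra.adjoin ℤ[X] (Z ∪ (fun z => (aeval z (derivative (P z)))⁻¹) '' Z))
    (I : AddSubgroup K) (hI : ∀ b ∈ B, ∀ c ∈ I, b * c ∈ I) (δ : K →+ K)
    (hδ : ∀ a ∈ B, ∀ b ∈ B, δ (a * b) - a * δ b - b * δ a ∈ I)
    (hx : ∀ a : ℤ[X], δ (algebraMap ℤ[X] K a) ∈ I) : ∀ b ∈ B, δ b ∈ I := by
  have hZ : ∀ z ∈ Z, z ∈ B := fun z hz => hB ▸ Algebra.subset_adjoin (Or.inl hz)
  have hU : ∀ z ∈ Z, (aeval z (derivative (P z)))⁻¹ ∈ B := fun z hz =>
    hB ▸ Algebra.subset_adjoin (Or.inr ⟨z, hz, rfl⟩)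
  have hev : ∀ z ∈ B, ∀ Q : ℤ[X][X], aeval z Q ∈ B := fun z hz Q =>
    (Algebra.adjoin_le (Set.singleton_subset_iff.mpr hz) : Algebra.adjoin ℤ[X] {z} ≤ B)
      (Polynomial.aeval_mem_adjoin_singleton ℤ[X] z)
  have hpoly : ∀ z ∈ B, ∀ Q : ℤ[X][X], δ (aeval z Q) - aeval z (derivative Q) * δ z ∈ I := by
    intro z hz Q
    induction Q using Polynomial.induction_on with
    | C a => simpa using hx a
    | add p q hp hq =>
      have := add_mem hp hq
      rw [map_add, map_add, derivative_add, map_add, add_mul]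
      rwa [← add_sub_add_comm] at this
    | monomial n a h =>
      have h1 := hδ _ (hev z hz (C a * X ^ n)) z hz
      have h2 := hI z hz _ h
      have h3 := add_mem h1 h2
      have e : δ (aeval z (C a * X ^ (n + 1))) - aeval z (derivative (C a * X ^ (n + 1))) * δ z
          = δ (aeval z (C a * X ^ n) * z) - aeval z (C a * X ^ n) * δ z
            - z * δ (aeval z (C a * X ^ n))
            + z * (δ (aeval z (C a * X ^ n)) - aeval z (derivative (C a * X ^ n)) * δ z) := by
        rw [pow_succ, ← mul_assoc, derivative_mul (f := C a * X ^ n), map_mul (aeval z) _ X,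
          aeval_X, derivative_X, mul_one, map_add, map_mul (aeval z) _ X, aeval_X]
        ring
      rw [e]
      exact h3
  have hZ' : ∀ z ∈ Z, δ z ∈ I := by
    intro z hz
    have h1 := hpoly z (hZ z hz) (P z)
    rw [hP0 z hz, map_zero, zero_sub] at h1
    have h2 := hI _ (hU z hz) _ (neg_mem h1)
    rwa [neg_neg, ← mul_assoc, inv_mul_cancel₀ (hP1 z hz), one_mul] at h2
  have hU' : ∀ z ∈ Z, δ (aeval z (derivative (P z)))⁻¹ ∈ I := by
    intro z hz
    set v := aeval z (derivative (P z)) with hv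
    have hvB : v ∈ B := hev z (hZ z hz) _
    have hvI : δ v ∈ I := by
      have h1 := hpoly z (hZ z hz) (derivative (P z))
      have h2 := hI _ (hev z (hZ z hz) (derivative (derivative (P z)))) _ (hZ' z hz)
      have := add_mem h1 h2
      rwa [sub_add_cancel] at this
    have h1 := hδ _ (hU z hz) v hvB
    rw [inv_mul_cancel₀ (hP1 z hz)] at h1
    have h0 : δ 1 ∈ I := by simpa using hx 1
    have h2 := hI _ (hU z hz) _ hvI
    have h3 := hI _ (hU z hz) _ (sub_mem (sub_mem h0 h2) h1)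
    have e : v⁻¹ * (δ 1 - v⁻¹ * δ v - (δ 1 - v⁻¹ * δ v - v * δ v⁻¹)) = δ v⁻¹ := by
      have : v ≠ 0 := hP1 z hz
      field_simp
      ring
    rwa [e] at h3
  intro b hb
  have hb' := hb
  rw [hB] at hb'
  induction hb' using Algebra.adjoin_induction with
  | mem x hx' =>
    rcases hx' with h | ⟨z, hz, rfl⟩
    · exact hZ' x h
    · exact hU' z hz
  | algebraMap a => exact hx a
  | add a c ha hc iha ihc =>
    rw [map_add]
    exact add_mem (iha (hB ▸ ha)) (ihc (hB ▸ hc))
  | mul a c ha hc iha ihc =>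
    have ha' : a ∈ B := hB ▸ ha
    have hc' : c ∈ B := hB ▸ hc
    have := add_mem (add_mem (hδ a ha' c hc') (hI a ha' _ (ihc hc'))) (hI c hc' _ (iha ha'))
    have e : δ (a * c) - a * δ c - c * δ a + a * δ c + c * δ a = δ (a * c) := by ring
    rwa [e] at this

theorem exists_simple_poly (hinj : Function.Injective (algebraMap ℤ[X] K)) (z : K)
    (hz : IsAlgebraic ℤ[X] z) :
    ∃ P : ℤ[X][X], aeval z P = 0 ∧ aeval z (derivative P) ≠ 0 := by
  classical
  have hex : ∃ m : ℕ, ∃ P : ℤ[X][X], P ≠ 0 ∧ aeval z P = 0 ∧ P.natDegree = m := by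
    obtain ⟨P, hP, h⟩ := hz
    exact ⟨_, P, hP, h, rfl⟩
  obtain ⟨P, hP, h0, hdeg⟩ := Nat.find_spec hex
  refine ⟨P, h0, fun h1 => ?_⟩
  have hpos : P.natDegree ≠ 0 := by
    intro hd
    rw [Polynomial.eq_C_of_natDegree_eq_zero hd, aeval_C] at h0
    apply hP
    rw [Polynomial.eq_C_of_natDegree_eq_zero hd]
    have : P.coeff 0 = 0 := hinj (by rw [h0, map_zero])
    rw [this, map_zero]
  have hlt : (derivative P).natDegree < P.natDegree := Polynomial.natDegree_derivative_lt hpos
  have hne : derivative P ≠ 0 := fun h =>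
    hpos (Polynomial.derivative_eq_zero.mp h)
  exact Nat.find_min hex (hdeg ▸ hlt) ⟨_, hne, h1, rfl⟩

/-- Spreading out: a finitely generated stable subalgebra on which `D^p` vanishes modulo `p`. -/
theorem exists_spread (hinj : Function.Injective (algebraMap ℤ[X] K))
    [halg : Algebra.IsAlgebraic ℤ[X] K] (D : K →+ K)
    (hD : ∀ a b, D (a * b) = a * D b + b * D a) (hx : D (algebraMap ℤ[X] K X) = 1)
    (Z : Finset K) :
    ∃ (B : Subalgebra ℤ[X] K) (g : ℤ[X]), g ≠ 0 ∧ (∀ z ∈ Z, z ∈ B) ∧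
      (∀ p : ℕ, p.Prime → ∀ b ∈ B, ∃ c ∈ B, D^[p] b = p * c) ∧
      (∀ p : ℕ, p.Prime → ¬ (p : ℤ[X]) ∣ g → ∀ r : ℤ[X], ∀ c ∈ B,
        algebraMap ℤ[X] K r = p * c → (p : ℤ[X]) ∣ r) := by
  classical
  choose P hP0 hP1 using fun z : K => exists_simple_poly hinj z (halg.1 z)
  let u : K → K := fun z => (aeval z (derivative (P z)))⁻¹
  let B : Subalgebra ℤ[X] K := Algebra.adjoin ℤ[X] ((Z : Set K) ∪ u '' Z)
  obtain ⟨g, hg, hint⟩ := Algebra.IsAlgebraic.exists_integral_multiples ℤ[X] (Z ∪ Z.image u)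
  have hDa : ∀ a : ℤ[X], D (algebraMap ℤ[X] K a) = algebraMap ℤ[X] K (derivative a) :=
    d_ringHom D hD _ hx
  have hstab : ∀ b ∈ B, D b ∈ B := by
    refine closure_deriv (Z : Set K) P (fun z _ => hP0 z) (fun z _ => hP1 z) B rfl
      B.toSubring.toAddSubgroup (fun b hb c hc => B.mul_mem hb hc) D ?_ ?_
    · intro a _ b _
      rw [hD]
      have : a * D b + b * D a - a * D b - b * D a = 0 := by ring
      rw [this]
      exact zero_mem _
    · intro a
      rw [hDa]
      exact B.algebraMap_mem _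
  have hstabi : ∀ i : ℕ, ∀ b ∈ B, D^[i] b ∈ B := by
    intro i b hb
    induction i with
    | zero => exact hb
    | succ i ih => rw [Function.iterate_succ_apply']; exact hstab _ ih
  refine ⟨B, g, hg, fun z hz => Algebra.subset_adjoin (Or.inl hz), ?_, ?_⟩
  · intro p hp
    let I : AddSubgroup K := B.toSubring.toAddSubgroup.map (AddMonoidHom.mulLeft (p : K))
    have hI : ∀ c, c ∈ I ↔ ∃ c' ∈ B, c = p * c' := by
      intro c
      constructor
      · rintro ⟨c', hc', rfl⟩
        exact ⟨c', hc', rfl⟩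
      · rintro ⟨c', hc', rfl⟩
        exact ⟨c', hc', rfl⟩
    let δ : K →+ K := AddMonoidHom.mk' (D^[p]) (iter_add D p)
    have := closure_deriv (Z : Set K) P (fun z _ => hP0 z) (fun z _ => hP1 z) B rfl I ?_ δ ?_ ?_
    · intro b hb
      exact (hI _).mp (this b hb)
    · intro b hb c hc
      obtain ⟨c', hc', rfl⟩ := (hI _).mp hc
      exact (hI _).mpr ⟨b * c', B.mul_mem hb hc', by ring⟩
    · intro a ha b hb
      show D^[p] (a * b) - a * D^[p] b - b * D^[p] a ∈ I
      obtain ⟨q, rfl⟩ : ∃ q, p = q + 1 := ⟨p - 1, by have := hp.pos; omega⟩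
      rw [iter_leibniz D hD, Finset.sum_range_succ, Finset.sum_range_succ']
      simp only [Nat.choose_zero_right, Nat.choose_self, Nat.cast_one, one_mul, Nat.sub_self,
        Function.iterate_zero, id_eq, Nat.sub_zero]
      have e : ∀ s : K, s + a * D^[q + 1] b + D^[q + 1] a * b - a * D^[q + 1] b
          - b * D^[q + 1] a = s := fun s => by ring
      rw [e]
      refine sum_mem fun i hi => ?_
      have hi' := Finset.mem_range.mp hi
      obtain ⟨t, ht⟩ := hp.dvd_choose_self (Nat.succ_ne_zero i) (Nat.succ_lt_succ hi')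
      refine (hI _).mpr ⟨(t : K) * (D^[i + 1] a * D^[q + 1 - (i + 1)] b),
        B.mul_mem (natCast_mem B t) (B.mul_mem (hstabi _ a ha) (hstabi _ b hb)), ?_⟩
      rw [Nat.succ_eq_add_one] at ht
      rw [ht, Nat.cast_mul, mul_assoc]
    · intro a
      show D^[p] (algebraMap ℤ[X] K a) ∈ I
      have h1 : ∀ i : ℕ, D^[i] (algebraMap ℤ[X] K a) = algebraMap ℤ[X] K (derivative^[i] a) := by
        intro i
        induction i with
        | zero => rfl
        | succ i ih => rw [Function.iterate_succ_apply', Function.iterate_succ_apply', ih, hDa]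
      rw [h1, ← Polynomial.factorial_smul_hasseDeriv]
      obtain ⟨t, ht⟩ := Nat.dvd_factorial hp.pos le_rfl
      refine (hI _).mpr ⟨algebraMap ℤ[X] K (t • hasseDeriv p a), B.algebraMap_mem _, ?_⟩
      rw [ht]
      simp [mul_assoc]
  · intro p hp hpg r c hc hr
    have hloc : ∀ b ∈ B, ∃ m : ℕ, IsIntegral ℤ[X] (g ^ m • b) := by
      intro b hb
      induction hb using Algebra.adjoin_induction with
      | mem x hx' =>
        refine ⟨1, ?_⟩
        rw [pow_one]
        apply hint
        rcases hx' with h | ⟨z, hz, rfl⟩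
        · exact Finset.mem_union_left _ h
        · exact Finset.mem_union_right _ (Finset.mem_image_of_mem _ hz)
      | algebraMap a => exact ⟨0, by simpa using isIntegral_algebraMap⟩
      | add a c _ _ iha ihc =>
        obtain ⟨m1, h1⟩ := iha
        obtain ⟨m2, h2⟩ := ihc
        refine ⟨m1 + m2, ?_⟩
        have e : g ^ (m1 + m2) • (a + c) = g ^ m2 • (g ^ m1 • a) + g ^ m1 • (g ^ m2 • c) := by
          rw [smul_add, smul_smul, smul_smul, ← pow_add, ← pow_add, add_comm m2 m1]
        rw [e]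
        exact (h1.smul _).add (h2.smul _)
      | mul a c _ _ iha ihc =>
        obtain ⟨m1, h1⟩ := iha
        obtain ⟨m2, h2⟩ := ihc
        refine ⟨m1 + m2, ?_⟩
        have e : g ^ (m1 + m2) • (a * c) = (g ^ m1 • a) * (g ^ m2 • c) := by
          rw [smul_mul_smul_comm, pow_add]
        rw [e]
        exact h1.mul h2
    obtain ⟨m, f, hf, hf0⟩ := hloc c hc
    have hdvd := Polynomial.dvd_pow_natDegree_of_eval₂_eq_zero hinj hf (p : ℤ[X]) (g ^ m * r)
      (g ^ m • c) hf0 (by
        rw [map_mul, hr, Algebra.smul_def, map_natCast]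
        ring)
    have hprime : Prime (p : ℤ[X]) := by
      have : (p : ℤ[X]) = C (p : ℤ) := by simp
      rw [this]
      exact Polynomial.prime_C_iff.mpr (Nat.prime_iff_prime_int.mp hp)
    rcases hprime.dvd_or_dvd (hprime.dvd_of_dvd_pow hdvd) with h | h
    · exact absurd (hprime.dvd_of_dvd_pow h) hpg
    · exact h

end Spread

end Pool.Agent.Lib.MP_aa40d3_nt.Easy
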