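import Mathlib
import Pool.Agent.Lib.MP_aa40d3_nt.EasyB

set_option autoImplicit false

namespace Pool.Agent.Lib.MP_aa40d3_nt.Easy

open Polynomial

/-- At most `m` solutions of an operator of order `m` are independent over the constants. -/
theorem card_le_order {F : Type} [Field F] (D : F →+ F)
    (hD : ∀ a b, D (a * b) = a * D b + b * D a)
    {ι : Type} [Fintype ι] (m : ℕ) (q : Fin (m + 1) → F) (hq : q (Fin.last m) ≠ 0) (y : ι → F)
    (hy : ∀ j, ∑ i : Fin (m + 1), q i * D^[(i : ℕ)] (y j) = 0)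
    (hind : ∀ c : ι → F, (∀ j, D (c j) = 0) → ∑ j, c j * y j = 0 → ∀ j, c j = 0) :
    Fintype.card ι ≤ m := by
  have hli : LinearIndependent F (fun j : ι => fun i : Fin m => D^[(i : ℕ)] (y j)) := by
    rw [Fintype.linearIndependent_iff]
    intro f hf
    refine wronski D hD m q hq y hy hind f fun i hi => ?_
    have := congrFun hf ⟨i, hi⟩
    simpa using this
  have := hli.fintype_card_le_finrank
  simpa using this

theorem d_pow {F : Type} [CommRing F] (D : F →+ F) (hD : ∀ a b, D (a * b) = a * D b + b * D a)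
    (x : F) (hx : D x = 1) (i : ℕ) : D (x ^ (i + 1)) = ((i + 1 : ℕ) : F) * x ^ i := by
  induction i with
  | zero => simp [hx]
  | succ i ih =>
    rw [pow_succ, hD, ih, hx]
    push_cast
    ring

theorem iter_pow_zero {F : Type} [CommRing F] (D : F →+ F)
    (hD : ∀ a b, D (a * b) = a * D b + b * D a) (x : F) (hx : D x = 1) (i : ℕ) :
    ∀ m, i < m → D^[m] (x ^ i) = 0 := by
  induction i with
  | zero =>
    intro m hm
    obtain ⟨m, rfl⟩ : ∃ q, m = q + 1 := ⟨m - 1, by omega⟩
    rw [Function.iterate_succ_apply, pow_zero, d_one D hD]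
    exact Function.iterate_fixed (map_zero D) m
  | succ i ih =>
    intro m hm
    obtain ⟨m, rfl⟩ : ∃ q, m = q + 1 := ⟨m - 1, by omega⟩
    rw [Function.iterate_succ_apply, d_pow D hD x hx, iter_const D hD _ _ _ (d_nat D hD _),
      ih m (by omega), mul_zero]

theorem pow_indep {F : Type} [Field F] (p : ℕ) [CharP F p] (D : F →+ F)
    (hD : ∀ a b, D (a * b) = a * D b + b * D a) (x : F) (hx : D x = 1) (m : ℕ) (hm : m ≤ p) :
    ∀ c : Fin m → F, (∀ j, D (c j) = 0) → ∑ j, c j * x ^ (j : ℕ) = 0 → ∀ j, c j = 0 := by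
  induction m with
  | zero => intro c _ _ j; exact j.elim0
  | succ m ih =>
    intro c hc h
    rw [Fin.sum_univ_succ] at h
    have h1 := congrArg D h
    rw [map_add, map_zero, map_sum] at h1
    simp only [Fin.val_zero, pow_zero, mul_one, hc, zero_add, Fin.val_succ, hD, mul_zero,
      add_zero, d_pow D hD x hx] at h1
    have h2 := ih (by omega) (fun j => c j.succ * (((j : ℕ) + 1 : ℕ) : F))
      (fun j => by rw [hD, hc, d_nat D hD]; simp)
      (by rw [← h1]; exact Finset.sum_congr rfl fun j _ => by ring)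
    have h3 : ∀ j : Fin m, c j.succ = 0 := by
      intro j
      have hne : (((j : ℕ) + 1 : ℕ) : F) ≠ 0 := by
        rw [Ne, CharP.cast_eq_zero_iff F p]
        intro hd
        have := Nat.le_of_dvd (Nat.succ_pos _) hd
        have := j.2
        omega
      exact (mul_eq_zero.mp (h2 j)).resolve_right hne
    intro j
    refine Fin.cases ?_ h3 j
    simpa [h3] using h

/-- If the operator right-divides a multiple of `D^p`, it has a full basis of solutions. -/
theorem charp_basis {F : Type} [Field F] (p : ℕ) [CharP F p] (D : F →+ F)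
    (hD : ∀ a b, D (a * b) = a * D b + b * D a) (x : F) (hx : D x = 1) (n k : ℕ)
    (hp : n + k = p) (b : Fin (n + 1) → F) (q : Fin (k + 1) → F) (hq : q (Fin.last k) ≠ 0)
    (c₀ : F) (hop : ∀ z, c₀ * D^[p] z
      = ∑ j : Fin (k + 1), q j * D^[(j : ℕ)] (∑ i : Fin (n + 1), b i * D^[(i : ℕ)] z)) :
    ∃ y : Fin n → F, (∀ j, ∑ i : Fin (n + 1), b i * D^[(i : ℕ)] (y j) = 0) ∧
      ∀ c : Fin n → F, (∀ j, D (c j) = 0) → ∑ j, c j * y j = 0 → ∀ j, c j = 0 := by
  let C : Subfield F :=
    { carrier := {c | D c = 0}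
      mul_mem' := by
        intro a b ha hb
        simp only [Set.mem_ofPred_eq] at ha hb ⊢
        rw [hD, ha, hb]; simp
      one_mem' := d_one D hD
      add_mem' := by
        intro a b ha hb
        simp only [Set.mem_ofPred_eq] at ha hb ⊢
        rw [map_add, ha, hb, add_zero]
      zero_mem' := map_zero D
      neg_mem' := by
        intro a ha
        simp only [Set.mem_ofPred_eq] at ha ⊢
        rw [map_neg, ha, neg_zero]
      inv_mem' := by
        intro a ha
        simp only [Set.mem_ofPred_eq] at ha ⊢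
        by_cases h0 : a = 0
        · rw [h0, inv_zero, map_zero]
        · have h := hD a a⁻¹
          rw [mul_inv_cancel₀ h0, d_one D hD, ha, mul_zero, add_zero] at h
          exact (mul_eq_zero.mp h.symm).resolve_left h0 }
  have hC : ∀ c : C, D (c : F) = 0 := fun c => c.2
  have hindep : ∀ {m : ℕ} (y : Fin m → F), LinearIndependent C y ↔
      ∀ c : Fin m → F, (∀ j, D (c j) = 0) → ∑ j, c j * y j = 0 → ∀ j, c j = 0 := by
    intro m y
    rw [Fintype.linearIndependent_iff]
    constructor
    · intro h c hc hs j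
      have := h (fun j => ⟨c j, hc j⟩) hs j
      exact congrArg Subtype.val this
    · intro h c hs j
      exact Subtype.ext (h (fun j => (c j : F)) (fun j => hC _) hs j)
  let L : F →ₗ[C] F :=
    { toFun := fun z => ∑ i : Fin (n + 1), b i * D^[(i : ℕ)] z
      map_add' := by
        intro u v
        rw [← Finset.sum_add_distrib]
        exact Finset.sum_congr rfl fun i _ => by rw [iter_add, mul_add]
      map_smul' := by
        intro c u
        show ∑ i : Fin (n + 1), b i * D^[(i : ℕ)] ((c : F) * u)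
          = (c : F) * ∑ i : Fin (n + 1), b i * D^[(i : ℕ)] u
        rw [Finset.mul_sum]
        exact Finset.sum_congr rfl fun i _ => by rw [iter_const D hD _ _ _ (hC c)]; ring }
  let φ : (Fin p → C) →ₗ[C] F := Fintype.linearCombination C fun i : Fin p => x ^ (i : ℕ)
  have hφ : Function.Injective φ :=
    linearIndependent_iff_injective_fintypeLinearCombination.mp
      ((hindep _).mpr (pow_indep p D hD x hx p le_rfl))
  have hφp : ∀ v, D^[p] (φ v) = 0 := by
    intro v
    let δ : F →+ F := AddMonoidHom.mk' (D^[p]) (iter_add D p)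
    show δ (Fintype.linearCombination C (fun i : Fin p => x ^ (i : ℕ)) v) = 0
    rw [Fintype.linearCombination_apply, map_sum]
    refine Finset.sum_eq_zero fun i _ => ?_
    show D^[p] ((v i : F) * x ^ (i : ℕ)) = 0
    rw [iter_const D hD _ _ _ (hC _), iter_pow_zero D hD x hx _ _ i.2, mul_zero]
  have hr : Module.finrank C (LinearMap.range (L ∘ₗ φ)) ≤ k := by
    by_contra hlt
    obtain ⟨w, hw⟩ := exists_linearIndependent_of_le_finrank (Nat.succ_le_of_lt (not_le.mp hlt))
    have hw' : LinearIndependent C (fun j => (w j : F)) :=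
      hw.map' (LinearMap.range (L ∘ₗ φ)).subtype (Submodule.ker_subtype _)
    have := card_le_order D hD k q hq (fun j => (w j : F)) (fun j => by
      obtain ⟨v, hv⟩ := (w j).2
      have h1 := hop (φ v)
      rw [hφp, mul_zero] at h1
      show ∑ i : Fin (k + 1), q i * D^[(i : ℕ)] (w j : F) = 0
      rw [← hv]
      exact h1.symm) ((hindep _).mp hw')
    simp at this
  have hk : n ≤ Module.finrank C (LinearMap.ker (L ∘ₗ φ)) := by
    have := (L ∘ₗ φ).finrank_range_add_finrank_ker
    rw [Module.finrank_fin_fun] at this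
    omega
  obtain ⟨v, hv⟩ := exists_linearIndependent_of_le_finrank hk
  have hv' : LinearIndependent C (fun j => φ (v j : Fin p → C)) :=
    (hv.map' (LinearMap.ker (L ∘ₗ φ)).subtype (Submodule.ker_subtype _)).map' φ
      (LinearMap.ker_eq_bot.mpr hφ)
  exact ⟨fun j => φ (v j : Fin p → C), fun j => (v j).2, (hindep _).mp hv'⟩

/-- The core of the easy direction. -/
theorem easy_core (n : ℕ) (b : Fin (n + 1) → ℤ[X]) (hb : b (Fin.last n) ≠ 0)
    {K : Type} [Field K] [Algebra ℤ[X] K] (hinj : Function.Injective (algebraMap ℤ[X] K))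
    [Algebra.IsAlgebraic ℤ[X] K] (D : K →+ K)
    (hD : ∀ a b, D (a * b) = a * D b + b * D a) (hx : D (algebraMap ℤ[X] K X) = 1)
    (y : Fin n → K)
    (hy : ∀ j, ∑ i : Fin (n + 1), algebraMap ℤ[X] K (b i) * D^[(i : ℕ)] (y j) = 0)
    (hind : ∀ c : Fin n → K, (∀ j, D (c j) = 0) → ∑ j, c j * y j = 0 → ∀ j, c j = 0) :
    ∃ N : ℕ, ∀ p : ℕ, N < p → p.Prime → ∀ (F : Type) [Field F] [CharP F p] [Algebra ℤ[X] F],
      (∀ a : ℤ[X], algebraMap ℤ[X] F a = 0 → (p : ℤ[X]) ∣ a) → ∀ E : F →+ F,
      (∀ a b, E (a * b) = a * E b + b * E a) → E (algebraMap ℤ[X] F X) = 1 →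
      ∃ z : Fin n → F, (∀ j, ∑ i : Fin (n + 1), algebraMap ℤ[X] F (b i) * E^[(i : ℕ)] (z j) = 0) ∧
        ∀ c : Fin n → F, (∀ j, E (c j) = 0) → ∑ j, c j * z j = 0 → ∀ j, c j = 0 := by
  classical
  let W : Matrix (Fin n) (Fin n) K := fun i j => D^[(i : ℕ)] (y j)
  have hW : IsUnit W := by
    rw [← Matrix.mulVec_injective_iff_isUnit]
    have : Function.Injective (Matrix.mulVecLin W) := by
      rw [injective_iff_map_eq_zero]
      intro f hf
      funext j
      refine wronski D hD n (fun i => algebraMap ℤ[X] K (b i))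
        (fun h => hb (hinj (by rw [map_zero]; exact h))) y hy hind f (fun i hi => ?_) j
      have := congrFun hf ⟨i, hi⟩
      simp only [Matrix.mulVecLin_apply, Matrix.mulVec, dotProduct, W, Pi.zero_apply] at this
      rw [← this]
      exact Finset.sum_congr rfl fun j _ => mul_comm _ _
    exact this
  obtain ⟨V, hV⟩ := hW.exists_right_inv
  obtain ⟨B, g, hg, hZ, hBp, hBg⟩ := exists_spread hinj D hD hx
    (Finset.univ.image y ∪ Finset.univ.image (fun ij : Fin n × Fin n => V ij.1 ij.2))
  have hyB : ∀ j, y j ∈ B := fun j =>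
    hZ _ (Finset.mem_union_left _ (Finset.mem_image_of_mem _ (Finset.mem_univ j)))
  have hVB : ∀ i j, V i j ∈ B := fun i j =>
    hZ _ (Finset.mem_union_right _ (Finset.mem_image.mpr ⟨(i, j), Finset.mem_univ _, rfl⟩))
  have hsmall : ∀ a : ℤ[X], a ≠ 0 → ∀ p : ℕ, a.leadingCoeff.natAbs < p → ¬ (p : ℤ[X]) ∣ a := by
    intro a ha p hp hd
    have h1 : (p : ℤ[X]) = C (p : ℤ) := by simp
    rw [h1, Polynomial.C_dvd_iff_dvd_coeff] at hd
    have h2 := Int.natAbs_le_of_dvd_ne_zero (hd a.natDegree) (leadingCoeff_ne_zero.mpr ha)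
    rw [Int.natAbs_natCast] at h2
    exact absurd h2 (not_le.mpr hp)
  refine ⟨n + g.leadingCoeff.natAbs + (b (Fin.last n)).leadingCoeff.natAbs, ?_⟩
  intro p hN hp F _ _ _ hκ E hE hEx
  obtain ⟨k, hk⟩ : ∃ k, n + k = p := ⟨p - n, by omega⟩
  have hDa := d_ringHom D hD _ hx
  have hEa := d_ringHom E hE _ hEx
  let d : ((Fin n → K) × (F → F)) →+ ((Fin n → K) × (F → F)) :=
    AddMonoidHom.mk' (fun m => (fun j => D (m.1 j), fun z => E (m.2 z))) (by
      intro u v
      refine Prod.ext (funext fun j => ?_) (funext fun z => ?_)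
      · exact map_add D _ _
      · exact map_add E _ _)
  have hd : ∀ (a : ℤ[X]) (m : (Fin n → K) × (F → F)),
      d (a • m) = derivative a • m + a • d m := by
    intro a m
    refine Prod.ext (funext fun j => ?_) (funext fun z => ?_)
    · show D (a • m.1 j) = derivative a • m.1 j + a • D (m.1 j)
      rw [Algebra.smul_def, Algebra.smul_def, Algebra.smul_def, hD, hDa]
      ring
    · show E (a • m.2 z) = derivative a • m.2 z + a • E (m.2 z)
      rw [Algebra.smul_def, Algebra.smul_def, Algebra.smul_def, hE, hEa]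
      ring
  have hdi : ∀ (i : ℕ) (m : (Fin n → K) × (F → F)),
      d^[i] m = (fun j => D^[i] (m.1 j), fun z => E^[i] (m.2 z)) := by
    intro i m
    induction i with
    | zero => rfl
    | succ i ih =>
      rw [Function.iterate_succ_apply', ih]
      refine Prod.ext (funext fun j => ?_) (funext fun z => ?_)
      · exact (Function.iterate_succ_apply' D i _).symm
      · exact (Function.iterate_succ_apply' E i _).symm
  obtain ⟨R, Q, hRQ⟩ := pdiv d hd n b (y, fun z => z)
    (0, fun z => ∑ i : Fin (n + 1), algebraMap ℤ[X] F (b i) * E^[(i : ℕ)] z) (by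
      refine Prod.ext (funext fun j => ?_) (funext fun z => ?_)
      · rw [Prod.fst_sum, Finset.sum_apply]
        simp only [hdi, Prod.smul_fst, Pi.smul_apply]
        simp only [Algebra.smul_def]
        exact (hy j).symm
      · rw [Prod.snd_sum, Finset.sum_apply]
        simp only [hdi, Prod.smul_snd, Pi.smul_apply]
        simp only [Algebra.smul_def]) k
  simp only [hdi, hk] at hRQ
  have hz : ∀ i : ℕ, D^[i] (0 : K) = 0 := fun i => Function.iterate_fixed (map_zero D) i
  have h1 : ∀ j, algebraMap ℤ[X] K (b (Fin.last n) ^ (k + 1)) * D^[p] (y j)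
      = ∑ i : Fin n, algebraMap ℤ[X] K (R i) * W i j := by
    intro j
    have := congrFun (congrArg Prod.fst hRQ) j
    simp only [Prod.fst_sub, Prod.fst_add, Prod.fst_sum, Prod.smul_fst, Pi.sub_apply,
      Pi.add_apply, Finset.sum_apply, Pi.smul_apply, Pi.zero_apply, hz, smul_zero, sub_zero,
      Finset.sum_const_zero, add_zero] at this
    simpa only [Algebra.smul_def] using this
  have h2 : ∀ z, algebraMap ℤ[X] F (b (Fin.last n) ^ (k + 1)) * E^[p] z
      - algebraMap ℤ[X] F (b (Fin.last n) ^ k)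
        * E^[k] (∑ i : Fin (n + 1), algebraMap ℤ[X] F (b i) * E^[(i : ℕ)] z)
      = ∑ i : Fin n, algebraMap ℤ[X] F (R i) * E^[(i : ℕ)] z
        + ∑ j : Fin k, algebraMap ℤ[X] F (Q j)
          * E^[(j : ℕ)] (∑ i : Fin (n + 1), algebraMap ℤ[X] F (b i) * E^[(i : ℕ)] z) := by
    intro z
    have := congrFun (congrArg Prod.snd hRQ) z
    simp only [Prod.snd_sub, Prod.snd_add, Prod.snd_sum, Prod.smul_snd, Pi.sub_apply,
      Pi.add_apply, Finset.sum_apply, Pi.smul_apply] at this
    simpa only [Algebra.smul_def] using this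
  have hR : ∀ i, algebraMap ℤ[X] F (R i) = 0 := by
    intro i
    choose c hcB hc using fun j => hBp p hp (y j) (hyB j)
    have e1 : algebraMap ℤ[X] K (R i)
        = ∑ j, (∑ l : Fin n, algebraMap ℤ[X] K (R l) * W l j) * V j i := by
      have := congrFun (Matrix.vecMul_vecMul (fun l => algebraMap ℤ[X] K (R l)) W V) i
      rw [hV, Matrix.vecMul_one] at this
      rw [← this]
      rfl
    have e2 : algebraMap ℤ[X] K (R i)
        = p * ∑ j, algebraMap ℤ[X] K (b (Fin.last n) ^ (k + 1)) * c j * V j i := by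
      rw [e1, Finset.mul_sum]
      refine Finset.sum_congr rfl fun j _ => ?_
      rw [← h1, hc]
      ring
    obtain ⟨t, ht⟩ := hBg p hp (hsmall g hg p (by omega)) (R i) _
      (sum_mem fun j _ => B.mul_mem (B.mul_mem (B.algebraMap_mem _) (hcB j)) (hVB j i)) e2
    rw [ht, map_mul, map_natCast, CharP.cast_eq_zero, zero_mul]
  refine charp_basis p E hE _ hEx n k hk (fun i => algebraMap ℤ[X] F (b i))
    (Fin.snoc (fun j => algebraMap ℤ[X] F (Q j)) (algebraMap ℤ[X] F (b (Fin.last n) ^ k))) ?_
    (algebraMap ℤ[X] F (b (Fin.last n) ^ (k + 1))) ?_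
  · rw [Fin.snoc_last, map_pow]
    exact pow_ne_zero _ fun h => hsmall _ hb p (by omega) (hκ _ h)
  · intro z
    have := h2 z
    simp only [hR, zero_mul, Finset.sum_const_zero, zero_add] at this
    rw [Fin.sum_univ_castSucc]
    simp only [Fin.snoc_castSucc, Fin.snoc_last, Fin.val_castSucc, Fin.val_last]
    rw [← this]
    ring

end Pool.Agent.Lib.MP_aa40d3_nt.Easy
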