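import Mathlib
import Pool.Agent.Lib.MP_aa40d3_nt.EasyC

set_option autoImplicit false

namespace Pool.Agent.Lib.MP_aa40d3_nt.Easy

open Polynomial

theorem exists_intDerivation (F : Type) [CommRing F] [Algebra ℤ F] (E : F →+ F)
    (hE : ∀ a b, E (a * b) = a * E b + b * E a) :
    ∃ E' : @Derivation ℤ F F _ _ _ _ _ (AddCommGroup.toIntModule F), ⇑E' = ⇑E := by
  have h : ‹Algebra ℤ F› = Ring.toIntAlgebra F := Subsingleton.elim _ _
  subst h
  exact ⟨Derivation.mk' E.toIntLinearMap (fun a b => by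
    show E (a * b) = a • E b + b • E a
    rw [hE, smul_eq_mul, smul_eq_mul]), rfl⟩

/-- The easy direction of the p-curvature conjecture: a full basis of algebraic solutions gives a
full basis of rational solutions modulo all large primes. -/
theorem easy_direction (n : ℕ) (b : Fin (n + 1) → Polynomial ℤ) (hb : b (Fin.last n) ≠ 0)
    (h : ∃ D : Derivation ℤ (AlgebraicClosure (RatFunc ℚ)) (AlgebraicClosure (RatFunc ℚ)),
        D (algebraMap (RatFunc ℚ) (AlgebraicClosure (RatFunc ℚ)) RatFunc.X) = 1 ∧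
        ∃ y : Fin n → AlgebraicClosure (RatFunc ℚ),
          (∀ j : Fin n, ∑ i : Fin (n + 1),
              Polynomial.aeval (algebraMap (RatFunc ℚ) (AlgebraicClosure (RatFunc ℚ)) RatFunc.X) (b i)
                * (⇑D)^[(i : ℕ)] (y j) = 0) ∧
          ∀ c : Fin n → AlgebraicClosure (RatFunc ℚ), (∀ j, D (c j) = 0) →
            ∑ j : Fin n, c j * y j = 0 → ∀ j, c j = 0) :
     ∃ N : ℕ, ∀ p : ℕ, N < p → ∀ (_hp : Fact (Nat.Prime p)),
       ∃ D : Derivation ℤ (RatFunc (ZMod p)) (RatFunc (ZMod p)),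
         D (RatFunc.X : RatFunc (ZMod p)) = 1 ∧
         ∃ y : Fin n → RatFunc (ZMod p),
           (∀ j : Fin n, ∑ i : Fin (n + 1),
               Polynomial.aeval (RatFunc.X : RatFunc (ZMod p)) (b i) * (⇑D)^[(i : ℕ)] (y j) = 0) ∧
           ∀ c : Fin n → RatFunc (ZMod p), (∀ j, D (c j) = 0) →
             ∑ j : Fin n, c j * y j = 0 → ∀ j, c j = 0 := by
  obtain ⟨D, hDx, y, hy, hind⟩ := h
  let κ : ℤ[X] →+* RatFunc ℚ := (algebraMap ℚ[X] (RatFunc ℚ)).comp (mapRingHom (Int.castRingHom ℚ))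
  let iA : Algebra ℤ[X] (RatFunc ℚ) := κ.toAlgebra
  have hmap : ∀ a : ℤ[X], algebraMap ℤ[X] (AlgebraicClosure (RatFunc ℚ)) a
      = algebraMap (RatFunc ℚ) (AlgebraicClosure (RatFunc ℚ)) (κ a) := fun a =>
    IsScalarTower.algebraMap_apply ℤ[X] (RatFunc ℚ) (AlgebraicClosure (RatFunc ℚ)) a
  have hκinj : Function.Injective κ :=
    (IsFractionRing.injective ℚ[X] (RatFunc ℚ)).comp
      (Polynomial.map_injective (Int.castRingHom ℚ) Int.cast_injective)
  have hinj : Function.Injective (algebraMap ℤ[X] (AlgebraicClosure (RatFunc ℚ))) := by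
    intro a b hab
    rw [hmap, hmap] at hab
    exact hκinj ((algebraMap (RatFunc ℚ) (AlgebraicClosure (RatFunc ℚ))).injective hab)
  have hK : ∀ a : ℤ[X], Polynomial.aeval
      (algebraMap (RatFunc ℚ) (AlgebraicClosure (RatFunc ℚ)) RatFunc.X) a
      = algebraMap ℤ[X] (AlgebraicClosure (RatFunc ℚ)) a := by
    intro a
    have e : (Polynomial.aeval
      (algebraMap (RatFunc ℚ) (AlgebraicClosure (RatFunc ℚ)) RatFunc.X) : ℤ[X] →ₐ[ℤ] _).toRingHom
      = algebraMap ℤ[X] (AlgebraicClosure (RatFunc ℚ)) := by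
      apply Polynomial.ringHom_ext
      · intro c
        simp
      · rw [hmap]
        show Polynomial.aeval _ (X : ℤ[X]) = _
        simp [κ]
    exact DFunLike.congr_fun e a
  have : Algebra.IsAlgebraic ℤ[X] (RatFunc ℚ) := by
    constructor
    intro z
    obtain ⟨u, v, hv, rfl⟩ := IsFractionRing.div_surjective (A := ℚ[X]) z
    have hq : ∀ u : ℚ[X], ∃ (c : ℤ) (a : ℤ[X]), c ≠ 0 ∧
        κ a = (c : RatFunc ℚ) * algebraMap ℚ[X] (RatFunc ℚ) u := by
      intro u
      obtain ⟨c, hc, hu⟩ := IsLocalization.integerNormalization_spec (nonZeroDivisors ℤ) u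
      refine ⟨c, IsLocalization.integerNormalization (nonZeroDivisors ℤ) u,
        nonZeroDivisors.ne_zero hc, ?_⟩
      show algebraMap ℚ[X] (RatFunc ℚ) (Polynomial.map (algebraMap ℤ ℚ) _) = _
      rw [hu]
      simp
    obtain ⟨c1, a1, hc1, h1⟩ := hq u
    obtain ⟨c2, a2, hc2, h2⟩ := hq v
    have hv' : algebraMap ℚ[X] (RatFunc ℚ) v ≠ 0 := fun h =>
      nonZeroDivisors.ne_zero hv (IsFractionRing.injective ℚ[X] (RatFunc ℚ) (by rw [h, map_zero]))
    have hc1' : (c1 : RatFunc ℚ) ≠ 0 := Int.cast_ne_zero.mpr hc1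
    have hc2' : (c2 : RatFunc ℚ) ≠ 0 := Int.cast_ne_zero.mpr hc2
    have ha2 : a2 ≠ 0 := by
      intro h
      rw [h, map_zero] at h2
      exact mul_ne_zero hc2' hv' h2.symm
    refine ⟨C ((c1 : ℤ[X]) * a2) * X - C ((c2 : ℤ[X]) * a1), ?_, ?_⟩
    · intro h
      have := congrArg (fun q => Polynomial.coeff q 1) h
      simp only [coeff_sub, coeff_C_mul, coeff_X_one, mul_one, coeff_C_succ, sub_zero,
        coeff_zero] at this
      exact mul_ne_zero (Int.cast_ne_zero.mpr hc1) ha2 this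
    · rw [map_sub, map_mul, aeval_C, aeval_C, aeval_X]
      show κ _ * _ - κ _ = 0
      rw [map_mul, map_mul, h1, h2, map_intCast, map_intCast]
      field_simp
      ring
  have : Algebra.IsAlgebraic ℤ[X] (AlgebraicClosure (RatFunc ℚ)) :=
    Algebra.IsAlgebraic.trans ℤ[X] (RatFunc ℚ) (AlgebraicClosure (RatFunc ℚ))
  obtain ⟨N, hN⟩ := easy_core n b hb hinj (AddMonoidHom.mk' (⇑D) (Derivation.map_add D))
    (fun a b => by
      show D (a * b) = a * D b + b * D a
      rw [Derivation.leibniz, smul_eq_mul, smul_eq_mul])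
    (by rw [← hK, aeval_X]; exact hDx) y (fun j => by simp only [← hK]; exact hy j) hind
  refine ⟨N, fun p hp hpr => ?_⟩
  obtain ⟨E, hE, hEx⟩ := exists_derivation_ratFunc (ZMod p)
  let μ : ℤ[X] →+* RatFunc (ZMod p) :=
    (algebraMap (ZMod p)[X] (RatFunc (ZMod p))).comp (mapRingHom (Int.castRingHom (ZMod p)))
  let iF : Algebra ℤ[X] (RatFunc (ZMod p)) := μ.toAlgebra
  have hF : ∀ a : ℤ[X], Polynomial.aeval (RatFunc.X : RatFunc (ZMod p)) a
      = algebraMap ℤ[X] (RatFunc (ZMod p)) a := by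
    intro a
    have e : (Polynomial.aeval (RatFunc.X : RatFunc (ZMod p)) : ℤ[X] →ₐ[ℤ] _).toRingHom
      = algebraMap ℤ[X] (RatFunc (ZMod p)) := by
      apply Polynomial.ringHom_ext
      · intro c
        simp
      · show Polynomial.aeval _ (X : ℤ[X]) = μ X
        simp [μ]
    exact DFunLike.congr_fun e a
  obtain ⟨z, hz, hzi⟩ := hN p hp hpr.out (RatFunc (ZMod p)) (by
    intro a ha
    have h1 : a.map (Int.castRingHom (ZMod p)) = 0 :=
      IsFractionRing.injective (ZMod p)[X] (RatFunc (ZMod p)) (by rw [map_zero]; exact ha)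
    have h2 : (p : ℤ[X]) = C (p : ℤ) := by simp
    rw [h2, Polynomial.C_dvd_iff_dvd_coeff]
    intro i
    have := congrArg (fun q => Polynomial.coeff q i) h1
    simp only [coeff_map, coeff_zero, eq_intCast] at this
    exact (ZMod.intCast_zmod_eq_zero_iff_dvd _ _).mp this) E hE
    (by rw [← hF, aeval_X]; exact hEx)
  obtain ⟨E', hE'⟩ := exists_intDerivation (RatFunc (ZMod p)) E hE
  refine ⟨E', by rw [hE']; exact hEx, z, fun j => ?_, by rw [hE']; exact hzi⟩
  rw [hE']
  simpa only [← hF] using hz j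

end Pool.Agent.Lib.MP_aa40d3_nt.Easy
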