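import Pool.Agent.Lib.MP_aa40d3_nt.Defs
import Pool.Agent.Lib.MP_aa40d3_nt.Easy

open Polynomial

namespace Pool.Agent.Lib.MP_aa40d3_nt

lemma fullBasis_iff (K : Type) [Field K] (iA : Algebra ℤ K) (iM : Module ℤ K) (x : K) {n : ℕ}
    (b : Fin (n + 1) → ℤ[X]) : FullBasis K x b ↔
    ∃ D : @Derivation ℤ K K _ _ _ iA _ iM, D x = 1 ∧ ∃ y : Fin n → K,
      (∀ j, ∑ i : Fin (n + 1), @aeval ℤ K _ _ iA x (b i) * (⇑D)^[(i : ℕ)] (y j) = 0) ∧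
      ∀ c : Fin n → K, (∀ j, D (c j) = 0) → ∑ j, c j * y j = 0 → ∀ j, c j = 0 := by
  obtain rfl : iA = Ring.toIntAlgebra K := Subsingleton.elim _ _
  obtain rfl : iM = AddCommGroup.toIntModule K := Subsingleton.elim _ _
  rfl

theorem easy {n : ℕ} (b : Fin (n + 1) → ℤ[X]) (hb : b (Fin.last n) ≠ 0)
    (h : FullBasis (AlgebraicClosure (RatFunc ℚ))
      (algebraMap (RatFunc ℚ) (AlgebraicClosure (RatFunc ℚ)) RatFunc.X) b) :
    ∃ N : ℕ, ∀ p : ℕ, N < p → ∀ _ : Fact (Nat.Prime p),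
      FullBasis (RatFunc (ZMod p)) RatFunc.X b := by
  obtain ⟨N, hN⟩ := Easy.easy_direction n b hb ((fullBasis_iff _ _ _ _ b).mp h)
  exact ⟨N, fun p hp hp' => (fullBasis_iff _ _ _ _ b).mpr (hN p hp hp')⟩

end Pool.Agent.Lib.MP_aa40d3_nt
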