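import Pool.Agent.Lib.MP_aa40d3_nt.Tw

open Polynomial

namespace Pool.Agent.Lib.MP_aa40d3_nt

variable {k : Type*} [Field k] {r : ℕ}

lemma iter_expand_mul (p : ℕ) [CharP k p] (c y : k[X]) (i : ℕ) :
    derivative^[i] (expand k p c * y) = expand k p c * derivative^[i] y := by
  induction i with
  | zero => simp
  | succ i ih =>
    rw [Function.iterate_succ_apply', ih, derivative_mul, derivative_expand,
      Function.iterate_succ_apply']
    have : (p : k[X]) = 0 := by rw [← C_eq_natCast, CharP.cast_eq_zero, C_0]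
    rw [this]; simp

lemma indep_of_wr (p : ℕ) [Fact p.Prime] [CharP k p] (y : Fin r → k[X]) (hw : wr y ≠ 0)
    (c : Fin r → k[X]) (hc : ∑ j, expand k p (c j) * y j = 0) (j : Fin r) : c j = 0 := by
  have h : (Matrix.of fun i j : Fin r => derivative^[(i : ℕ)] (y j)).mulVec
      (fun j => expand k p (c j)) = 0 := by
    funext i
    have := congrArg (derivative^[(i : ℕ)]) hc
    rw [iterate_derivative_sum, iterate_derivative_zero] at this
    simp only [iter_expand_mul] at this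
    simpa [Matrix.mulVec, dotProduct, mul_comm] using this
  have := congrFun (Matrix.eq_zero_of_mulVec_eq_zero hw h) j
  exact (expand_eq_zero (Fact.out : p.Prime).pos).mp this

lemma taylor_coeff_ord (a : k) (z : k[X]) (hz : z ≠ 0) :
    (taylor a z).coeff (rootMultiplicity a z) ≠ 0 := by
  obtain ⟨w, h1, h2⟩ := exists_local a z hz
  generalize rootMultiplicity a z = n at *
  subst h1
  rw [taylor_mul, taylor_pow]
  have : taylor a (X - C a) = X := by simp [taylor_apply]
  rw [this, coeff_X_pow_mul', if_pos le_rfl, Nat.sub_self, taylor_coeff_zero]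
  exact h2

section
variable (p : ℕ) [Fact p.Prime] [CharP k p] (M : Submodule k k[X])

omit [Fact p.Prime] in
lemma span_min (hX : ∀ z ∈ M, X ^ p * z ∈ M) (d : Fin r → k) (y : Fin r → k[X])
    (hyM : ∀ j, y j ∈ M)
    (hy : ∀ j, ∀ z ∈ M, z ≠ 0 → (z.natDegree : k) = d j →
      y j ≠ 0 ∧ ((y j).natDegree : k) = d j ∧ (y j).natDegree ≤ z.natDegree)
    (T : Finset (Fin r)) (hT : ∀ z ∈ M, z ≠ 0 → ∃ j ∈ T, (z.natDegree : k) = d j) :
    ∀ z ∈ M, ∃ q : Fin r → k[X], z = ∑ j ∈ T, expand k p (q j) * y j := by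
  have hXn : ∀ (t : ℕ), ∀ z ∈ M, X ^ (p * t) * z ∈ M := by
    intro t
    induction t with
    | zero => intro z hz; simpa using hz
    | succ t ih =>
      intro z hz
      have := hX _ (ih z hz)
      rwa [← mul_assoc, ← pow_add, add_comm p, ← Nat.mul_succ] at this
  intro z
  induction hn : z.natDegree using Nat.strong_induction_on generalizing z with
  | _ n ih =>
  intro hz
  by_cases h0 : z = 0
  · exact ⟨0, by simp [h0]⟩
  obtain ⟨j, hjT, hj⟩ := hT z hz h0
  obtain ⟨h1, h2, h3⟩ := hy j z hz h0 hj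
  have h4 : (y j).natDegree ≡ z.natDegree [MOD p] :=
    (CharP.natCast_eq_natCast k p).mp (h2.trans hj.symm)
  obtain ⟨t, ht⟩ := (Nat.modEq_iff_dvd' h3).mp h4
  set c := z.leadingCoeff / (y j).leadingCoeff with hc
  have hc0 : c ≠ 0 := div_ne_zero (leadingCoeff_ne_zero.mpr h0) (leadingCoeff_ne_zero.mpr h1)
  set u := C c * (X ^ (p * t) * y j) with hu
  have huM : u ∈ M := by
    rw [hu, ← smul_eq_C_mul]; exact M.smul_mem _ (hXn t _ (hyM j))
  have hu0 : u ≠ 0 := by simp [hu, hc0, h1]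
  have hud : u.natDegree = z.natDegree := by
    rw [hu, natDegree_C_mul hc0, natDegree_mul (by simp) h1, natDegree_X_pow]; omega
  have hul : u.leadingCoeff = z.leadingCoeff := by
    rw [hu, leadingCoeff_mul, leadingCoeff_mul, leadingCoeff_C, leadingCoeff_X_pow, one_mul, hc,
      div_mul_cancel₀ _ (leadingCoeff_ne_zero.mpr h1)]
  have key : ∃ q : Fin r → k[X], z - u = ∑ j ∈ T, expand k p (q j) * y j := by
    by_cases h5 : z - u = 0
    · exact ⟨0, by simp [h5]⟩
    refine ih (z - u).natDegree ?_ _ rfl (M.sub_mem hz huM)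
    rw [← hn]
    refine natDegree_lt_natDegree h5 (degree_sub_lt_left ?_ h0 hul.symm)
    rw [degree_eq_natDegree h0, degree_eq_natDegree hu0, hud]
  obtain ⟨q, hq⟩ := key
  refine ⟨fun i => q i + if i = j then C c * X ^ t else 0, ?_⟩
  simp only [map_add, add_mul, Finset.sum_add_distrib, ← hq]
  rw [Finset.sum_eq_single_of_mem j hjT (fun i _ hi => by simp [hi])]
  simp [hu, pow_mul, mul_assoc]

omit [Fact p.Prime] [CharP k p] in
lemma card_le_of_span (y0 y : Fin r → k[X])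
    (hind : ∀ c : Fin r → k[X], ∑ j, expand k p (c j) * y0 j = 0 → ∀ j, c j = 0)
    (T : Finset (Fin r)) (q : Fin r → Fin r → k[X])
    (hq : ∀ i, y0 i = ∑ j ∈ T, expand k p (q i j) * y j) : r ≤ T.card := by
  have h : LinearIndependent k[X] (fun i : Fin r => fun j : T => q i j) := by
    rw [Fintype.linearIndependent_iff]
    intro c hc
    refine hind c ?_
    simp only [hq, Finset.mul_sum]
    rw [Finset.sum_comm]
    refine Finset.sum_eq_zero fun j hj => ?_
    have := congrArg (fun f => expand k p f * y j) (congrFun hc ⟨j, hj⟩)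
    simpa [Finset.sum_apply, map_sum, Finset.sum_mul, mul_assoc] using this
  simpa using h.fintype_card_le_finrank

lemma all_of_card {Q : Finset (Fin r) → Prop} (h : ∀ T, Q T → r ≤ T.card) (j : Fin r) :
    ¬ Q (Finset.univ.erase j) := by
  intro hQ
  have := h _ hQ
  rw [Finset.card_erase_of_mem (Finset.mem_univ _)] at this
  have h2 := j.pos
  simp at this
  omega

omit [Fact p.Prime] in
lemma exists_gens (hX : ∀ z ∈ M, X ^ p * z ∈ M)
    (y0 : Fin r → k[X]) (hy0 : ∀ j, y0 j ∈ M)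
    (hind : ∀ c : Fin r → k[X], ∑ j, expand k p (c j) * y0 j = 0 → ∀ j, c j = 0)
    (d : Fin r → k) (h3 : ∀ z ∈ M, z ≠ 0 → ∃ j, (z.natDegree : k) = d j) :
    ∃ y : Fin r → k[X], (∀ j, y j ∈ M ∧ y j ≠ 0 ∧ ((y j).natDegree : k) = d j) ∧
      Function.Injective d ∧
      ∀ z ∈ M, ∃ q : Fin r → k[X], z = ∑ j, expand k p (q j) * y j := by
  classical
  have hex : ∀ j, ∃ y ∈ M, ∀ z ∈ M, z ≠ 0 → (z.natDegree : k) = d j →
      y ≠ 0 ∧ (y.natDegree : k) = d j ∧ y.natDegree ≤ z.natDegree := by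
    intro j
    by_cases h : ∃ n, ∃ z ∈ M, z ≠ 0 ∧ (z.natDegree : k) = d j ∧ z.natDegree = n
    · obtain ⟨y, h1, h2, h4, h5⟩ := Nat.find_spec h
      exact ⟨y, h1, fun z hz hz0 hzd => ⟨h2, h4, h5 ▸ Nat.find_min' h ⟨z, hz, hz0, hzd, rfl⟩⟩⟩
    · exact ⟨0, M.zero_mem, fun z hz hz0 hzd => (h ⟨_, z, hz, hz0, hzd, rfl⟩).elim⟩
  choose y hyM hy using hex
  have hQ : ∀ T : Finset (Fin r), (∀ z ∈ M, z ≠ 0 → ∃ j ∈ T, (z.natDegree : k) = d j) →
      r ≤ T.card := by
    intro T hT
    choose q hq using fun i => span_min p M hX d y hyM hy T hT (y0 i) (hy0 i)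
    exact card_le_of_span p y0 y hind T q hq
  have hall : ∀ j, ∃ z ∈ M, z ≠ 0 ∧ ∀ i, i ≠ j → (z.natDegree : k) ≠ d i := by
    intro j
    have := all_of_card hQ j
    push Not at this
    obtain ⟨z, h1, h2, h4⟩ := this
    exact ⟨z, h1, h2, fun i hi => h4 i (by simp [hi])⟩
  have hall2 : ∀ j, ∃ z ∈ M, z ≠ 0 ∧ (z.natDegree : k) = d j ∧
      ∀ i, i ≠ j → (z.natDegree : k) ≠ d i := by
    intro j
    obtain ⟨z, h1, h2, h4⟩ := hall j
    obtain ⟨i, hi⟩ := h3 z h1 h2
    by_cases hij : i = j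
    · exact ⟨z, h1, h2, hij ▸ hi, h4⟩
    · exact (h4 i hij hi).elim
  refine ⟨y, fun j => ?_, fun i j hij => ?_,
    span_min p M hX d y hyM hy Finset.univ (by simpa using h3)⟩
  · obtain ⟨z, h1, h2, h4, -⟩ := hall2 j
    exact ⟨hyM j, (hy j z h1 h2 h4).1, (hy j z h1 h2 h4).2.1⟩
  · by_contra hne
    obtain ⟨z, h1, h2, h4, h5⟩ := hall2 j
    exact h5 i hne (h4.trans hij.symm)

lemma order_wr (hsat : ∀ (a : k) (z : k[X]), (X - C a) ^ p * z ∈ M → z ∈ M)
    (y : Fin r → k[X]) (hyM : ∀ j, y j ∈ M) (hw : wr y ≠ 0)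
    (hspan : ∀ z ∈ M, ∃ q : Fin r → k[X], z = ∑ j, expand k p (q j) * y j)
    (a : k) (e : Fin r → ℕ) (he : ∀ j, e j < p)
    (h1 : ∀ z ∈ M, z ≠ 0 → ∃ j, (rootMultiplicity a z : k) = e j) :
    rootMultiplicity a (wr y) + ∑ i : Fin r, (i : ℕ) = ∑ j, e j := by
  classical
  have hmem : ∀ β : Fin r → k, ∑ i, β i • y i ∈ M :=
    fun β => M.sum_mem fun i _ => M.smul_mem _ (hyM i)
  have hne : ∀ β : Fin r → k, β ≠ 0 → ∑ i, β i • y i ≠ 0 := by
    intro β hβ h
    apply hβ
    funext j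
    have := indep_of_wr p y hw (fun j => C (β j)) (by simpa [smul_eq_C_mul] using h) j
    simpa using this
  have hlt : ∀ β : Fin r → k, β ≠ 0 → rootMultiplicity a (∑ i, β i • y i) < p := by
    intro β hβ
    by_contra hge
    obtain ⟨w, hw'⟩ := (le_rootMultiplicity_iff (hne β hβ)).mp (not_lt.mp hge)
    obtain ⟨q, hq⟩ := hspan w (hsat a w (hw' ▸ hmem β))
    apply hβ
    funext j
    have hexp : expand k p (X - C (a ^ p)) = (X - C a) ^ p := by
      rw [sub_pow_char, map_sub, expand_X, expand_C, C_pow]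
    have := indep_of_wr p y hw (fun j => C (β j) - (X - C (a ^ p)) * q j) (by
      have h7 : ∀ j, expand k p (C (β j) - (X - C (a ^ p)) * q j) * y j =
          β j • y j - (X - C a) ^ p * (expand k p (q j) * y j) := by
        intro j
        rw [map_sub, map_mul, hexp, expand_C, smul_eq_C_mul]; ring
      simp only [h7, Finset.sum_sub_distrib, ← Finset.mul_sum, ← hq, ← hw', sub_self]) j
    have h2 := congrArg (eval (a ^ p)) this
    simpa using h2
  have hord : ∀ β : Fin r → k, β ≠ 0 → ∃ j, rootMultiplicity a (∑ i, β i • y i) = e j := by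
    intro β hβ
    obtain ⟨j, hj⟩ := h1 _ (hmem β) (hne β hβ)
    exact ⟨j, Nat.ModEq.eq_of_lt_of_lt ((CharP.natCast_eq_natCast k p).mp hj) (hlt β hβ) (he j)⟩
  have hQ : ∀ T : Finset (Fin r), (∀ β : Fin r → k, β ≠ 0 →
      ∃ j ∈ T, rootMultiplicity a (∑ i, β i • y i) = e j) → r ≤ T.card := by
    intro T hT
    let f : (Fin r → k) →ₗ[k] (T → k) := LinearMap.pi fun j =>
      (lcoeff k (e j)) ∘ₗ (taylor a) ∘ₗ (Fintype.linearCombination k y)
    have hf : Function.Injective f := by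
      rw [injective_iff_map_eq_zero]
      intro β hβ
      by_contra h0
      obtain ⟨j, hj, hj2⟩ := hT β h0
      have := taylor_coeff_ord a _ (hne β h0)
      rw [hj2] at this
      exact this (congrFun hβ ⟨j, hj⟩)
    simpa using LinearMap.finrank_le_finrank_of_injective hf
  have hall : ∀ j, ∃ β : Fin r → k, β ≠ 0 ∧ rootMultiplicity a (∑ i, β i • y i) = e j ∧
      ∀ l, l ≠ j → rootMultiplicity a (∑ i, β i • y i) ≠ e l := by
    intro j
    have := all_of_card hQ j
    push Not at this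
    obtain ⟨β, h2, h4⟩ := this
    obtain ⟨i, hi⟩ := hord β h2
    by_cases hij : i = j
    · exact ⟨β, h2, hij ▸ hi, fun l hl => h4 l (by simp [hl])⟩
    · exact (h4 i (by simp [hij]) hi).elim
  choose β hβ0 hβ1 hβ2 using hall
  have hinj : Function.Injective fun j => (rootMultiplicity a (∑ i, β j i • y i) : k) := by
    intro i j hij
    by_contra hne'
    have := Nat.ModEq.eq_of_lt_of_lt ((CharP.natCast_eq_natCast k p).mp hij) (hlt _ (hβ0 i))
      (hlt _ (hβ0 j))
    exact hβ2 i j (Ne.symm hne') (this.trans (hβ1 j))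
  obtain ⟨h5, h6⟩ := wr_order a (fun j => ∑ i, β j i • y i) (fun j => hne _ (hβ0 j)) hinj
  simp only [hβ1] at h6
  rw [wr_comb] at h5 h6
  rw [rootMultiplicity_mul h5, rootMultiplicity_C, zero_add] at h6
  exact h6

theorem core [IsAlgClosed k] (hr : r ≤ p) (hX : ∀ z ∈ M, X ^ p * z ∈ M)
    (hsat : ∀ (a : k) (z : k[X]), (X - C a) ^ p * z ∈ M → z ∈ M)
    (y0 : Fin r → k[X]) (hy0 : ∀ j, y0 j ∈ M)
    (hind : ∀ c : Fin r → k[X], ∑ j, expand k p (c j) * y0 j = 0 → ∀ j, c j = 0)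
    {P : Type*} [Fintype P] (a : P → k) (ha : Function.Injective a)
    (e : P → Fin r → ℕ) (he : ∀ x j, e x j < p)
    (h1 : ∀ x, ∀ z ∈ M, z ≠ 0 → ∃ j, (rootMultiplicity (a x) z : k) = e x j)
    (h2 : ∀ a', (∀ x, a x ≠ a') → ∀ z ∈ M, z ≠ 0 →
      ∃ j : Fin r, (rootMultiplicity a' z : k) = (j : ℕ))
    (d : Fin r → k) (h3 : ∀ z ∈ M, z ≠ 0 → ∃ j, (z.natDegree : k) = d j) :
    ∃ y : Fin r → k[X], (∀ j, y j ∈ M ∧ y j ≠ 0 ∧ ((y j).natDegree : k) = d j) ∧
      Function.Injective d ∧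
      ∑ j, (y j).natDegree + Fintype.card P * ∑ i : Fin r, (i : ℕ) =
        ∑ x, ∑ j, e x j + ∑ i : Fin r, (i : ℕ) := by
  classical
  obtain ⟨y, hy, hd, hspan⟩ := exists_gens p M hX y0 hy0 hind d h3
  refine ⟨y, hy, hd, ?_⟩
  obtain ⟨hw, hdeg⟩ := wr_degree y (fun j => (hy j).2.1) (by simpa only [(hy _).2.2] using hd)
  have hx := fun x => order_wr p M hsat y (fun j => (hy j).1) hw hspan (a x) (e x) (he x) (h1 x)
  have ho : ∀ a', (∀ x, a x ≠ a') → rootMultiplicity a' (wr y) = 0 := by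
    intro a' ha'
    have := order_wr p M hsat y (fun j => (hy j).1) hw hspan a' (fun j => j)
      (fun j => j.2.trans_le hr) (h2 a' ha')
    omega
  have hnd : (wr y).natDegree = ∑ x, rootMultiplicity (a x) (wr y) := by
    rw [(IsAlgClosed.splits (wr y)).natDegree_eq_card_roots,
      ← Finset.sum_image (f := fun a' => rootMultiplicity a' (wr y)) (fun x _ x' _ h => ha h),
      ← Multiset.sum_count_eq_card (s := Finset.univ.image a)]
    · simp only [count_roots]
    · intro a' ha'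
      by_contra hn
      have := ho a' (fun x hx => hn (Finset.mem_image.mpr ⟨x, Finset.mem_univ _, hx⟩))
      rw [← count_roots] at this
      exact (Multiset.count_eq_zero.mp this) ha'
  rw [← hdeg, hnd, ← Finset.sum_congr rfl (fun x _ => hx x), Finset.sum_add_distrib]
  simp only [Finset.sum_const, Finset.card_univ, smul_eq_mul]
  ring

end

end Pool.Agent.Lib.MP_aa40d3_nt
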