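import Pool.Agent.Lib.MP_aa40d3_nt.Defs
import Pool.Agent.Lib.MP_aa40d3_nt.Core

open Polynomial

namespace Pool.Agent.Lib.MP_aa40d3_nt

lemma deriv_eval₂ {F K : Type*} [CommRing F] [CommRing K] (D : Derivation ℤ K K) (x : K)
    (hx : D x = 1) (j : F →+* K) (hj : ∀ c, D (j c) = 0) (f : F[X]) :
    D (eval₂RingHom j x f) = eval₂RingHom j x (derivative f) := by
  induction f using Polynomial.induction_on' with
  | add p q hp hq => simp only [map_add, hp, hq]
  | monomial n c =>
    simp only [coe_eval₂RingHom, eval₂_monomial, derivative_monomial, Derivation.leibniz,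
      Derivation.leibniz_pow, hj, hx, smul_eq_mul, map_mul, map_natCast, nsmul_eq_mul]
    ring

lemma der_mul {K : Type*} [CommRing K] (D : Derivation ℤ K K) (a b : K) :
    D (a * b) = a * D b + b * D a := by
  rw [Derivation.leibniz]; simp

lemma iter_const_mul {K : Type*} [CommRing K] (D : Derivation ℤ K K) (c y : K) (hc : D c = 0)
    (i : ℕ) : (⇑D)^[i] (c * y) = c * (⇑D)^[i] y := by
  induction i with
  | zero => simp
  | succ i ih =>
    rw [Function.iterate_succ_apply', ih, Function.iterate_succ_apply', Derivation.leibniz, hc]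
    simp

lemma iter_comm {F K : Type*} [CommRing F] [CommRing K] (δ : K → K) (ι : F[X] →+* K)
    (h : ∀ f, δ (ι f) = ι (derivative f)) (i : ℕ) (f : F[X]) :
    δ^[i] (ι f) = ι (derivative^[i] f) := by
  induction i with
  | zero => simp
  | succ i ih => rw [Function.iterate_succ_apply', ih, h, Function.iterate_succ_apply']

lemma aeval_eq_eval₂ {F K : Type*} [CommRing F] [CommRing K] (j : F →+* K) (x : K) (b : ℤ[X]) :
    aeval x b = eval₂RingHom j x (b.map (Int.castRingHom F)) := by
  rw [coe_eval₂RingHom, eval₂_map, aeval_def]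
  congr 1
  exact RingHom.ext_int _ _

lemma poly_sols (p : ℕ) [Fact p.Prime] {r : ℕ} (b : Fin (r + 1) → ℤ[X])
    (h : FullBasis (RatFunc (ZMod p)) RatFunc.X b) :
    ∃ y : Fin r → (ZMod p)[X],
      (∀ j, ∑ i : Fin (r + 1), (b i).map (Int.castRingHom _) * derivative^[(i : ℕ)] (y j) = 0) ∧
      ∀ c : Fin r → (ZMod p)[X], ∑ j, expand _ p (c j) * y j = 0 → ∀ j, c j = 0 := by
  classical
  obtain ⟨D, hD, y, hy, hind⟩ := h
  set ι : (ZMod p)[X] →+* RatFunc (ZMod p) :=
    eval₂RingHom (algebraMap (ZMod p) (RatFunc (ZMod p))) RatFunc.X with hι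
  have hι2 : ∀ f, ι f = algebraMap _ _ f := fun f => by
    rw [← RatFunc.aeval_X_left_eq_algebraMap]; rfl
  have hinj : Function.Injective ι := by
    intro f g hfg
    rw [hι2, hι2] at hfg
    exact RatFunc.algebraMap_injective _ hfg
  have hDι : ∀ f, D (ι f) = ι (derivative f) := deriv_eval₂ D _ hD _ (fun c => by
    obtain ⟨z, rfl⟩ := ZMod.intCast_surjective c
    simp)
  have hp0 : (p : (ZMod p)[X]) = 0 := by rw [← C_eq_natCast, CharP.cast_eq_zero, C_0]
  have hp : 1 ≤ p := (Fact.out : p.Prime).one_le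
  obtain ⟨q, hq0, hqd⟩ : ∃ q : (ZMod p)[X], q ≠ 0 ∧ ∀ j, (y j).denom ∣ q :=
    ⟨∏ j, (y j).denom, Finset.prod_ne_zero_iff.mpr fun j _ => RatFunc.denom_ne_zero _,
      fun j => Finset.dvd_prod_of_mem (fun j => (y j).denom) (Finset.mem_univ j)⟩
  have hex : ∀ j, ∃ Y, ι Y = ι (q ^ p) * y j := by
    intro j
    obtain ⟨w, hw⟩ : (y j).denom ∣ q ^ p :=
      (hqd j).trans (dvd_pow_self q (by omega))
    refine ⟨w * (y j).num, ?_⟩
    have h1 := RatFunc.num_div_denom (y j)
    have h2 : algebraMap _ (RatFunc (ZMod p)) (y j).denom ≠ 0 :=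
      RatFunc.algebraMap_ne_zero (RatFunc.denom_ne_zero _)
    rw [div_eq_iff h2] at h1
    rw [hw, map_mul, map_mul, hι2, hι2, hι2, h1]; ring
  choose Y hY using hex
  have hDq : D (ι (q ^ p)) = 0 := by
    rw [hDι, derivative_pow]; simp
  refine ⟨Y, fun j => hinj ?_, fun c hc j => ?_⟩
  · simp only [map_sum, map_mul, ← iter_comm D ι hDι, hY, iter_const_mul D _ _ hDq, map_zero]
    have := hy j
    simp only [aeval_eq_eval₂ (algebraMap (ZMod p) (RatFunc (ZMod p))), ← hι] at this
    simp only [mul_left_comm _ (ι (q ^ p)), ← Finset.mul_sum, this, mul_zero]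
  · have h1 := hind (fun j => ι (expand _ p (c j)) * ι (q ^ p)) (fun j => by
      rw [der_mul, hDq, hDι, derivative_expand, hp0]; simp) (by
      have := congrArg ι hc
      simpa only [map_sum, map_mul, hY, map_zero, mul_assoc] using this) j
    rw [← map_mul, map_eq_zero_iff _ hinj] at h1
    exact (expand_eq_zero hp).mp ((mul_eq_zero.mp h1).resolve_right (pow_ne_zero _ hq0))

section BaseChange
variable {F k : Type*} [Field F] [Field k] [Algebra F k]

/-- apply a functional coefficientwise -/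
noncomputable def lam (l : k →ₗ[F] F) (f : k[X]) : F[X] := f.sum fun n c => monomial n (l c)

lemma coeff_lam (l : k →ₗ[F] F) (f : k[X]) (n : ℕ) : (lam l f).coeff n = l (f.coeff n) := by
  rw [lam, Polynomial.sum, finsetSum_coeff, Finset.sum_eq_single n]
  · simp
  · intro b _ hb; simp [coeff_monomial, hb]
  · intro h; simp [notMem_support_iff.mp h]

lemma indep_baseChange (p : ℕ) (hp : 0 < p) {r : ℕ} (y : Fin r → F[X])
    (h : ∀ c : Fin r → F[X], ∑ j, expand _ p (c j) * y j = 0 → ∀ j, c j = 0)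
    (c : Fin r → k[X]) (hc : ∑ j, expand _ p (c j) * (y j).map (algebraMap F k) = 0) (j : Fin r) :
    c j = 0 := by
  ext n
  rw [coeff_zero, ← Module.forall_dual_apply_eq_zero_iff F]
  intro l
  have := h (fun j => lam l (c j)) (by
    ext t
    have h1 := congrArg (fun f => l (coeff f t)) hc
    simp only [finsetSum_coeff, coeff_mul, map_sum, coeff_map, coeff_zero, map_zero] at h1 ⊢
    rw [← h1]
    refine Finset.sum_congr rfl fun j _ => Finset.sum_congr rfl fun x _ => ?_
    rw [mul_comm _ (algebraMap F k _), ← Algebra.smul_def, map_smul, coeff_expand hp,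
      coeff_expand hp]
    split_ifs
    · rw [coeff_lam, smul_eq_mul, mul_comm]
    · simp) j
  rw [← coeff_lam, this, coeff_zero]

end BaseChange

lemma poly_sols_k (p : ℕ) [Fact p.Prime] (k : Type*) [Field k] [CharP k p] {r : ℕ}
    (b : Fin (r + 1) → ℤ[X]) (h : FullBasis (RatFunc (ZMod p)) RatFunc.X b) :
    ∃ y : Fin r → k[X],
      (∀ j, ∑ i : Fin (r + 1), (b i).map (Int.castRingHom _) * derivative^[(i : ℕ)] (y j) = 0) ∧
      ∀ c : Fin r → k[X], ∑ j, expand _ p (c j) * y j = 0 → ∀ j, c j = 0 := by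
  obtain ⟨y, h1, h2⟩ := poly_sols p b h
  let := ZMod.algebra k p
  refine ⟨fun j => (y j).map (algebraMap (ZMod p) k), fun j => ?_,
    indep_baseChange p (Fact.out : p.Prime).pos y h2⟩
  have := congrArg (Polynomial.map (algebraMap (ZMod p) k)) (h1 j)
  simp only [Polynomial.map_sum, Polynomial.map_mul, Polynomial.map_map, ← iterate_derivative_map,
    Polynomial.map_zero] at this
  rwa [RingHom.ext_int ((algebraMap (ZMod p) k).comp (Int.castRingHom (ZMod p)))
    (Int.castRingHom k)] at this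

section Local
variable {k : Type*} [Field k] {r : ℕ}

lemma sol_ord (β : Fin (r + 1) → k[X]) (a : k) (μ : ℕ) (g : Fin (r + 1) → k[X])
    (hg : ∀ i, (X - C a) ^ r * β i = (X - C a) ^ (μ + i) * g i) (y : k[X]) (hy : y ≠ 0)
    (hsol : ∑ i : Fin (r + 1), β i * derivative^[(i : ℕ)] y = 0) :
    ∑ i : Fin (r + 1), (g i).eval a * ff (rootMultiplicity a y : k) i = 0 := by
  obtain ⟨w, h1, h2⟩ := exists_local a y hy
  generalize rootMultiplicity a y = n at *
  have h3 : (X - C a) ^ (μ + n) *
      ∑ i : Fin (r + 1), g i * tw (X - C a) (C (n : k)) w i = 0 := by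
    rw [← mul_zero ((X - C a) ^ r), ← hsol, Finset.mul_sum, Finset.mul_sum]
    refine Finset.sum_congr rfl fun i _ => ?_
    rw [← mul_assoc ((X - C a) ^ r), hg, h1, pow_add, pow_add]
    linear_combination (-(X - C a) ^ μ * g i) * local_tw a n w i
  have h4 := (mul_eq_zero.mp h3).resolve_left (pow_ne_zero _ (X_sub_C_ne_zero a))
  have h5 := congrArg (eval a) h4
  simp only [eval_finsetSum, eval_mul, tw_eval, ← mul_assoc, ← Finset.sum_mul, eval_zero] at h5
  exact (mul_eq_zero.mp h5).resolve_right h2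

lemma sol_ord_ordinary (β : Fin (r + 1) → k[X]) (a : k) (ha : (β (Fin.last r)).eval a ≠ 0)
    (y : k[X]) (hy : y ≠ 0) (hsol : ∑ i : Fin (r + 1), β i * derivative^[(i : ℕ)] y = 0) :
    ∃ j : Fin r, (rootMultiplicity a y : k) = (j : ℕ) := by
  have := sol_ord β a 0 (fun i => (X - C a) ^ (r - i) * β i) (fun i => by
    rw [zero_add, ← mul_assoc, ← pow_add, Nat.add_sub_cancel' (Nat.lt_succ_iff.mp i.2)]) y hy hsol
  rw [Fin.sum_univ_castSucc, Finset.sum_eq_zero (fun i _ => by
    have : r - i ≠ 0 := by have := i.2; omega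
    simp [this])] at this
  simp only [Fin.val_last, Nat.sub_self, pow_zero, one_mul, zero_add, mul_eq_zero, ha,
    false_or, ff, Finset.prod_eq_zero_iff, Finset.mem_range, sub_eq_zero] at this
  obtain ⟨t, ht, h⟩ := this
  exact ⟨⟨t, ht⟩, h⟩

lemma sol_deg (β : Fin (r + 1) → k[X]) (δ : ℕ)
    (hδ : ∀ i : Fin (r + 1), (X ^ r * β i).natDegree ≤ δ + i) (y : k[X]) (hy : y ≠ 0)
    (hsol : ∑ i : Fin (r + 1), β i * derivative^[(i : ℕ)] y = 0) :
    ∑ i : Fin (r + 1), (X ^ r * β i).coeff (δ + i) * ff (y.natDegree : k) i = 0 := by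
  have h1 : ∑ i : Fin (r + 1), (X ^ r * β i) * derivative^[(i : ℕ)] y = 0 := by
    simp only [mul_assoc, ← Finset.mul_sum, hsol, mul_zero]
  have h2 := congrArg (fun f => coeff f (δ + y.natDegree)) h1
  simp only [finsetSum_coeff, coeff_zero] at h2
  have h3 : ∀ i : Fin (r + 1), ((X ^ r * β i) * derivative^[(i : ℕ)] y).coeff (δ + y.natDegree)
      = (X ^ r * β i).coeff (δ + i) * ff (y.natDegree : k) i * y.leadingCoeff := by
    intro i
    rw [ff_natCast]
    rcases le_or_gt (i : ℕ) y.natDegree with h | h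
    · rw [show δ + y.natDegree = (δ + i) + (y.natDegree - i) by omega,
        coeff_mul_add_eq_of_natDegree_le (hδ i) (natDegree_iterate_derivative y i),
        coeff_iterate_derivative, Nat.sub_add_cancel h, nsmul_eq_mul, mul_assoc]
      rfl
    · rw [iterate_derivative_eq_zero h, Nat.descFactorial_eq_zero_iff_lt.mpr h]; simp
  simp only [h3, ← Finset.sum_mul] at h2
  exact (mul_eq_zero.mp h2).resolve_right (leadingCoeff_ne_zero.mpr hy)

end Local

end Pool.Agent.Lib.MP_aa40d3_nt
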