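import Mathlib

open Polynomial

namespace Pool.Agent.Lib.MP_aa40d3_nt

/-- `∑ bᵢ(x) ∂ⁱ` has `n` solutions in the field `K`, independent over the constants
(verbatim the condition used on both sides of the frozen statement). -/
def FullBasis (K : Type) [Field K] (x : K) {n : ℕ} (b : Fin (n + 1) → ℤ[X]) : Prop :=
  ∃ D : Derivation ℤ K K, D x = 1 ∧ ∃ y : Fin n → K,
    (∀ j, ∑ i : Fin (n + 1), aeval x (b i) * (⇑D)^[(i : ℕ)] (y j) = 0) ∧
    ∀ c : Fin n → K, (∀ j, D (c j) = 0) → ∑ j, c j * y j = 0 → ∀ j, c j = 0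

/-- `a` is a regular singular (or ordinary) point with local exponents `ρ`:
`bᵢ = (x - a) ^ (μ - n + i) gᵢ`, `gₙ(a) ≠ 0`, and the indicial polynomial
`∑ gᵢ(a) s (s - 1) ⋯ (s - i + 1)` has the roots `ρ j`. -/
def ExponentsAt {n : ℕ} (b : Fin (n + 1) → ℤ[X]) (a : AlgebraicClosure ℚ) (ρ : Fin n → ℚ) :
    Prop :=
  ∃ (μ : ℕ) (g : Fin (n + 1) → (AlgebraicClosure ℚ)[X]),
    (∀ i : Fin (n + 1),
      (X - C a) ^ n * (b i).map (Int.castRingHom _) = (X - C a) ^ (μ + i) * g i) ∧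
    (g (Fin.last n)).eval a ≠ 0 ∧
    ∀ s : AlgebraicClosure ℚ, ∑ i : Fin (n + 1), (g i).eval a * ∏ t ∈ Finset.range i, (s - t) =
      (g (Fin.last n)).eval a * ∏ j, (s - ρ j)

/-- `∞` is a regular singular (or ordinary) point with local exponents `σ`
(solutions behave like `x ^ (-σ j)`): `deg bᵢ ≤ deg bₙ - n + i` and the indicial polynomial
has the roots `-σ j`. -/
def ExponentsAtInfinity {n : ℕ} (b : Fin (n + 1) → ℤ[X]) (σ : Fin n → ℚ) : Prop :=
  (∀ i : Fin (n + 1), (X ^ n * b i).natDegree ≤ (b (Fin.last n)).natDegree + i) ∧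
  ∀ s : ℚ, ∑ i : Fin (n + 1), ((X ^ n * b i).coeff ((b (Fin.last n)).natDegree + i) : ℚ) *
      ∏ t ∈ Finset.range i, (s - t) = (b (Fin.last n)).leadingCoeff * ∏ j, (s + σ j)

/-- Fuchsian operator with rational Riemann scheme `ρ`: the distinct points `a x` contain all
zeros of `bₙ`, the exponents at `a x` are `ρ (some x)` and those at `∞` are `ρ none`. -/
def RiemannScheme {n m : ℕ} (b : Fin (n + 1) → ℤ[X]) (a : Fin m → AlgebraicClosure ℚ)
    (ρ : Option (Fin m) → Fin n → ℚ) : Prop :=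
  Function.Injective a ∧
    (∀ z, ((b (Fin.last n)).map (Int.castRingHom _)).eval z = 0 → ∃ x, a x = z) ∧
    (∀ x, ExponentsAt b (a x) (ρ (some x))) ∧ ExponentsAtInfinity b (ρ none)

end Pool.Agent.Lib.MP_aa40d3_nt
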