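import Mathlib

open Finset MeasureTheory Complex

namespace Pool.Agent.Lib.MP_aa40d3_nt

lemma sum_primitiveRoots_norm (n : ℕ) (hn : 0 < n) : ‖∑ ξ ∈ primitiveRoots n ℂ, ξ‖ ≤ 1 := by
  have h := (ArithmeticFunction.sum_eq_iff_sum_smul_moebius_eq
    (f := fun n => ∑ ξ ∈ primitiveRoots n ℂ, ξ) (g := fun n => if n = 1 then 1 else 0)).mp (by
      intro n hn
      have hζ := isPrimitiveRoot_exp n hn.ne'
      rw [← sum_biUnion (fun _ _ _ _ h => IsPrimitiveRoot.disjoint h),
        ← IsPrimitiveRoot.nthRoots_one_eq_biUnion_primitiveRoots]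
      have : ∑ ξ ∈ Polynomial.nthRootsFinset n (1 : ℂ), ξ =
          ∑ i ∈ range n, exp (2 * Real.pi * I / n) ^ i := by
        symm
        refine sum_bij (fun i _ => exp (2 * Real.pi * I / n) ^ i) (fun i _ => ?_)
          (fun i hi j hj h => hζ.pow_inj (mem_range.mp hi) (mem_range.mp hj) h) (fun ξ hξ => ?_)
          (fun _ _ => rfl)
        · rw [Polynomial.mem_nthRootsFinset hn, ← pow_mul, mul_comm i n, pow_mul, hζ.pow_eq_one,
            one_pow]
        · have : NeZero n := ⟨hn.ne'⟩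
          obtain ⟨i, hi, h⟩ := hζ.eq_pow_of_pow_eq_one
            ((Polynomial.mem_nthRootsFinset hn _).mp hξ)
          exact ⟨i, mem_range.mpr hi, h⟩
      rw [this]
      split_ifs with h1
      · simp [h1]
      · exact hζ.geom_sum_eq_zero (by omega)) n hn
  rw [← h, sum_eq_single (n, 1)]
  · have := ArithmeticFunction.abs_moebius_le_one (n := n)
    simp only [if_true, zsmul_eq_mul, mul_one, norm_intCast]
    exact_mod_cast this
  · rintro ⟨x, y⟩ hx hne
    have h2 := (Nat.mem_divisorsAntidiagonal.mp hx).1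
    have : y ≠ 1 := by rintro rfl; apply hne; simpa using h2
    simp [this]
  · intro h; exact (h (by simp [hn.ne'])).elim

lemma sum_units_pow (n : ℕ) [NeZero n] (ζ : ℂ) (hζ : IsPrimitiveRoot ζ n) :
    ∑ l : (ZMod n)ˣ, ζ ^ (l : ZMod n).val = ∑ ξ ∈ primitiveRoots n ℂ, ξ := by
  refine sum_bij (fun l _ => ζ ^ (l : ZMod n).val) (fun l _ => ?_) (fun i _ j _ h => ?_)
    (fun ξ hξ => ?_) (fun _ _ => rfl)
  · exact (mem_primitiveRoots (NeZero.pos n)).mpr
      (hζ.pow_of_coprime _ (ZMod.val_coe_unit_coprime l))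
  · exact Units.ext (ZMod.val_injective n (hζ.pow_inj (ZMod.val_lt _) (ZMod.val_lt _) h))
  · obtain ⟨i, hi, hc, h⟩ := hζ.isPrimitiveRoot_iff.mp ((mem_primitiveRoots (NeZero.pos n)).mp hξ)
    exact ⟨ZMod.unitOfCoprime i hc, mem_univ _, by simp [ZMod.val_natCast, Nat.mod_eq_of_lt hi, h]⟩

lemma ramanujan (d n : ℕ) [NeZero d] (h : n ∣ d) (ζ : ℂ) (hζ : IsPrimitiveRoot ζ n) :
    ‖∑ l : (ZMod d)ˣ, ζ ^ (l : ZMod d).val‖ * n.totient ≤ d.totient := by
  classical
  have : NeZero n := ⟨fun hn => NeZero.ne d (zero_dvd_iff.mp (hn ▸ h))⟩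
  have hs := ZMod.unitsMap_surjective h
  have hK : ∀ y, #{g | ZMod.unitsMap h g = y} = #{g | ZMod.unitsMap h g = 1} := fun y =>
    MonoidHom.card_fiber_eq_of_mem_range _ (hs y) (hs 1)
  have h1 : d.totient = #{g | ZMod.unitsMap h g = 1} * n.totient := by
    rw [← ZMod.card_units_eq_totient, ← ZMod.card_units_eq_totient, ← card_univ,
      card_eq_sum_card_fiberwise (f := ZMod.unitsMap h) (t := univ) (fun _ _ => mem_univ _)]
    simp only [hK, sum_const, card_univ, smul_eq_mul, mul_comm]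
  have h2 : ∑ l : (ZMod d)ˣ, ζ ^ (l : ZMod d).val =
      #{g | ZMod.unitsMap h g = 1} * ∑ l : (ZMod n)ˣ, ζ ^ (l : ZMod n).val := by
    rw [← sum_fiberwise (g := ZMod.unitsMap h), mul_sum]
    refine sum_congr rfl fun y _ => ?_
    rw [← hK y, ← nsmul_eq_mul, ← sum_const]
    refine sum_congr rfl fun g hg => ?_
    rw [← (mem_filter.mp hg).2, ZMod.unitsMap_val, ZMod.cast_eq_val, ZMod.val_natCast]
    conv_rhs => rw [hζ.eq_orderOf]
    rw [pow_mod_orderOf]
  rw [h2, h1, sum_units_pow n ζ hζ, norm_mul, Complex.norm_natCast, Nat.cast_mul]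
  have := sum_primitiveRoots_norm n (NeZero.pos n)
  gcongr
  exact mul_le_of_le_one_right (by positivity) this

lemma le_fact_totient (n : ℕ) (hn : 0 < n) : n ≤ (2 * n.totient).factorial := by
  refine Nat.le_of_dvd (Nat.factorial_pos _) ((Nat.dvd_iff_prime_pow_dvd_dvd _ _).mpr ?_)
  intro p k hp hk
  rcases Nat.eq_zero_or_pos k with rfl | hk0
  · simp
  refine Nat.dvd_factorial (pow_pos hp.pos _) ?_
  have h1 := Nat.le_of_dvd (Nat.totient_pos.mpr hn) (Nat.totient_dvd_of_dvd hk)
  rw [Nat.totient_prime_pow hp hk0] at h1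
  obtain ⟨k, rfl⟩ : ∃ j, k = j + 1 := ⟨k - 1, by omega⟩
  obtain ⟨q, rfl⟩ : ∃ q, p = q + 2 := ⟨p - 2, by have := hp.two_le; omega⟩
  simp only [Nat.add_sub_cancel, pow_succ] at h1 ⊢
  have : q + 2 - 1 = q + 1 := by omega
  rw [this] at h1
  nlinarith [Nat.zero_le ((q + 2) ^ k * q)]

variable {ι : Type} [Fintype ι]

/-- no nontrivial integer relation of height at most `H` -/
def Generic (H : ℕ) (v : ι → ℚ) : Prop :=
  ∀ c : ι → ℤ, (∀ i, |c i| ≤ H) → (∃ z : ℤ, ∑ i, c i * v i = z) → c = 0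

lemma Generic.mono {H H' : ℕ} {v : ι → ℚ} (h : Generic H' v) (hH : H ≤ H') : Generic H v :=
  fun c hc => h c fun i => (hc i).trans (by exact_mod_cast hH)

noncomputable def pt (v : ι → ℚ) (l : ℕ) : UnitAddTorus ι :=
  fun i => (((l : ℝ) * v i : ℝ) : UnitAddCircle)

noncomputable def mu (ι : Type) [Fintype ι] : Measure (UnitAddTorus ι) :=
  Measure.pi fun _ => AddCircle.haarAddCircle

instance : IsProbabilityMeasure (mu ι) := by unfold mu; infer_instance

instance : (mu ι).IsOpenPosMeasure := by unfold mu; infer_instance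

def Good (f : C(UnitAddTorus ι, ℂ)) : Prop :=
  ∀ η : ℝ, 0 < η → ∃ H : ℕ, ∀ (v : ι → ℚ) (d : ℕ) [NeZero d], (∀ i, ∃ z : ℤ, (d : ℚ) * v i = z) →
    Generic H v → ‖∑ l : (ZMod d)ˣ, f (pt v (l : ZMod d).val) - d.totient * ∫ x, f x ∂(mu ι)‖
      ≤ η * d.totient

lemma good_mFourier (n : ι → ℤ) : Good (UnitAddTorus.mFourier n) := by
  intro η hη
  by_cases hn : n = 0
  · refine ⟨0, fun v d _ _ _ => ?_⟩
    simp only [hn, UnitAddTorus.mFourier_zero, ContinuousMap.one_apply, sum_const, card_univ,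
      ZMod.card_units_eq_totient, nsmul_eq_mul, mul_one, integral_const, probReal_univ, one_smul,
      sub_self, norm_zero]
    positivity
  have hint : ∫ x, UnitAddTorus.mFourier n x ∂(mu ι) = 0 := by
    simp only [UnitAddTorus.mFourier, ContinuousMap.coe_mk, mu]
    rw [integral_fintype_prod_eq_prod (f := fun i x => fourier (n i) x)]
    obtain ⟨i, hi⟩ := Function.ne_iff.mp hn
    exact prod_eq_zero (mem_univ i) (integral_eq_zero_of_add_right_eq_neg
      (μ := AddCircle.haarAddCircle) (fourier_add_half_inv_index hi one_pos))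
  obtain ⟨M, hM⟩ := exists_nat_gt η⁻¹
  refine ⟨(2 * M).factorial * ∑ i, (n i).natAbs, fun v d _ hd hg => ?_⟩
  obtain ⟨u, hu⟩ : ∃ u : ℚ, u = ∑ i, n i * v i := ⟨_, rfl⟩
  have h1 : ∀ l : ℕ, UnitAddTorus.mFourier n (pt v l) = exp (2 * Real.pi * I * u) ^ l := by
    intro l
    simp only [UnitAddTorus.mFourier, ContinuousMap.coe_mk, pt, fourier_coe_apply, ← exp_sum,
      ← exp_nat_mul, hu]
    congr 1
    push_cast
    simp only [mul_sum]
    exact sum_congr rfl fun i _ => by ring
  have h2 : u.den ∣ d := by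
    choose z hz using hd
    have h3 : (d : ℚ) * u = (∑ i, n i * z i : ℤ) := by
      rw [hu, mul_sum]; push_cast
      exact sum_congr rfl fun i _ => by rw [← hz]; ring
    have h4 : u = ((∑ i, n i * z i : ℤ) : ℚ) / (d : ℤ) := by
      rw [← h3, Int.cast_natCast, mul_div_cancel_left₀ _ (Nat.cast_ne_zero.mpr (NeZero.ne d))]
    have := Rat.den_dvd (∑ i, n i * z i) d
    rw [Rat.divInt_eq_div, ← h4] at this
    exact_mod_cast this
  have h5 : (2 * M).factorial < u.den := by
    by_contra h6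
    apply hn
    have := hg (fun i => u.den * n i) (fun i => by
      rw [abs_mul, Nat.abs_cast, ← Int.natCast_natAbs]
      exact_mod_cast Nat.mul_le_mul (not_lt.mp h6)
        (single_le_sum (f := fun i => (n i).natAbs) (fun _ _ => Nat.zero_le _) (mem_univ i)))
      ⟨u.num, by rw [← Rat.den_mul_eq_num, hu, mul_sum, ← hu]; push_cast; simp only [mul_assoc]⟩
    funext i
    simpa [u.den_nz] using congrFun this i
  have h7 : M ≤ u.den.totient := by
    by_contra h8
    have := (le_fact_totient _ u.den_pos).trans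
      (Nat.factorial_le (by omega : 2 * u.den.totient ≤ 2 * M))
    omega
  have h9 := ramanujan d u.den h2 _ (isPrimitiveRoot_exp_rat u)
  simp only [h1, hint, mul_zero, sub_zero]
  have h10 : η⁻¹ ≤ u.den.totient := hM.le.trans (by exact_mod_cast h7)
  rw [← inv_mul_le_iff₀ hη, mul_comm]
  exact (mul_le_mul_of_nonneg_left h10 (norm_nonneg _)).trans h9

lemma integ (f : C(UnitAddTorus ι, ℂ)) : Integrable f (mu ι) :=
  f.continuous.integrable_of_hasCompactSupport (HasCompactSupport.of_compactSpace f)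

lemma good_span (f : C(UnitAddTorus ι, ℂ))
    (hf : f ∈ Submodule.span ℂ (Set.range (UnitAddTorus.mFourier (d := ι)))) : Good f := by
  induction hf using Submodule.span_induction with
  | mem f hf => obtain ⟨n, rfl⟩ := hf; exact good_mFourier n
  | zero => exact fun η hη => ⟨0, fun v d _ _ _ => by simpa using by positivity⟩
  | add f g _ _ hf hg =>
    intro η hη
    obtain ⟨H, h1⟩ := hf (η / 2) (by positivity)
    obtain ⟨H', h2⟩ := hg (η / 2) (by positivity)
    refine ⟨max H H', fun v d _ hd hv => ?_⟩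
    have h3 := h1 v d hd (hv.mono (le_max_left _ _))
    have h4 := h2 v d hd (hv.mono (le_max_right _ _))
    simp only [ContinuousMap.add_apply, sum_add_distrib, integral_add (integ f) (integ g), mul_add]
    rw [add_sub_add_comm]
    exact (norm_add_le _ _).trans (by linarith)
  | smul c f _ hf =>
    intro η hη
    obtain ⟨H, h1⟩ := hf (η / (‖c‖ + 1)) (by positivity)
    refine ⟨H, fun v d _ hd hv => ?_⟩
    have h3 := h1 v d hd hv
    simp only [ContinuousMap.smul_apply, smul_eq_mul, integral_const_mul, ← mul_sum]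
    rw [mul_left_comm, ← mul_sub, norm_mul]
    refine (mul_le_mul_of_nonneg_left h3 (norm_nonneg _)).trans ?_
    rw [← mul_assoc]
    gcongr
    rw [← mul_div_assoc, div_le_iff₀ (by positivity)]
    nlinarith [norm_nonneg c]

lemma good_all (f : C(UnitAddTorus ι, ℂ)) : Good f := by
  intro η hη
  have hf : f ∈ closure (Submodule.span ℂ (Set.range (UnitAddTorus.mFourier (d := ι))) :
      Set C(UnitAddTorus ι, ℂ)) := by
    rw [← Submodule.topologicalClosure_coe, UnitAddTorus.span_mFourier_closure_eq_top]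
    trivial
  obtain ⟨g, hg, hfg⟩ := Metric.mem_closure_iff.mp hf (η / 3) (by positivity)
  obtain ⟨H, h1⟩ := good_span g hg (η / 3) (by positivity)
  refine ⟨H, fun v d _ hd hv => ?_⟩
  have h2 := h1 v d hd hv
  have h3 : ∀ x, ‖f x - g x‖ ≤ η / 3 := fun x => by
    rw [← dist_eq_norm]; exact (ContinuousMap.dist_apply_le_dist x).trans hfg.le
  have h4 : ‖∑ l : (ZMod d)ˣ, (f (pt v (l : ZMod d).val) - g (pt v (l : ZMod d).val))‖ ≤
      η / 3 * d.totient := by
    refine (norm_sum_le _ _).trans ((sum_le_sum fun l _ => h3 _).trans ?_)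
    simp [ZMod.card_units_eq_totient, mul_comm]
  have h5 : ‖∫ x, (f x - g x) ∂(mu ι)‖ ≤ η / 3 := by
    simpa using norm_integral_le_of_norm_le_const (μ := mu ι) (Filter.Eventually.of_forall h3)
  rw [integral_sub (integ f) (integ g)] at h5
  rw [sum_sub_distrib] at h4
  have h6 : ‖(d.totient : ℂ) * (∫ x, f x ∂(mu ι) - ∫ x, g x ∂(mu ι))‖ ≤ η / 3 * d.totient := by
    rw [norm_mul, Complex.norm_natCast, mul_comm]; gcongr
  have h7 := (norm_sub_le _ _).trans (add_le_add ((norm_add_le _ _).trans (add_le_add h4 h2)) h6)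
  refine le_of_eq_of_le ?_ (h7.trans_eq (by ring))
  congr 1; ring

theorem equi (ι : Type) [Fintype ι] (ε : ℝ) (hε : 0 < ε) (hε1 : ε ≤ 1) :
    ∃ H : ℕ, ∀ (v : ι → ℚ) (d : ℕ), 0 < d → (∀ i, ∃ z : ℤ, (d : ℚ) * v i = z) → Generic H v →
      ∃ l : ℕ, l.Coprime d ∧ ∀ i, 0 < Int.fract ((l : ℝ) * v i) ∧ Int.fract ((l : ℝ) * v i) < ε := by
  let g : UnitAddTorus ι → ℝ := fun x => ∏ i, max 0 (ε / 2 - ‖x i - ((ε / 2 : ℝ) : UnitAddCircle)‖)
  have hg : Continuous g := by fun_prop
  have hpos : 0 < ∫ x, g x ∂(mu ι) := by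
    refine integral_pos_of_integrable_nonneg_nonzero (x := fun _ => ((ε / 2 : ℝ) : UnitAddCircle))
      hg (hg.integrable_of_hasCompactSupport (HasCompactSupport.of_compactSpace g))
      (fun x => prod_nonneg fun i _ => le_max_left _ _) ?_
    simp only [g, sub_self, norm_zero, sub_zero]
    exact prod_ne_zero_iff.mpr fun _ _ => (lt_max_of_lt_right (by positivity)).ne'
  obtain ⟨H, hH⟩ := good_all (ι := ι) ⟨fun x => (g x : ℂ), by fun_prop⟩ _ (half_pos hpos)
  refine ⟨H, fun v d hd hv hgen => ?_⟩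
  have : NeZero d := ⟨hd.ne'⟩
  have h1 := hH v d hv hgen
  by_contra hcon
  have h2 : ∀ l : (ZMod d)ˣ, g (pt v (l : ZMod d).val) = 0 := by
    intro l
    by_contra h3
    refine hcon ⟨(l : ZMod d).val, ZMod.val_coe_unit_coprime l, fun i => ?_⟩
    have h4 := prod_ne_zero_iff.mp h3 i (mem_univ i)
    have h5 : ‖pt v (l : ZMod d).val i - ((ε / 2 : ℝ) : UnitAddCircle)‖ < ε / 2 := by
      by_contra h6
      exact h4 (max_eq_left (by linarith [not_lt.mp h6]))
    rw [pt, ← QuotientAddGroup.mk_sub, UnitAddCircle.norm_eq, abs_lt] at h5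
    generalize ((l : ZMod d).val : ℝ) * v i = y at *
    generalize round (y - ε / 2) = k at *
    have h7 : Int.fract y = y - k :=
      Int.fract_eq_iff.mpr ⟨by linarith, by linarith, k, by ring⟩
    rw [h7]; constructor <;> linarith
  simp only [ContinuousMap.coe_mk, h2, ofReal_zero, sum_const_zero, zero_sub, norm_neg,
    integral_complex_ofReal, norm_mul, Complex.norm_natCast, norm_real, Real.norm_eq_abs,
    abs_of_pos hpos] at h1
  have h8 : (0 : ℝ) < d.totient := by exact_mod_cast Nat.totient_pos.mpr hd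
  nlinarith

end Pool.Agent.Lib.MP_aa40d3_nt
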