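import Pool.Agent.Lib.MP_aa40d3_nt.NS.Fin

open Polynomial Pool.Agent.GR Pool.Agent.GR.NS

namespace Pool.Agent.GR.EssentialPointsVariant

/-- An irreducible Fuchsian system of rank `r` with nilpotent `p`-curvature for almost all `p`: the
local monodromies, along all paths, at all but `k(r)` of the singular points that are generic over
the field of the other singular points generate a finite group; either this group commutes with a
matrix that is not scalar, or all specialisations of the system have algebraic solutions. -/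
theorem result (r : ℕ) (hr : 1 ≤ r) : ∃ k : ℕ, ∀ (n : ℕ) (R : Type) [CommRing R]
    [Algebra.FiniteType ℤ R] (ι : R →+* ℂ), Function.Injective ι → ∀ (t : Fin n → R)
    (A : Fin n → Matrix (Fin r) (Fin r) R) (M : Finset (Fin n)) (P₀ : ℕ), Function.Injective t →
    (AlgebraicIndependent (IntermediateField.adjoin ℚ {x : ℂ | ∃ j, j ∉ M ∧ x = ι (t j)})
      fun i : M => ι (t i)) →
    Irred (fun i => ι (t i)) (fun i => (A i).map ι) →
    (∀ p : ℕ, p.Prime → P₀ < p → ∀ m : Ideal R, m.IsMaximal → (p : R) ∈ m →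
      NilCurv p (fun i => Ideal.Quotient.mk m (t i)) fun i => (A i).map (Ideal.Quotient.mk m)) →
    ∃ S ⊆ M, (M \ S).card ≤ k ∧ ∃ ε : ℝ, 0 < ε ∧ ∀ x₀ : ℂ,
      Finite (LocMon (fun i => ι (t i)) (fun i => (A i).map ι) x₀ ε S) ∧
      ((∃ z : Matrix (Fin r) (Fin r) ℂ, (∀ c : ℂ, z ≠ c • (1 : Matrix (Fin r) (Fin r) ℂ)) ∧
          ∀ g ∈ LocMon (fun i => ι (t i)) (fun i => (A i).map ι) x₀ ε S, g.val * z = z * g.val) ∨
        ∀ φ : R →+* ℂ, AlgSol (fun i => φ (t i)) fun i => (A i).map φ) :=
  finalS r hr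

end Pool.Agent.GR.EssentialPointsVariant
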