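import Pool.Agent.Lib.MP_aa40d3_nt.Final

open Polynomial Pool.Agent.Lib.MP_aa40d3_nt

namespace Pool.Agent.Lib.MP_aa40d3_nt.ExponentCriterionVariant

theorem exponent_criterion (n m : ℕ) (b : Fin (n + 1) → ℤ[X]) (hb : b (Fin.last n) ≠ 0)
    (a : Fin m → AlgebraicClosure ℚ) (ρ : Option (Fin m) → Fin n → ℚ) (h : RiemannScheme b a ρ)
    (d : ℕ) (hd : 0 < d) (hρ : ∀ x j, ∃ z : ℤ, (d : ℚ) * ρ x j = z)
    (l : ℤ) (τ : Option (Fin m) → ℝ) (hτ : 0 < ∑ x, τ x)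
    (hlt : ∑ x, ∑ j, Int.fract (l * (ρ x j : ℝ) - τ x) + n * ∑ x, τ x < n) :
    ∃ N : ℕ, ∀ p : ℕ, N < p → ∀ _ : Fact (Nat.Prime p), (d : ℤ) ∣ l * p + 1 →
      ¬ FullBasis (RatFunc (ZMod p)) RatFunc.X b := by
  obtain ⟨N, hN⟩ := Filter.eventually_atTop.mp (criterion b hb a ρ h d hd hρ l τ hτ hlt)
  exact ⟨N, fun p hp => hN p hp.le⟩

end Pool.Agent.Lib.MP_aa40d3_nt.ExponentCriterionVariant
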