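import Pool.Agent.Lib.MP_aa40d3_nt.Zero

open Polynomial Filter

namespace Pool.Agent.Lib.MP_aa40d3_nt

lemma fract_sub_min (u v : ℝ) (z : ℤ) (h : Int.fract v ≤ Int.fract u) :
    Int.fract (u - v + z) = Int.fract u - Int.fract v := by
  rw [Int.fract_eq_iff]
  refine ⟨sub_nonneg.mpr h, by linarith [Int.fract_lt_one u, Int.fract_nonneg v],
    ⌊u⌋ - ⌊v⌋ + z, ?_⟩
  simp only [Int.fract]; push_cast; ring

lemma fract_le_of (v w : ℝ) (z : ℤ) (h : v - w = z) (hw : 0 ≤ w) : Int.fract v ≤ w := by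
  have : v = w + z := by linarith
  rw [this, Int.fract_add_intCast, Int.fract]
  have : (0 : ℝ) ≤ ⌊w⌋ := by exact_mod_cast Int.floor_nonneg.mpr hw
  linarith

lemma fract_succ_le (v w : ℝ) (z z' : ℤ) (h : v - w = z) (hv : v = z') (hw : 0 < w) :
    Int.fract v + 1 ≤ w := by
  have h1 : w = ((z' - z : ℤ) : ℝ) := by push_cast; linarith
  rw [h1] at hw ⊢
  have : (1 : ℤ) ≤ z' - z := by exact_mod_cast hw
  rw [hv, Int.fract_intCast, zero_add]
  exact_mod_cast this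

lemma reduce {r m : ℕ} (hr : 0 < r) (ρ : Option (Fin m) → Fin r → ℚ) (l : ℤ)
    (τ : Option (Fin m) → ℝ) :
    ∃ (j0 : Fin m → Fin r) (B : ℤ) (w : Fin r → ℝ), (∀ x i j, ρ (some x) i - B ≤ ρ (some x) j) ∧
      (∀ j, ∑ x, τ x ≤ w j) ∧
      (∀ j, ∃ z : ℤ, ((l * (ρ none j + ∑ x, (ρ (some x) (j0 x) - B)) : ℚ) : ℝ) - w j = z) ∧
      ((∑ x, ∑ j, Int.fract (l * (ρ (some x) j - (ρ (some x) (j0 x) - B))) : ℚ) : ℝ) + ∑ j, w j =
        ∑ x, ∑ j, Int.fract (l * (ρ x j : ℝ) - τ x) + r * ∑ x, τ x := by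
  have : Nonempty (Fin r) := ⟨⟨0, hr⟩⟩
  choose j0 hj0 using fun x : Fin m =>
    Finite.exists_min (fun j => Int.fract (l * (ρ (some x) j : ℝ) - τ (some x)))
  obtain ⟨B, hB⟩ := (Set.finite_range fun t : Fin m × Fin r × Fin r =>
    ρ (some t.1) t.2.1 - ρ (some t.1) t.2.2).bddAbove
  refine ⟨j0, ⌈B⌉, fun j => Int.fract (l * (ρ none j : ℝ) - τ none) + ∑ x, τ x +
    ∑ x, Int.fract (l * (ρ (some x) (j0 x) : ℝ) - τ (some x)), fun x i j => ?_, fun j => ?_,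
    fun j => ⟨⌊l * (ρ none j : ℝ) - τ none⌋ +
      ∑ x, (⌊l * (ρ (some x) (j0 x) : ℝ) - τ (some x)⌋ - l * ⌈B⌉), ?_⟩, ?_⟩
  · have := hB ⟨(x, i, j), rfl⟩
    have h2 := Int.le_ceil B
    simp only at this
    linarith
  · have h1 := Int.fract_nonneg (l * (ρ none j : ℝ) - τ none)
    have h2 := Finset.sum_nonneg (s := Finset.univ) fun x _ =>
      Int.fract_nonneg (l * (ρ (some x) (j0 x) : ℝ) - τ (some x))
    linarith
  · simp only [Int.fract, Fintype.sum_option]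
    push_cast
    simp only [Finset.sum_sub_distrib, mul_add, mul_sub, Finset.mul_sum]
    ring
  · have h1 : ∀ x j, ((Int.fract (l * (ρ (some x) j - (ρ (some x) (j0 x) - ⌈B⌉))) : ℚ) : ℝ) =
        Int.fract (l * (ρ (some x) j : ℝ) - τ (some x)) -
          Int.fract (l * (ρ (some x) (j0 x) : ℝ) - τ (some x)) := by
      intro x j
      rw [Rat.cast_fract, ← fract_sub_min _ _ (l * ⌈B⌉) (hj0 x j)]
      congr 1
      push_cast; ring
    simp only [Rat.cast_sum, h1, Fintype.sum_option (f := fun x => ∑ j,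
      Int.fract (l * (ρ x j : ℝ) - τ x)), Finset.sum_sub_distrib, Finset.sum_add_distrib,
      Finset.sum_const, Finset.card_univ, Fintype.card_fin, nsmul_eq_mul, ← Finset.mul_sum]
    ring

lemma den_sub {d : ℕ} {u : ℚ} (h : ∃ z : ℤ, (d : ℚ) * u = z) (B : ℤ) :
    ∃ z : ℤ, (d : ℚ) * (u - B) = z := by
  obtain ⟨z, hz⟩ := h
  exact ⟨z - d * B, by rw [mul_sub, hz]; push_cast; rfl⟩

theorem criterion {r m : ℕ} (b : Fin (r + 1) → ℤ[X]) (hb : b (Fin.last r) ≠ 0) (a : Fin m → Qb)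
    (ρ : Option (Fin m) → Fin r → ℚ) (h : RiemannScheme b a ρ) (d : ℕ) (hd : 0 < d)
    (hρ : ∀ x j, ∃ z : ℤ, (d : ℚ) * ρ x j = z) (l : ℤ) (τ : Option (Fin m) → ℝ)
    (hτ : 0 < ∑ x, τ x)
    (hlt : ∑ x, ∑ j, Int.fract (l * (ρ x j : ℝ) - τ x) + r * ∑ x, τ x < r) :
    ∀ᶠ p in atTop, ∀ (_ : Fact (Nat.Prime p)), (d : ℤ) ∣ l * p + 1 →
      ¬ FullBasis (RatFunc (ZMod p)) RatFunc.X b := by
  classical
  have hr : 0 < r := by
    rcases Nat.eq_zero_or_pos r with rfl | h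
    · simp at hlt
    · exact h
  obtain ⟨j0, B, w, h1, h2, h3, h4⟩ := reduce hr ρ l τ
  filter_upwards [main b hb a ρ h d hd hρ (fun x => ρ (some x) (j0 x) - B)
    (fun x => den_sub (hρ _ _) B) (fun x j => h1 x _ j) l] with p hp hpp hl hfull
  obtain ⟨-, -, J, hJ1, hJ2⟩ := hp hpp hl hfull
  have h5 : ∀ j, ((Int.fract (l * (ρ none j + ∑ x, (ρ (some x) (j0 x) - B))) : ℚ) : ℝ) +
      (if j ∈ J then 1 else 0) ≤ w j := by
    intro j
    obtain ⟨z, hz⟩ := h3 j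
    rw [Rat.cast_fract]
    split_ifs with hj
    · obtain ⟨q, -, hq, -⟩ := hJ2 j hj
      refine fract_succ_le _ _ z (-(l * q.natDegree)) hz ?_ (hτ.trans_le (h2 j))
      rw [← neg_neg (ρ none j + _), ← hq]
      push_cast; ring
    · rw [add_zero]; exact fract_le_of _ _ z hz (hτ.le.trans (h2 j))
  have h6 := Finset.sum_le_sum fun j (_ : j ∈ Finset.univ) => h5 j
  rw [Finset.sum_add_distrib, Finset.sum_ite_mem, Finset.univ_inter, Finset.sum_const,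
    nsmul_eq_mul, mul_one, ← Rat.cast_sum] at h6
  have h7 := (Rat.cast_le (K := ℝ)).mpr hJ1
  rw [Rat.cast_sub, Rat.cast_add, Rat.cast_natCast, Rat.cast_natCast] at h7
  linarith

lemma exists_prime (d : ℕ) (hd : 0 < d) (l : ℤ) (hl : IsCoprime l d) {P : ℕ → Prop}
    (hP : ∀ᶠ p in atTop, P p) : ∃ p, P p ∧ p.Prime ∧ (d : ℤ) ∣ l * p + 1 := by
  obtain ⟨N, hN⟩ := eventually_atTop.mp hP
  obtain ⟨s, t, hst⟩ := hl
  obtain ⟨p, h1, h2, h3⟩ := Nat.forall_exists_prime_gt_and_zmodEq N (q := d) (a := -s) hd.ne'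
    ⟨-l, t, by linear_combination hst⟩
  refine ⟨p, hN p h1.le, h2, ?_⟩
  obtain ⟨c, hc⟩ := h3.dvd
  exact ⟨t - l * c, by linear_combination -hst - l * hc⟩

lemma main' {r m : ℕ} (b : Fin (r + 1) → ℤ[X]) (hb : b (Fin.last r) ≠ 0) (a : Fin m → Qb)
    (ρ : Option (Fin m) → Fin r → ℚ) (h : RiemannScheme b a ρ) (d : ℕ) (hd : 0 < d)
    (hρ : ∀ x j, ∃ z : ℤ, (d : ℚ) * ρ x j = z) (κ : Fin m → ℚ)
    (hκd : ∀ x, ∃ z : ℤ, (d : ℚ) * κ x = z) (hκ : ∀ x j, κ x ≤ ρ (some x) j) (l : ℤ)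
    (hl : IsCoprime l d)
    (H : ∃ N : ℕ, ∀ p : ℕ, N < p → ∀ (_ : Fact (Nat.Prime p)),
      FullBasis (RatFunc (ZMod p)) RatFunc.X b) :
    (∃ z : ℤ, ∑ x, ∑ j, ρ (some x) j + ∑ j, ρ none j = z) ∧ Function.Injective (ρ none) ∧
      ∃ J : Finset (Fin r), (r : ℚ) - J.card ≤
        ∑ x, ∑ j, Int.fract (l * (ρ (some x) j - κ x)) +
          ∑ j, Int.fract (l * (ρ none j + ∑ x, κ x)) ∧
        ∀ j ∈ J, Sol0 b a κ (-(ρ none j + ∑ x, κ x)) := by
  obtain ⟨N, hN⟩ := H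
  obtain ⟨p, ⟨h1, h2⟩, h3, h4⟩ := exists_prime d hd l hl
    ((main b hb a ρ h d hd hρ κ hκd hκ l).and (eventually_gt_atTop N))
  obtain ⟨h5, h6⟩ := h1 ⟨h3⟩ h4 (hN p h2 ⟨h3⟩)
  exact ⟨⟨m * (∑ i : Fin r, (i : ℕ) : ℕ) - (∑ i : Fin r, (i : ℕ) : ℕ), by
    rw [Int.cast_sub, Int.cast_mul, Int.cast_natCast, Int.cast_natCast]
    linarith⟩, h6⟩

lemma sum_two (f : Fin 2 → ℚ) (i : Fin 2) : ∑ j, f j = f i + f i.rev := by
  fin_cases i <;> simp [add_comm]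

lemma fract_int_add (u : ℚ) (z : ℤ) (v : ℚ) (h : v = u + z) : Int.fract v = Int.fract u := by
  rw [h, Int.fract_add_intCast]

lemma fract_int (z : ℤ) (v : ℚ) (h : v = z) : Int.fract v = 0 := by
  rw [h, Int.fract_intCast]

theorem order_two {m : ℕ} (b : Fin 3 → ℤ[X]) (hb : b (Fin.last 2) ≠ 0) (a : Fin m → Qb)
    (ρ : Option (Fin m) → Fin 2 → ℚ) (h : RiemannScheme (n := 2) b a ρ) (d : ℕ) (hd : 0 < d)
    (hρ : ∀ x j, ∃ z : ℤ, (d : ℚ) * ρ x j = z) (l : ℤ) (hl : IsCoprime l d)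
    (τ : Option (Fin m) → ℝ) (hτ : 0 ≤ ∑ x, τ x)
    (hlt : ∑ x, ∑ j, Int.fract (l * (ρ x j : ℝ) - τ x) + 2 * ∑ x, τ x < 2)
    (H : ∃ N : ℕ, ∀ p : ℕ, N < p → ∀ (_ : Fact (Nat.Prime p)),
      FullBasis (RatFunc (ZMod p)) RatFunc.X (n := 2) b) : FullBasis KK xK (n := 2) b := by
  obtain ⟨j0, B, w, h1, h2, h3, h4⟩ := reduce two_pos ρ l τ
  obtain ⟨⟨F, hF⟩, hinj, J, hJ1, hJ2⟩ := main' (r := 2) b hb a ρ h d hd hρ
    (fun x => ρ (some x) (j0 x) - B) (fun x => den_sub (hρ _ _) B) (fun x j => h1 x _ j) l hl H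
  obtain ⟨-, -, J', hJ1', hJ2'⟩ := main' (r := 2) b hb a ρ h d hd hρ
    (fun x => ρ (some x) (j0 x).rev - B) (fun x => den_sub (hρ _ _) B) (fun x j => h1 x _ j)
    (-l) hl.neg_left H
  have h5 : ∑ x, ∑ j, Int.fract (l * (ρ (some x) j - (ρ (some x) (j0 x) - B))) +
      ∑ j, Int.fract (l * (ρ none j + ∑ x, (ρ (some x) (j0 x) - B))) < 2 := by
    have h6 : ((∑ j, Int.fract (l * (ρ none j + ∑ x, (ρ (some x) (j0 x) - B))) : ℚ) : ℝ) ≤
        ∑ j, w j := by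
      rw [Rat.cast_sum]
      refine Finset.sum_le_sum fun j _ => ?_
      obtain ⟨z, hz⟩ := h3 j
      rw [Rat.cast_fract]
      exact fract_le_of _ _ z hz (hτ.trans (h2 j))
    rw [← Rat.cast_lt (K := ℝ), Rat.cast_add]
    simp only [Nat.cast_ofNat, Rat.cast_ofNat] at h4 ⊢
    linarith
  have hpos : ∀ n : ℕ, ∀ t : ℚ, ((2 : ℕ) : ℚ) - n ≤ t → t < 2 → 0 < n := fun n t h h' => by
    have : (0 : ℚ) < n := by push_cast at h; linarith
    exact_mod_cast this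
  obtain ⟨i, hi⟩ := Finset.card_pos.mp (hpos _ _ hJ1 h5)
  have hne : i ≠ i.rev := by fin_cases i <;> simp
  by_cases hi' : i.rev ∈ J
  · refine fullBasis_two b a h.1 _ _ _ _ (hJ2 i hi) (hJ2 _ hi') (Or.inr ⟨rfl, fun h0 => ?_⟩)
    exact hne (hinj (by linarith))
  have hJ : J.card ≤ 1 := by
    refine Finset.card_le_one.mpr fun s hs t ht => ?_
    have key : ∀ s ∈ J, s = i := fun s hs => by
      by_contra h0
      apply hi'
      have : s = i.rev := by fin_cases i <;> fin_cases s <;> simp_all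
      exact this ▸ hs
    rw [key s hs, key t ht]
  obtain ⟨q, -, hq, -⟩ := hJ2 i hi
  have hF' : ∑ x, (ρ (some x) (j0 x) - B) + ∑ x, (ρ (some x) (j0 x).rev - B) + ρ none i
      + ρ none i.rev = (F - m * (2 * B) : ℤ) := by
    rw [sum_two _ i, Finset.sum_congr rfl fun x _ => sum_two (ρ (some x)) (j0 x)] at hF
    simp only [Finset.sum_sub_distrib, Finset.sum_add_distrib, Finset.sum_const,
      Finset.card_univ, Fintype.card_fin, nsmul_eq_mul] at hF ⊢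
    push_cast
    linarith
  have e1 : ∀ x, ∑ j, Int.fract (l * (ρ (some x) j - (ρ (some x) (j0 x) - B))) =
      Int.fract (l * (ρ (some x) (j0 x).rev - ρ (some x) (j0 x))) := fun x => by
    rw [sum_two _ (j0 x), fract_int (l * B) _ (by push_cast; ring), zero_add]
    exact fract_int_add _ (l * B) _ (by push_cast; ring)
  have e2 : ∀ x, ∑ j, Int.fract (((-l : ℤ) : ℚ) * (ρ (some x) j - (ρ (some x) (j0 x).rev - B))) =
      Int.fract (l * (ρ (some x) (j0 x).rev - ρ (some x) (j0 x))) := fun x => by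
    rw [sum_two _ (j0 x), fract_int (-(l * B)) (_ * (ρ (some x) (j0 x).rev - _))
      (by push_cast; ring), add_zero]
    exact fract_int_add _ (-(l * B)) _ (by push_cast; ring)
  have e3 : ∑ j, Int.fract (l * (ρ none j + ∑ x, (ρ (some x) (j0 x) - B))) =
      Int.fract (l * (ρ none i.rev + ∑ x, (ρ (some x) (j0 x) - B))) := by
    rw [sum_two _ i, fract_int (-(l * q.natDegree)) _ (by push_cast; rw [hq]; ring), zero_add]
  have e4 : ∑ j, Int.fract (((-l : ℤ) : ℚ) * (ρ none j + ∑ x, (ρ (some x) (j0 x).rev - B))) =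
      Int.fract (l * (ρ none i.rev + ∑ x, (ρ (some x) (j0 x) - B))) := by
    rw [sum_two _ i, fract_int (-(l * (F - m * (2 * B) + q.natDegree))) (_ * (ρ none i.rev + _))
      (by push_cast at hF' ⊢; rw [hq]; linear_combination (-l : ℚ) * hF'), add_zero]
    exact fract_int_add _ (-(l * (F - m * (2 * B)))) _
      (by push_cast at hF' ⊢; linear_combination (-l : ℚ) * hF')
  simp only [e1, e3] at h5 hJ1
  simp only [e2, e4] at hJ1'
  obtain ⟨i', hi''⟩ := Finset.card_pos.mp (hpos _ _ hJ1' h5)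
  refine fullBasis_two b a h.1 _ _ _ _ (hJ2 i hi) (hJ2' i' hi'') (Or.inl ?_)
  by_contra hcon
  push Not at hcon
  rw [Finset.sum_eq_zero (fun x _ => by
    obtain ⟨z, hz⟩ := hcon x
    exact fract_int (-(l * z)) _ (by push_cast; linear_combination (-l : ℚ) * hz))] at hJ1
  have h8 : (J.card : ℚ) ≤ 1 := by exact_mod_cast hJ
  have h9 := Int.fract_lt_one (l * (ρ none i.rev + ∑ x, (ρ (some x) (j0 x) - B)))
  push_cast at hJ1
  linarith

end Pool.Agent.Lib.MP_aa40d3_nt
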