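import Pool.Agent.Lib.MP_aa40d3_nt.Final
import Pool.Agent.Lib.MP_aa40d3_nt.Equi

open Polynomial Filter

namespace Pool.Agent.Lib.MP_aa40d3_nt

lemma exists_den {ι : Type*} [Fintype ι] (v : ι → ℚ) :
    ∃ d : ℕ, 0 < d ∧ ∀ i, ∃ z : ℤ, (d : ℚ) * v i = z := by
  refine ⟨∏ i, (v i).den, Finset.prod_pos fun i _ => (v i).den_pos, fun i => ?_⟩
  obtain ⟨c, hc⟩ := Finset.dvd_prod_of_mem (fun i => (v i).den) (Finset.mem_univ i)
  refine ⟨c * (v i).num, ?_⟩
  rw [hc, Nat.cast_mul, mul_comm ((v i).den : ℚ), mul_assoc, Rat.den_mul_eq_num]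
  push_cast; rfl

theorem generic_tau (r m : ℕ) : ∃ H : ℕ, ∀ (ρ : Option (Fin m) → Fin (r + 2) → ℚ) (d : ℕ),
    0 < d → (∀ t : Option (Fin m) × Fin (r + 2), ∃ z : ℤ, (d : ℚ) * ρ t.1 t.2 = z) →
    (∀ (c : Option (Fin m) → Fin (r + 2) → ℤ) (t : ℤ), (∀ x j, |c x j| ≤ H) →
      (∀ x, ∑ j, c x j = t) → (∃ z : ℤ, ∑ x, ∑ j, (c x j : ℚ) * ρ x j = z) →
      ∀ x j y k, c x j = c y k) →
    ∃ l : ℕ, l.Coprime d ∧ ∃ τ : Option (Fin m) → ℝ, 0 < ∑ x, τ x ∧
      ∑ x, ∑ j, Int.fract (((l : ℤ) : ℝ) * (ρ x j : ℝ) - τ x) + ((r + 2 : ℕ) : ℝ) * ∑ x, τ x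
        < (r + 2 : ℕ) := by
  classical
  obtain ⟨ε, hε⟩ : ∃ ε : ℝ, ε = 1 / ((m + 2) * (r + 2)) := ⟨_, rfl⟩
  have hε0 : 0 < ε := by rw [hε]; positivity
  have hε2 : ε * ((m + 2) * (r + 2)) = 1 := by rw [hε]; field_simp
  have hm : (0 : ℝ) ≤ m := by positivity
  have hr : (0 : ℝ) ≤ r := by positivity
  obtain ⟨H, hH⟩ := equi (Option (Fin m) × Fin (r + 1)) ε hε0 (by
    nlinarith [mul_nonneg hm hr, mul_nonneg hε0.le hm, mul_nonneg hε0.le hr,
      mul_nonneg hε0.le (mul_nonneg hm hr)])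
  refine ⟨(r + 2) * H, fun ρ d hd hρ hgen => ?_⟩
  obtain ⟨l, hl, hv⟩ := hH (fun t => if t = (none, 0) then ∑ x, ρ x 0
      else ρ t.1 t.2.succ - ρ t.1 0) d hd (fun t => by
    choose z hz using hρ
    split_ifs
    · exact ⟨∑ x, z (x, 0), by simp only [Finset.mul_sum, Int.cast_sum, ← hz]⟩
    · exact ⟨z (t.1, t.2.succ) - z (t.1, 0), by simp only [mul_sub, Int.cast_sub, ← hz]⟩) (by
    rintro c hc ⟨z, hz⟩
    obtain ⟨c', hc'⟩ : ∃ c' : Option (Fin m) → Fin (r + 1) → ℤ,
      c' = fun x j => if (x, j) = (none, 0) then 0 else c (x, j) := ⟨_, rfl⟩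
    have hb1 : ∀ x j, |c' x j| ≤ H := fun x j => by
      rw [hc']; dsimp only; split_ifs
      · simp
      · exact hc _
    have key := hgen (fun x => Fin.cons (c (none, 0) - ∑ j, c' x j) (c' x)) (c (none, 0))
      (fun x j => by
        refine Fin.cases ?_ (fun j => ?_) j
        · rw [Fin.cons_zero]
          have h1 := (Finset.abs_sum_le_sum_abs _ _).trans
            (Finset.sum_le_sum fun j (_ : j ∈ Finset.univ) => hb1 x j)
          simp only [Finset.sum_const, Finset.card_univ, Fintype.card_fin, nsmul_eq_mul] at h1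
          refine (abs_sub _ _).trans ?_
          have := hc (none, 0)
          push_cast at *
          linarith
        · rw [Fin.cons_succ]
          refine (hb1 x j).trans ?_
          push_cast
          nlinarith [Int.natCast_nonneg r, Int.natCast_nonneg H])
      (fun x => by rw [Fin.sum_cons]; ring)
      ⟨z, by
        rw [← hz, Fintype.sum_prod_type]
        have e1 : ∀ x j, (c (x, j) : ℚ) * (if (x, j) = (none, 0) then ∑ x, ρ x 0
            else ρ x j.succ - ρ x 0) = (if (x, j) = (none, 0) then c (none, 0) * ∑ x, ρ x 0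
            else 0) + c' x j * (ρ x j.succ - ρ x 0) := fun x j => by
          rw [hc']; dsimp only
          split_ifs with h1
          · rw [h1]; simp
          · simp
        simp only [e1, Finset.sum_add_distrib]
        rw [← Fintype.sum_prod_type' (f := fun x j => if (x, j) = ((none, 0) :
          Option (Fin m) × Fin (r + 1)) then (c (none, 0) : ℚ) * ∑ x, ρ x 0 else 0)]
        simp only [Prod.mk.eta, Finset.sum_ite_eq', Finset.mem_univ, if_true, Finset.mul_sum,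
          ← Finset.sum_add_distrib]
        refine Finset.sum_congr rfl fun x _ => ?_
        rw [Fin.sum_univ_succ]
        simp only [Fin.cons_zero, Fin.cons_succ, mul_sub, Finset.sum_sub_distrib,
          ← Finset.sum_mul]
        push_cast
        ring⟩
    have h0 : ∀ x j, c' x j = 0 := fun x j => by
      have := key x j.succ none (Fin.succ 0)
      simp only [Fin.cons_succ] at this
      rw [this, hc']; simp
    have h1 : c (none, 0) = 0 := by
      have := key none 0 none (Fin.succ 0)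
      simpa only [Fin.cons_succ, Fin.cons_zero, h0, Finset.sum_const_zero, sub_zero] using this
    funext t
    by_cases ht : t = (none, 0)
    · rw [ht, h1]; rfl
    · have := h0 t.1 t.2
      rw [hc'] at this
      simpa [ht] using this)
  have hT := hv (none, 0)
  simp only [if_true] at hT
  have hsum : ∑ x, ((l : ℝ) * ρ x 0 - if x = none then (⌊(l : ℝ) * (∑ x, ρ x 0 : ℚ)⌋ : ℝ) else 0)
      = Int.fract ((l : ℝ) * (∑ x, ρ x 0 : ℚ)) := by
    simp only [Finset.sum_sub_distrib, Finset.sum_ite_eq', Finset.mem_univ, if_true, Int.fract,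
      ← Finset.mul_sum, Rat.cast_sum]
  exact ⟨l, hl,
    (fun x => (l : ℝ) * ρ x 0 - if x = none then (⌊(l : ℝ) * (∑ x, ρ x 0 : ℚ)⌋ : ℝ) else 0),
    (by rw [hsum]; exact hT.1), (by
      rw [hsum]
      have e1 : ∀ x j, Int.fract (((l : ℤ) : ℝ) * (ρ x j : ℝ) - ((l : ℝ) * ρ x 0 -
          if x = none then (⌊(l : ℝ) * (∑ x, ρ x 0 : ℚ)⌋ : ℝ) else 0)) =
          Int.fract ((l : ℝ) * ((ρ x j - ρ x 0 : ℚ) : ℝ)) := fun x j => by
        rw [Int.fract_eq_fract]
        split_ifs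
        · exact ⟨⌊(l : ℝ) * (∑ x, ρ x 0 : ℚ)⌋, by push_cast; ring⟩
        · exact ⟨0, by push_cast; ring⟩
      have e2 : ∀ (x : Option (Fin m)) (j : Fin (r + 1)),
          Int.fract ((l : ℝ) * ((ρ x j.succ - ρ x 0 : ℚ) : ℝ)) ≤
          (if (x, j) = (none, 0) then 1 else 0) + ε := fun x j => by
        split_ifs with h1
        · linarith [Int.fract_lt_one ((l : ℝ) * ((ρ x j.succ - ρ x 0 : ℚ) : ℝ))]
        · have := (hv (x, j)).2
          simp only [if_neg h1] at this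
          linarith
      simp only [e1, Fin.sum_univ_succ (n := r + 1), sub_self, Rat.cast_zero, mul_zero,
        Int.fract_zero, zero_add]
      have e3 := Finset.sum_le_sum fun x (_ : x ∈ Finset.univ) =>
        Finset.sum_le_sum fun j (_ : j ∈ Finset.univ) => e2 x j
      simp only [Finset.sum_add_distrib] at e3
      rw [← Fintype.sum_prod_type' (f := fun x j => if (x, j) = ((none, 0) :
          Option (Fin m) × Fin (r + 1)) then (1 : ℝ) else 0)] at e3
      simp only [Prod.mk.eta, Finset.sum_ite_eq', Finset.mem_univ, if_true, Finset.sum_const,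
        Finset.card_univ, Fintype.card_fin, Fintype.card_option, nsmul_eq_mul] at e3
      push_cast at e3 ⊢
      have e4 := mul_lt_mul_of_pos_left hT.2 (by positivity : (0 : ℝ) < r + 2)
      push_cast at e4
      nlinarith [mul_nonneg hε0.le hm])⟩

theorem generic (r m : ℕ) : ∃ H : ℕ, ∀ (M : ℕ) (b : Fin (r + 2 + 1) → ℤ[X]),
    b (Fin.last (r + 2)) ≠ 0 →
    ∀ (a : Fin M → Qb) (ρ : Option (Fin M) → Fin (r + 2) → ℚ), RiemannScheme b a ρ →
    ∀ S : Finset (Option (Fin M)), S.card = m + 1 → (∀ x ∉ S, ∀ j, ∃ z : ℤ, ρ x j = z) →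
    (∀ (c : Option (Fin M) → Fin (r + 2) → ℤ) (t : ℤ), (∀ x j, |c x j| ≤ H) →
      (∀ x ∈ S, ∑ j, c x j = t) → (∃ z : ℤ, ∑ x ∈ S, ∑ j, (c x j : ℚ) * ρ x j = z) →
      ∀ x ∈ S, ∀ y ∈ S, ∀ j k, c x j = c y k) →
    ¬ ∃ N : ℕ, ∀ p : ℕ, N < p → ∀ _ : Fact (Nat.Prime p),
      FullBasis (RatFunc (ZMod p)) RatFunc.X b := by
  classical
  obtain ⟨H, hH⟩ := generic_tau r m
  refine ⟨H, fun M b hb a ρ h S hS hint hgen ⟨N, hN⟩ => ?_⟩
  obtain ⟨d, hd, hρ⟩ := exists_den (fun t : Option (Fin M) × Fin (r + 2) => ρ t.1 t.2)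
  obtain ⟨e⟩ : Nonempty (Option (Fin m) ≃ S) := Fintype.card_eq.mp (by simp [hS])
  have hsum : ∀ {R : Type} [AddCommMonoid R] (f : Option (Fin M) → R),
      ∑ x ∈ S, f x = ∑ y, f (e y) := fun f => by
    rw [← Finset.sum_coe_sort, ← e.sum_comp]
  obtain ⟨l, hl, τ, h1, h2⟩ := hH (fun y => ρ (e y)) d hd (fun t => hρ (e t.1, t.2)) (by
    intro c t hc ht hz x j y k
    have := hgen (fun x => if h : x ∈ S then c (e.symm ⟨x, h⟩) else 0) t
      (fun x j => by
        split_ifs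
        · exact hc _ _
        · simp)
      (fun x hx => by simp only [dif_pos hx, ht])
      (by simpa [hsum] using hz) (e x) (e x).2 (e y) (e y).2 j k
    simpa using this)
  have hsum2 : ∀ f : Option (Fin M) → ℝ, (∀ x ∉ S, f x = 0) → ∑ x, f x = ∑ y, f (e y) :=
    fun f hf => by
      rw [← hsum, Finset.sum_subset (Finset.subset_univ S) fun x _ hx => hf x hx]
  have hτ : ∑ x, (if h : x ∈ S then τ (e.symm ⟨x, h⟩) else 0) = ∑ y, τ y := by
    rw [hsum2 _ fun x hx => dif_neg hx]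
    simp
  have hcrit := criterion b hb a ρ h d hd (fun x j => hρ (x, j)) l
    (fun x => if h : x ∈ S then τ (e.symm ⟨x, h⟩) else 0) (by rw [hτ]; exact h1) (by
      rw [hτ, hsum2]
      · simpa using h2
      · intro x hx
        refine Finset.sum_eq_zero fun j _ => ?_
        obtain ⟨z, hz⟩ := hint x hx j
        rw [dif_neg hx, hz, sub_zero, Rat.cast_intCast, ← Int.cast_mul, Int.fract_intCast])
  obtain ⟨p, ⟨h1, h2⟩, h3, h4⟩ := exists_prime d hd l (Nat.isCoprime_iff_coprime.mpr hl)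
    (hcrit.and (eventually_gt_atTop N))
  exact h1 ⟨h3⟩ h4 (hN p h2 ⟨h3⟩)

end Pool.Agent.Lib.MP_aa40d3_nt
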