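import Pool.Agent.Lib.MP_aa40d3_nt.GD.Main8

open Polynomial Pool.Agent.GR.CV

namespace Pool.Agent.Lib.MP_aa40d3_nt.GenericCurveSystemsVariant

/-- The Grothendieck-Katz conjecture for systems of rank `r` on a connected covering of degree `d`
of the line with generic branch points and punctures, when the genus of the covering is large with
respect to `r` only. -/
theorem result (r : ℕ) (hr : 1 ≤ r) : ∃ k : ℕ, ∀ (d n : ℕ) (R : Type) [CommRing R]
    [Algebra.FiniteType ℤ R] (ι : R →+* ℂ) (S : Sys R r) (t : Fin n → ℂ) (M : Finset (Fin n)),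
    S.P.Monic → S.P.natDegree = d → r + 2 ≤ d → (S.map ι).D ≠ 0 → AlgebraicIndependent ℚ t →
    2 * d + k ≤ M.card → (∀ i ∈ M, (S.map ι).Bra d (t i)) →
    (∀ i, i ∉ M → (S.map ι).Unr (xt (t i) 1) (d - 1)) →
    (∀ c, c ∉ Set.range t → (S.map ι).Unr (xt c 1) d) → (S.map ι).Unr sL⁻¹ d →
    Irreducible (S.map ι).P →
    (∀ m : Ideal R, m.IsMaximal → (S.map (Ideal.Quotient.mk m)).Fund) → (S.map ι).Alg :=
  final8 r hr

end Pool.Agent.Lib.MP_aa40d3_nt.GenericCurveSystemsVariant
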