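import Pool.Agent.Lib.MP_aa40d3_nt.GC.Core

open Polynomial Pool.Agent.GR Pool.Agent.GR.GC

namespace Pool.Agent.Lib.MP_aa40d3_nt.GenericCurveVariant

/-- The Grothendieck-Katz conjecture for direct images of systems of rank `r` along coverings of
degree `d` of the line with generic branch points and punctures, when the genus of the covering is
large with respect to `r` only. -/
theorem result (r : ℕ) (hr : 1 ≤ r) : ∃ k : ℕ, ∀ (d n : ℕ) (R : Type) [CommRing R]
    [Algebra.FiniteType ℤ R] (ι : R →+* ℂ), Function.Injective ι → ∀ (t : Fin n → R)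
    (A : Fin n → Matrix (Fin (r * d)) (Fin (r * d)) R), r + 2 ≤ d →
    (∃ a b : ℂ, a ≠ 0 ∧ AlgebraicIndependent ℚ fun i => a * ι (t i) + b) →
    Irred (fun i => ι (t i)) (fun i => (A i).map ι) →
    Cover d (2 * d + k) (fun i => ι (t i)) (fun i => (A i).map ι) →
    (∀ i, Small r ((A i).map ι)) → Small r (∑ i, (A i).map ι) →
    (∀ m : Ideal R, m.IsMaximal →
      HasFund (fun i => Ideal.Quotient.mk m (t i)) fun i => (A i).map (Ideal.Quotient.mk m)) →
    ∀ φ : R →+* ℂ, AlgSol (fun i => φ (t i)) fun i => (A i).map φ :=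
  final6 r hr

end Pool.Agent.Lib.MP_aa40d3_nt.GenericCurveVariant
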