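import Pool.Agent.Lib.MP_aa40d3_nt.SP.Final

open Polynomial Pool.Agent.GR.CV Pool.Agent.GR.GE
open Pool.Agent.Lib.MP_a01f70_lc.QQ (Place)
open scoped IntermediateField

namespace Pool.Agent.Lib.MP_aa40d3_nt.GenericCurvesVariant

/-- The Grothendieck-Katz conjecture for all systems of rank `r` on the generic curve of genus `g`,
and on the generic curve with a function of degree `d ≥ r + 2`, with `n` generic punctures, when
`g` is large with respect to `r` only. The conclusion holds for the generic member (`ψ = ι`) and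
for every specialisation `ψ` of it. -/
theorem result (r : ℕ) (hr : 1 ≤ r) : ∃ g₀ : ℕ, ∀ (R : Type) [CommRing R] [Algebra.FiniteType ℤ R]
    (ι ψ : R →+* ℂ) (S : Sys R r) (F : Type) [Field F] [Algebra ℂ F] (x y z : F)
    (Sg : Finset (Place ℂ F)), RingHom.ker ι ≤ RingHom.ker ψ → S.P.Monic →
    Irreducible (S.map ι).P → Irreducible (S.map ψ).P → (S.map ψ).D ≠ 0 →
    Transcendental ℂ x → ℂ⟮x, y⟯ = ⊤ → aevalAeval x y (S.map ι).P = 0 → g₀ ≤ genus F →
    r + 2 ≤ Module.finrank ℂ⟮z⟯ F →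
    Moduli Sg (min (3 * genus F - 3) (2 * genus F + 2 * Module.finrank ℂ⟮z⟯ F - 5) + Sg.card) →
    (∀ p ∉ Sg, ∀ φ, At φ p → (S.map ι).Loc (φ x) (φ y)) →
    (∀ m : Ideal R, m.IsMaximal → (S.map (Ideal.Quotient.mk m)).Fund) → (S.map ψ).Alg :=
  final10 r hr

end Pool.Agent.Lib.MP_aa40d3_nt.GenericCurvesVariant
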