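import Pool.Agent.Lib.MP_aa40d3_nt.Generic
import Pool.Agent.Lib.MP_aa40d3_nt.Bridge

open Polynomial Pool.Agent.Lib.MP_aa40d3_nt

namespace Pool.Agent.Lib.MP_aa40d3_nt.GenericExponentsVariant

theorem result (n s : ℕ) (hn : 2 ≤ n) (hs : 1 ≤ s) : ∃ H : ℕ,
    ∀ (m : ℕ) (b : Fin (n + 1) → ℤ[X]), b (Fin.last n) ≠ 0 →
    ∀ (a : Fin m → AlgebraicClosure ℚ) (ρ : Option (Fin m) → Fin n → ℚ), RiemannScheme b a ρ →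
    ∀ S : Finset (Option (Fin m)), S.card = s → (∀ x ∉ S, ∀ j, ∃ z : ℤ, ρ x j = z) →
    (∀ (c : Option (Fin m) → Fin n → ℤ) (t : ℤ), (∀ x j, |c x j| ≤ H) →
      (∀ x ∈ S, ∑ j, c x j = t) → (∃ z : ℤ, ∑ x ∈ S, ∑ j, (c x j : ℚ) * ρ x j = z) →
      ∀ x ∈ S, ∀ y ∈ S, ∀ j k, c x j = c y k) →
    ¬ FullBasis (AlgebraicClosure (RatFunc ℚ))
      (algebraMap (RatFunc ℚ) (AlgebraicClosure (RatFunc ℚ)) RatFunc.X) b ∧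
    ¬ ∃ N : ℕ, ∀ p : ℕ, N < p → ∀ _ : Fact (Nat.Prime p),
      FullBasis (RatFunc (ZMod p)) RatFunc.X b := by
  obtain ⟨r, rfl⟩ : ∃ r, n = r + 2 := ⟨n - 2, by omega⟩
  obtain ⟨t, rfl⟩ : ∃ t, s = t + 1 := ⟨s - 1, by omega⟩
  obtain ⟨H, hH⟩ := generic r t
  exact ⟨H, fun m b hb a ρ h S h1 h2 h3 =>
    ⟨fun h4 => hH m b hb a ρ h S h1 h2 h3 (easy b hb h4), hH m b hb a ρ h S h1 h2 h3⟩⟩

end Pool.Agent.Lib.MP_aa40d3_nt.GenericExponentsVariant
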