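import Pool.Agent.Lib.MP_aa40d3_nt.GR2.Final

open Polynomial Pool.Agent.GR

namespace Pool.Agent.Lib.MP_aa40d3_nt.GenericReflectionTwoVariant

/-- The Grothendieck-Katz conjecture for families of Fuchsian systems of any rank whose generic
member is irreducible and has generic singular points, with arbitrary residues at one finite
point and at infinity, and with `r - 1` exponents congruent modulo the integers at each other
finite point. -/
theorem result (n r : ℕ) (hr : 2 ≤ r) (R : Type) [CommRing R] [Algebra.FiniteType ℤ R]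
    (ι : R →+* ℂ) (hι : Function.Injective ι) (t : Fin n → R)
    (A : Fin n → Matrix (Fin r) (Fin r) R) (o : Fin n)
    (ht : ∃ a b : ℂ, a ≠ 0 ∧ AlgebraicIndependent ℚ fun i => a * ι (t i) + b)
    (hexp : ∀ i, i ≠ o → ∃ (lam mu : ℂ) (m : Fin (r - 1) → ℤ),
      ((A i).map ι).charpoly = (X - C mu) * ∏ j, (X - C (lam + m j)))
    (hirr : Irred (fun i => ι (t i)) fun i => (A i).map ι)
    (hp : ∀ m : Ideal R, m.IsMaximal →
      HasFund (fun i => Ideal.Quotient.mk m (t i)) fun i => (A i).map (Ideal.Quotient.mk m))
    (φ : R →+* ℂ) : AlgSol (fun i => φ (t i)) fun i => (A i).map φ :=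
  final2 n r hr R ι hι t A o ht hexp hirr hp φ

end Pool.Agent.Lib.MP_aa40d3_nt.GenericReflectionTwoVariant
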