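import Pool.Agent.Lib.MP_aa40d3_nt.GR.Core
import Pool.Agent.Lib.MP_aa40d3_nt.GR.TopA
import Pool.Agent.Lib.MP_aa40d3_nt.GR.TopB
import Pool.Agent.Lib.MP_aa40d3_nt.GR.TopC
import Pool.Agent.Lib.MP_aa40d3_nt.GR.PcMax
import Pool.Agent.Lib.MP_aa40d3_nt.GR.Spec

open Pool.Agent.GR

namespace Pool.Agent.Lib.MP_aa40d3_nt.GenericReflectionVariant

/-- The Grothendieck-Katz conjecture for families of Fuchsian systems of any rank whose generic
member is irreducible, has generic singular points and residues of the form scalar plus rank one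
at the finite singular points. -/
theorem variant (n r : ℕ) (hr : 2 ≤ r) (R : Type) [CommRing R] [Algebra.FiniteType ℤ R]
    (ι : R →+* ℂ) (hι : Function.Injective ι) (t : Fin n → R)
    (A : Fin n → Matrix (Fin r) (Fin r) R) (lam : Fin n → ℂ)
    (ht : ∃ a b : ℂ, a ≠ 0 ∧ AlgebraicIndependent ℚ fun i => a * ι (t i) + b)
    (hrk : ∀ i, ((A i).map ι - lam i • (1 : Matrix (Fin r) (Fin r) ℂ)).rank ≤ 1)
    (htr : ∀ (i : Fin n) (m : ℤ),
      ((A i).map ι - lam i • (1 : Matrix (Fin r) (Fin r) ℂ)).trace ≠ m)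
    (hirr : Irred (fun i => ι (t i)) fun i => (A i).map ι)
    (hp : ∀ m : Ideal R, m.IsMaximal →
      HasFund (fun i => Ideal.Quotient.mk m (t i)) fun i => (A i).map (Ideal.Quotient.mk m))
    (φ : R →+* ℂ) : AlgSol (fun i => φ (t i)) fun i => (A i).map φ := by
  have : NeZero r := ⟨by omega⟩
  obtain ⟨a, b, ha, hab⟩ := ht
  obtain ⟨t', c, d, hc, htt, hind, hre⟩ := exists_rotation ha hab
  have hinj : Function.Injective fun i => ι (t i) := fun i j h =>
    hab.injective (by simp only at h ⊢; rw [h])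
  have hpc := pc_of_max ι hι hp
  have hrk' := fun i => rk1_of_rank (hrk i)
  obtain ⟨D, a', b', hD, hb', ha'⟩ := exps_rat hr hinj hrk' hpc
  exact AlgSol.spec ι φ hι t A (AlgSol.twist hD hb' (AlgSol.aff hc htt (core hind hre hrk' hD ha'
    htr ((hirr.twist lam).aff hc htt) ((hpc.twist hD hb').aff hc htt))))

end Pool.Agent.Lib.MP_aa40d3_nt.GenericReflectionVariant
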