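import Mathlib

open Polynomial Filter

namespace Pool.Agent.Lib.MP_aa40d3_nt

abbrev Qb := AlgebraicClosure ℚ

lemma exists_val (p : ℕ) : ∃ V : ValuationSubring Qb, p.Prime → (p : Qb) ∈ V.nonunits := by
  by_cases hp : p.Prime
  · have hI : Ideal.span {(p : (⊥ : Subring Qb))} ≠ ⊤ := by
      rw [Ne, Ideal.span_singleton_eq_top, isUnit_iff_exists_inv]
      rintro ⟨⟨x, hx⟩, h⟩
      obtain ⟨z, rfl⟩ := Subring.mem_bot.mp hx
      have h1 : (p : Qb) * z = 1 := by simpa using congrArg Subtype.val h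
      have h2 : (p : ℤ) * z = 1 := by exact_mod_cast h1
      have := Int.eq_one_of_mul_eq_one_right (by positivity) h2
      exact hp.one_lt.ne' (by exact_mod_cast this)
    obtain ⟨V, -, hV⟩ := Ideal.image_subset_nonunits_valuationSubring _ hI
    exact ⟨V, fun _ => hV ⟨_, Ideal.subset_span rfl, by simp⟩⟩
  · exact ⟨⊤, fun h => (hp h).elim⟩

noncomputable def V (p : ℕ) : ValuationSubring Qb := (exists_val p).choose

abbrev kk (p : ℕ) : Type := AlgebraicClosure (IsLocalRing.ResidueField (V p))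

noncomputable def red (p : ℕ) : V p →+* kk p :=
  (algebraMap _ (kk p)).comp (IsLocalRing.residue (V p))

lemma p_mem (p : ℕ) (hp : p.Prime) : (p : V p) ∈ IsLocalRing.maximalIdeal (V p) := by
  rw [← ValuationSubring.coe_mem_nonunits_iff]
  have : (p : Qb) ∈ (V p).nonunits := (exists_val p).choose_spec hp
  simpa using this

lemma charP_kk (p : ℕ) (hp : p.Prime) : CharP (kk p) p := by
  rw [CharP.charP_iff_prime_eq_zero hp, ← map_natCast (red p), red, RingHom.comp_apply,
    (IsLocalRing.residue_eq_zero_iff _).mpr (p_mem p hp), map_zero]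

lemma ev_mem (α : Qb) : ∀ᶠ p in atTop, p.Prime → ∃ x : V p, (V p).subtype x = α := by
  have halg : IsAlgebraic ℤ α :=
    (IsFractionRing.isAlgebraic_iff ℤ ℚ Qb).mpr ((AlgebraicClosure.isAlgebraic ℚ).isAlgebraic α)
  obtain ⟨n, hn0, hn⟩ := halg.exists_integral_multiple
  filter_upwards [eventually_gt_atTop n.natAbs] with p hpn hp
  obtain ⟨y, hy⟩ : ∃ y : V p, algebraMap _ Qb y = n • α :=
    IsIntegrallyClosed.isIntegral_iff.mp hn.tower_top
  have hcop : IsCoprime n (p : ℤ) := by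
    rw [Int.isCoprime_iff_gcd_eq_one, Int.gcd_comm]
    exact (Nat.coprime_of_lt_prime (by omega) hpn hp)
  obtain ⟨s, t, hst⟩ := hcop
  have hu : IsUnit ((n : V p)) := by
    by_contra hnu
    have h1 : (n : V p) ∈ IsLocalRing.maximalIdeal (V p) := hnu
    have h2 := Ideal.add_mem _ (Ideal.mul_mem_left _ (s : V p) h1)
      (Ideal.mul_mem_left _ (t : V p) (p_mem p hp))
    have h3 : (s : V p) * n + t * p = 1 := by exact_mod_cast congrArg (Int.cast (R := V p)) hst
    rw [h3] at h2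
    exact (IsLocalRing.maximalIdeal.isMaximal _).ne_top ((Ideal.eq_top_iff_one _).mpr h2)
  obtain ⟨w, hw⟩ := hu.exists_left_inv
  refine ⟨w * y, ?_⟩
  have h4 : (V p).subtype w * n = 1 := by simpa using congrArg (V p).subtype hw
  have h5 : (V p).subtype y = n * α := by simpa using hy
  rw [map_mul, h5, ← mul_assoc, h4, one_mul]

lemma ev_poly (f : Qb[X]) :
    ∀ᶠ p in atTop, p.Prime → ∃ g : (V p)[X], g.map (V p).subtype = f := by
  have := (eventually_all_finset f.support).mpr fun n _ => ev_mem (f.coeff n)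
  filter_upwards [this] with p h hp
  rw [← mem_lifts, lifts_iff_coeff_lifts]
  intro n
  by_cases hn : n ∈ f.support
  · exact h n hn hp
  · exact ⟨0, by simp [notMem_support_iff.mp hn]⟩

lemma certificate {F : Type*} [Field F] (T : F[X] →ₗ[F] F[X]) (n : ℕ) :
    (∃ q : F[X], q ≠ 0 ∧ q.natDegree = n ∧ T q = 0) ∨
    ∃ (N : ℕ) (lam : ℕ → F), ∀ i ≤ n,
      ∑ t ∈ Finset.range N, lam t * (T (X ^ i)).coeff t = if i = n then 1 else 0 := by
  by_cases h : T (X ^ n) ∈ Submodule.span F (Set.range fun i : Fin n => T (X ^ (i : ℕ)))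
  · left
    obtain ⟨c, hc⟩ := (Submodule.mem_span_range_iff_exists_fun F).mp h
    have hdeg : (∑ i : Fin n, c i • (X : F[X]) ^ (i : ℕ)).degree < (X ^ n : F[X]).degree := by
      rw [degree_X_pow]
      refine (degree_sum_le _ _).trans_lt ((Finset.sup_lt_iff (WithBot.bot_lt_coe n)).mpr ?_)
      intro i _
      refine (degree_smul_le _ _).trans_lt ?_
      rw [degree_X_pow]
      exact WithBot.coe_lt_coe.mpr i.2
    have h2 := degree_sub_eq_left_of_degree_lt hdeg
    rw [degree_X_pow] at h2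
    refine ⟨X ^ n - ∑ i : Fin n, c i • X ^ (i : ℕ), ?_, natDegree_eq_of_degree_eq_some h2, ?_⟩
    · intro h0; rw [h0] at h2; simp at h2
    · simp only [map_sub, map_sum, map_smul, hc, sub_self]
  · right
    obtain ⟨f, hf, hf0⟩ := Submodule.exists_dual_map_eq_bot_of_notMem h inferInstance
    refine ⟨(∑ i ∈ Finset.range (n + 1), (T (X ^ i)).natDegree) + 1,
      fun t => (f (T (X ^ n)))⁻¹ * f (X ^ t), fun i hi => ?_⟩
    have h1 : (T (X ^ i)).natDegree < (∑ i ∈ Finset.range (n + 1), (T (X ^ i)).natDegree) + 1 :=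
      Nat.lt_succ_of_le (Finset.single_le_sum (f := fun i => (T (X ^ i)).natDegree)
        (fun _ _ => Nat.zero_le _) (Finset.mem_range.mpr (Nat.lt_succ_of_le hi)))
    have h2 := congrArg f (as_sum_range_C_mul_X_pow' _ h1)
    simp only [map_sum, ← smul_eq_C_mul, map_smul, smul_eq_mul] at h2
    simp only [mul_assoc, ← Finset.mul_sum, mul_comm (f _), ← h2]
    split_ifs with h3
    · rw [h3, inv_mul_cancel₀ hf]
    · have : f (T (X ^ i)) ∈ (⊥ : Submodule F F) := by
        rw [← hf0]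
        exact Submodule.mem_map_of_mem
          (Submodule.subset_span ⟨⟨i, lt_of_le_of_ne hi h3⟩, rfl⟩)
      rw [(Submodule.mem_bot F).mp this, mul_zero]

lemma fract_facts (d : ℕ) (hd : 0 < d) (l : ℤ) (p : ℕ) (hp : (d : ℤ) ∣ l * p + 1) (u : ℚ)
    (hu : ∃ z : ℤ, (d : ℚ) * u = z) :
    ∃ N w : ℤ, (N : ℚ) = u + p * Int.fract (l * u) ∧ (d : ℚ) * Int.fract (l * u) = w ∧
      0 ≤ w ∧ w < d := by
  obtain ⟨z, hz⟩ := hu
  obtain ⟨t, ht⟩ := hp
  have ht' : (l : ℚ) * p + 1 = d * t := by exact_mod_cast ht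
  have hw : (d : ℚ) * Int.fract (l * u) = (l * z - d * ⌊l * u⌋ : ℤ) := by
    rw [Int.fract]; push_cast; linear_combination (l : ℚ) * hz
  have hd' : (0 : ℚ) < d := by exact_mod_cast hd
  refine ⟨z * t - p * ⌊l * u⌋, _, ?_, hw, ?_, ?_⟩
  · rw [Int.fract]; push_cast; linear_combination -(u * ht') - (t : ℚ) * hz
  · have := mul_nonneg hd'.le (Int.fract_nonneg (l * u))
    rw [hw] at this; exact_mod_cast this
  · have := mul_lt_mul_of_pos_left (Int.fract_lt_one (l * u)) hd'
    rw [hw, mul_one] at this; exact_mod_cast this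

lemma red_rat {A k : Type*} [CommRing A] [Field k] (ι : A →+* Qb) (hι : Function.Injective ι)
    (φ : A →+* k) (p : ℕ) [CharP k p] (d : ℕ) (hd : (d : k) ≠ 0) (x : A) (u f : ℚ)
    (hx : ι x = u) (N w : ℤ) (hN : (N : ℚ) = u + p * f) (hw : (d : ℚ) * f = w) : φ x = N := by
  have h1 : (d : ℚ) * N = d * u + p * w := by rw [hN, ← hw]; ring
  have h2 : (d : A) * N = d * x + p * w := by
    apply hι
    simp only [map_mul, map_add, map_natCast, map_intCast, hx]
    exact_mod_cast congrArg (Rat.cast (K := Qb)) h1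
  have h3 := congrArg φ h2
  simp only [map_mul, map_add, map_natCast, map_intCast, CharP.cast_eq_zero, zero_mul,
    add_zero] at h3
  exact (mul_left_cancel₀ hd h3).symm

lemma red_ne_zero {A k : Type*} [CommRing A] [Field k] (ι : A →+* Qb) (hι : Function.Injective ι)
    (φ : A →+* k) (x y : A) (hx : ι x ≠ 0) (hy : ι y = (ι x)⁻¹) : φ x ≠ 0 := by
  have : x * y = 1 := hι (by rw [map_mul, hy, mul_inv_cancel₀ hx, map_one])
  exact left_ne_zero_of_mul_eq_one (by rw [← map_mul, this, map_one] : φ x * φ y = 1)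

end Pool.Agent.Lib.MP_aa40d3_nt
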