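import Pool.Agent.Lib.MP_aa40d3_nt.Twist
import Pool.Agent.Lib.MP_aa40d3_nt.Red

open Polynomial Filter

namespace Pool.Agent.Lib.MP_aa40d3_nt

lemma map_int {A B : Type*} [CommRing A] [CommRing B] (φ : A →+* B) (b : ℤ[X]) :
    (b.map (Int.castRingHom A)).map φ = b.map (Int.castRingHom B) := by
  rw [Polynomial.map_map, RingHom.ext_int (φ.comp (Int.castRingHom A)) (Int.castRingHom B)]

lemma exists_nat_rep (k : Type*) [Field k] (p : ℕ) [Fact p.Prime] [CharP k p] (N : ℤ) :
    ∃ n : ℕ, n ≤ p ∧ (n : k) = N := by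
  have hp : (0 : ℤ) < p := by exact_mod_cast (Fact.out : p.Prime).pos
  have h1 := Int.emod_nonneg N hp.ne'
  have h2 := Int.emod_lt_of_pos N hp
  refine ⟨(N % p).toNat, by omega, ?_⟩
  rw [← Int.cast_natCast, Int.toNat_of_nonneg h1, CharP.intCast_eq_intCast k p]
  exact Int.mod_modEq N p

section
variable {r m : ℕ} (b : Fin (r + 1) → ℤ[X]) (a : Fin m → Qb)
  {A k : Type*} [CommRing A] [Field k] (ι : A →+* Qb) (hι : Function.Injective ι) (φ : A →+* k)
include hι

lemma red_local (aA : A) (ρA : Fin r → A) (μ : ℕ) (G : Fin (r + 1) → A[X])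
    (hg1 : ∀ i : Fin (r + 1), (X - C (ι aA)) ^ r * (b i).map (Int.castRingHom _) =
      (X - C (ι aA)) ^ (μ + i) * (G i).map ι)
    (hg2 : ((G (Fin.last r)).map ι).eval (ι aA) ≠ 0)
    (hg3 : ∀ s : Qb, ∑ i : Fin (r + 1), ((G i).map ι).eval (ι aA) *
      ∏ t ∈ Finset.range i, (s - t) =
      ((G (Fin.last r)).map ι).eval (ι aA) * ∏ j, (s - ι (ρA j)))
    (hinv : ∃ y, ι y = (((G (Fin.last r)).map ι).eval (ι aA))⁻¹) (y : k[X]) (hy : y ≠ 0)
    (hsol : ∑ i : Fin (r + 1), (b i).map (Int.castRingHom k) * derivative^[(i : ℕ)] y = 0) :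
    ∃ j, (rootMultiplicity (φ aA) y : k) = φ (ρA j) := by
  have h1 : ∀ i : Fin (r + 1), (X - C aA) ^ r * (b i).map (Int.castRingHom _) =
      (X - C aA) ^ (μ + i) * G i := fun i => by
    apply map_injective ι hι
    simpa only [Polynomial.map_mul, Polynomial.map_pow, Polynomial.map_sub, map_X, map_C, map_int]
      using hg1 i
  have h2 := sol_ord (fun i => (b i).map (Int.castRingHom k)) (φ aA) μ (fun i => (G i).map φ)
    (fun i => by
      simpa only [Polynomial.map_mul, Polynomial.map_pow, Polynomial.map_sub, map_X, map_C,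
        map_int] using congrArg (Polynomial.map φ) (h1 i)) y hy hsol
  generalize rootMultiplicity (φ aA) y = n at h2
  have h3 : ∑ i : Fin (r + 1), (G i).eval aA * ff (n : A) i =
      (G (Fin.last r)).eval aA * ∏ j, ((n : A) - ρA j) := by
    apply hι
    simpa only [eval_map_apply, map_sum, map_mul, map_prod, map_sub, map_natCast, ff]
      using hg3 (n : Qb)
  have h4 := congrArg φ h3
  simp only [map_sum, map_mul, map_ff, map_prod, map_sub, map_natCast] at h4
  simp only [eval_map_apply] at h2 hg2 hinv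
  rw [h2] at h4
  obtain ⟨w, hw⟩ := hinv
  have h5 := (mul_eq_zero.mp h4.symm).resolve_left (red_ne_zero ι hι φ _ w hg2 hw)
  obtain ⟨j, -, hj⟩ := Finset.prod_eq_zero_iff.mp h5
  exact ⟨j, sub_eq_zero.mp hj⟩

lemma red_infty (hb : b (Fin.last r) ≠ 0) (σ : Fin r → ℚ) (σA : Fin r → A)
    (hσ : ∀ j, ι (σA j) = σ j) (h : ExponentsAtInfinity b σ)
    (hinv : ∃ y, ι y = (((b (Fin.last r)).leadingCoeff : ℤ) : Qb)⁻¹) (y : k[X]) (hy : y ≠ 0)
    (hsol : ∑ i : Fin (r + 1), (b i).map (Int.castRingHom k) * derivative^[(i : ℕ)] y = 0) :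
    ∃ j, (y.natDegree : k) = -φ (σA j) := by
  have h0 : ∀ i, X ^ r * (b i).map (Int.castRingHom k) = (X ^ r * b i).map (Int.castRingHom k) :=
    fun i => by simp
  have h2 := sol_deg (fun i => (b i).map (Int.castRingHom k)) (b (Fin.last r)).natDegree
    (fun i => by rw [h0]; exact natDegree_map_le.trans (h.1 i)) y hy hsol
  generalize y.natDegree = n at h2
  have h3 : ∑ i : Fin (r + 1), (((X ^ r * b i).coeff ((b (Fin.last r)).natDegree + i) : ℤ) : A) *
      ff (n : A) i = ((b (Fin.last r)).leadingCoeff : ℤ) * ∏ j, ((n : A) + σA j) := by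
    apply hι
    have := congrArg (Rat.cast (K := Qb)) (h.2 n)
    push_cast at this
    simpa only [map_sum, map_mul, map_prod, map_sub, map_add, map_natCast, map_intCast, ff, hσ]
      using this
  have h4 := congrArg φ h3
  simp only [map_sum, map_mul, map_ff, map_prod, map_add, map_natCast, map_intCast] at h4
  simp only [h0, coeff_map, eq_intCast] at h2
  rw [h2] at h4
  obtain ⟨w, hw⟩ := hinv
  have h6 := red_ne_zero ι hι φ ((b (Fin.last r)).leadingCoeff : ℤ) w (by simpa using hb)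
    (by simpa using hw)
  rw [map_intCast] at h6
  have h5 := (mul_eq_zero.mp h4.symm).resolve_left h6
  obtain ⟨j, -, hj⟩ := Finset.prod_eq_zero_iff.mp h5
  exact ⟨j, eq_neg_of_add_eq_zero_left hj⟩

lemma red_cert (aA κA : Fin m → A) (n N : ℕ) (lam : ℕ → Qb)
    (hlam : ∀ t ∈ Finset.range N, ∃ y, ι y = lam t)
    (hc : ∀ i ≤ n, ∑ t ∈ Finset.range N, lam t * (Top (fun i => (b i).map (Int.castRingHom Qb))
      (fun x => ι (aA x)) (fun x => ι (κA x)) (X ^ i)).coeff t = if i = n then 1 else 0)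
    (y : k[X]) (hy : y ≠ 0) (hn : y.natDegree = n) :
    Top (fun i => (b i).map (Int.castRingHom k)) (fun x => φ (aA x)) (fun x => φ (κA x)) y ≠ 0 := by
  choose! lA hlA using hlam
  intro h0
  have h1 : ∀ i ≤ n, ∑ t ∈ Finset.range N, φ (lA t) *
      (TopL (fun i => (b i).map (Int.castRingHom k))
      (fun x => φ (aA x)) (fun x => φ (κA x)) (X ^ i)).coeff t = if i = n then 1 else 0 := by
    intro i hi
    have h2 : ∑ t ∈ Finset.range N, lA t * (Top (fun i => (b i).map (Int.castRingHom A))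
        aA κA (X ^ i)).coeff t = if i = n then 1 else 0 := by
      apply hι
      rw [map_sum, apply_ite ι, map_one, map_zero, ← hc i hi]
      refine Finset.sum_congr rfl fun t ht => ?_
      rw [map_mul, hlA t ht, ← coeff_map, Top_map]
      simp only [map_int, Polynomial.map_pow, map_X]
    have h3 := congrArg φ h2
    rw [map_sum, apply_ite φ, map_one, map_zero] at h3
    rw [← h3]
    refine Finset.sum_congr rfl fun t _ => ?_
    rw [map_mul, ← coeff_map, Top_map]
    simp only [map_int, Polynomial.map_pow, map_X]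
    rfl
  have h4 : TopL (fun i => (b i).map (Int.castRingHom k))
      (fun x => φ (aA x)) (fun x => φ (κA x)) y = 0 := h0
  generalize TopL (fun i => (b i).map (Int.castRingHom k))
      (fun x => φ (aA x)) (fun x => φ (κA x)) = T at h1 h4
  have h5 : ∑ t ∈ Finset.range N, φ (lA t) * (T y).coeff t =
      ∑ i ∈ Finset.range (n + 1), y.coeff i * if i = n then 1 else 0 := by
    conv_lhs => rw [as_sum_range_C_mul_X_pow y, hn]
    simp only [← smul_eq_C_mul, map_sum, map_smul, finsetSum_coeff, coeff_smul, smul_eq_mul,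
      Finset.mul_sum]
    rw [Finset.sum_comm]
    refine Finset.sum_congr rfl fun i hi => ?_
    rw [← h1 i (Nat.lt_succ_iff.mp (Finset.mem_range.mp hi)), Finset.mul_sum]
    exact Finset.sum_congr rfl fun t _ => by ring
  rw [h4] at h5
  simp only [coeff_zero, mul_zero, Finset.sum_const_zero, mul_ite, mul_one,
    Finset.sum_ite_eq', Finset.mem_range, Nat.lt_succ_self, if_true] at h5
  rw [← hn] at h5
  exact leadingCoeff_ne_zero.mpr hy h5.symm

end

lemma exists_cofactor {m : ℕ} (a : Fin m → Qb) (f : Qb[X]) (hf : f ≠ 0)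
    (h : ∀ z, f.eval z = 0 → ∃ x, a x = z) : ∃ (g : Qb[X]) (N : ℕ), f * g = Rp a ^ N := by
  have h1 : (f.roots.map (X - C ·)).prod ∣ (f.roots.map fun _ => Rp a).prod := by
    refine Multiset.prod_dvd_prod_of_dvd _ _ fun z hz => ?_
    obtain ⟨x, rfl⟩ := h z ((mem_roots hf).mp hz)
    exact Finset.dvd_prod_of_mem (fun x => X - C (a x)) (Finset.mem_univ x)
  rw [Multiset.map_const', Multiset.prod_replicate] at h1
  obtain ⟨g, hg⟩ := h1
  refine ⟨C f.leadingCoeff⁻¹ * g, f.roots.card, ?_⟩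
  rw [hg]
  conv_lhs => rw [(IsAlgClosed.splits f).eq_prod_roots]
  rw [leadingCoeff_mul, leadingCoeff_C, (monic_multiset_prod_of_monic _ _
    (fun _ _ => monic_X_sub_C _)).leadingCoeff, mul_one, mul_mul_mul_comm, ← C_mul,
    mul_inv_cancel₀ (leadingCoeff_ne_zero.mpr hf), C_1, one_mul]

lemma arith {r m : ℕ} (p d : ℕ) (hd : 0 < d) (c : ℕ) (η f : Fin m → Fin r → ℚ) (δ g : Fin r → ℚ)
    (e : Fin m → Fin r → ℕ) (N : Fin r → ℤ) (n : Fin r → ℕ)
    (he : ∀ x j, (e x j : ℚ) = η x j + p * f x j) (hN : ∀ j, (N j : ℚ) = δ j + p * g j)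
    (hf : ∀ x j, ∃ w : ℤ, (d : ℚ) * f x j = w)
    (hg : ∀ j, ∃ w : ℤ, (d : ℚ) * g j = w ∧ 0 ≤ w)
    (hdiv : ∀ j, (p : ℤ) ∣ n j + N j)
    (hsum : ∑ j, n j + m * c = ∑ x, ∑ j, e x j + c)
    (hδ : ∀ j, (d : ℚ) * |δ j| < p)
    (hK : (d : ℚ) * |∑ x, ∑ j, η x j + ∑ j, δ j + c - m * c| < p) :
    ∑ x, ∑ j, η x j + ∑ j, δ j + c - m * c = 0 ∧ ∃ J : Finset (Fin r),
      (r : ℚ) - J.card ≤ ∑ x, ∑ j, f x j + ∑ j, g j ∧ ∀ j ∈ J, (n j : ℚ) = -δ j := by
  classical
  choose w hw using hdiv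
  choose wf hwf using hf
  choose wg hwg hwg0 using hg
  have hd' : (1 : ℚ) ≤ d := by exact_mod_cast hd
  have hp : (0 : ℚ) < p := lt_of_le_of_lt (by positivity) hK
  have hw' : ∀ j, (n j : ℚ) + N j = p * w j := fun j => by exact_mod_cast hw j
  have hg0 : ∀ j, 0 ≤ g j := fun j => by
    have : (0 : ℚ) ≤ d * g j := by rw [hwg]; exact_mod_cast hwg0 j
    exact nonneg_of_mul_nonneg_right (by rwa [mul_comm] at this) (by linarith) |> fun h => h
  have hsum' : ∑ j, (n j : ℚ) + m * c = ∑ x, ∑ j, (e x j : ℚ) + c := by exact_mod_cast hsum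
  set K := ∑ x, ∑ j, η x j + ∑ j, δ j + c - m * c with hKdef
  have hmain : (p : ℚ) * ∑ j, (w j : ℚ) = K + p * (∑ x, ∑ j, f x j + ∑ j, g j) := by
    simp only [he, Finset.sum_add_distrib, ← Finset.mul_sum] at hsum'
    have : (p : ℚ) * ∑ j, (w j : ℚ) = ∑ j, (n j : ℚ) + (∑ j, δ j + p * ∑ j, g j) := by
      simp only [Finset.mul_sum, ← hw', hN, Finset.sum_add_distrib]
    rw [this, hKdef]; linarith
  have hK0 : K = 0 := by
    have h1 : (d : ℚ) * K = p * ((d * ∑ j, w j - (∑ x, ∑ j, wf x j + ∑ j, wg j) : ℤ) : ℚ) := by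
      push_cast
      simp only [← hwf, ← hwg, ← Finset.mul_sum]
      linear_combination (-d : ℚ) * hmain
    generalize (d * ∑ j, w j - (∑ x, ∑ j, wf x j + ∑ j, wg j) : ℤ) = z at h1
    have h2 : (p : ℚ) * |(z : ℚ)| < p * 1 := by
      rw [← abs_of_pos hp, ← abs_mul, ← h1, abs_mul, abs_of_pos hp, Nat.abs_cast, mul_one]
      exact hK
    have h3 : |z| < 1 := by exact_mod_cast lt_of_mul_lt_mul_left h2 hp.le
    rw [Int.abs_lt_one_iff.mp h3] at h1
    simpa [hd.ne'] using h1
  have hw0 : ∀ j, 0 ≤ w j := fun j => by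
    have h1 : (p : ℚ) * (-1) < p * w j := by
      have := hδ j
      have h2 := neg_abs_le (δ j)
      have h3 := mul_nonneg hp.le (hg0 j)
      have h4 : (0 : ℚ) ≤ n j := by positivity
      nlinarith [hw' j, hN j, abs_nonneg (δ j)]
    have h2 : (-1 : ℤ) < w j := by exact_mod_cast lt_of_mul_lt_mul_left h1 hp.le
    omega
  refine ⟨hK0, Finset.univ.filter fun j => w j = 0, ?_, fun j hj => ?_⟩
  · rw [hK0, zero_add] at hmain
    rw [← mul_left_cancel₀ hp.ne' hmain, Finset.card_filter]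
    push_cast
    have : (r : ℚ) = ∑ _j : Fin r, (1 : ℚ) := by simp
    rw [this, ← Finset.sum_sub_distrib]
    refine Finset.sum_le_sum fun j _ => ?_
    split_ifs with h
    · simp [h]
    · have := hw0 j
      have h2 : 1 ≤ w j := by omega
      rw [sub_zero]; exact_mod_cast h2
  · have h1 := hw' j
    rw [(Finset.mem_filter.mp hj).2, hN, Int.cast_zero, mul_zero] at h1
    have h2 : (p : ℚ) * wg j < p * 1 := by
      have h4 : (0 : ℚ) ≤ n j := by positivity
      have h5 := neg_abs_le (δ j)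
      rw [← hwg]
      nlinarith [hδ j]
    have h3 : wg j < 1 := by exact_mod_cast lt_of_mul_lt_mul_left h2 hp.le
    have h4 : wg j = 0 := by have := hwg0 j; omega
    have h5 := hwg j
    rw [h4, Int.cast_zero, mul_eq_zero] at h5
    rw [h5.resolve_left (by positivity), mul_zero, add_zero] at h1
    linarith

end Pool.Agent.Lib.MP_aa40d3_nt
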