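import Pool.Agent.Lib.MP_aa40d3_nt.Main

open Polynomial Filter

namespace Pool.Agent.Lib.MP_aa40d3_nt

/-- a polynomial solution of the twisted operator of prescribed degree -/
def Sol0 {r m : ℕ} (b : Fin (r + 1) → ℤ[X]) (a : Fin m → Qb) (κ : Fin m → ℚ) (s : ℚ) : Prop :=
  ∃ q : Qb[X], q ≠ 0 ∧ (q.natDegree : ℚ) = s ∧
    Top (fun i => (b i).map (Int.castRingHom Qb)) a (fun x => (κ x : Qb)) q = 0

lemma ev_lt (t : ℚ) : ∀ᶠ p : ℕ in atTop, t < p :=
  (tendsto_natCast_atTop_atTop (R := ℚ)).eventually_gt_atTop t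

theorem main {r m : ℕ} (b : Fin (r + 1) → ℤ[X]) (hb : b (Fin.last r) ≠ 0) (a : Fin m → Qb)
    (ρ : Option (Fin m) → Fin r → ℚ) (h : RiemannScheme b a ρ) (d : ℕ) (hd : 0 < d)
    (hρ : ∀ x j, ∃ z : ℤ, (d : ℚ) * ρ x j = z) (κ : Fin m → ℚ)
    (hκd : ∀ x, ∃ z : ℤ, (d : ℚ) * κ x = z) (hκ : ∀ x j, κ x ≤ ρ (some x) j) (l : ℤ) :
    ∀ᶠ p in atTop, ∀ (_ : Fact (Nat.Prime p)), (d : ℤ) ∣ l * p + 1 →
      FullBasis (RatFunc (ZMod p)) RatFunc.X b →
      (∑ x, ∑ j, ρ (some x) j + ∑ j, ρ none j + (∑ i : Fin r, (i : ℕ) : ℕ)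
        - m * (∑ i : Fin r, (i : ℕ) : ℕ) = 0) ∧ Function.Injective (ρ none) ∧
      ∃ J : Finset (Fin r), (r : ℚ) - J.card ≤
        ∑ x, ∑ j, Int.fract (l * (ρ (some x) j - κ x)) +
          ∑ j, Int.fract (l * (ρ none j + ∑ x, κ x)) ∧
        ∀ j ∈ J, Sol0 b a κ (-(ρ none j + ∑ x, κ x)) := by
  obtain ⟨ha, hroot, hloc, hinf⟩ := h
  choose μ g hg1 hg2 hg3 using hloc
  have hb' : (b (Fin.last r)).map (Int.castRingHom Qb) ≠ 0 :=
    (Polynomial.map_ne_zero_iff (Int.cast_injective (α := Qb))).mpr hb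
  obtain ⟨hh, Nh, hcof⟩ := exists_cofactor a _ hb' hroot
  have hcert : ∀ j, ∀ᶠ p in atTop, Nat.Prime p → Sol0 b a κ (-(ρ none j + ∑ x, κ x)) ∨
      ∀ n : ℕ, (n : ℚ) = -(ρ none j + ∑ x, κ x) → ∃ (N : ℕ) (lam : ℕ → Qb),
        (∀ t ∈ Finset.range N, ∃ y, (V p).subtype y = lam t) ∧
        ∀ i ≤ n, ∑ t ∈ Finset.range N, lam t * (Top (fun i => (b i).map (Int.castRingHom Qb))
          a (fun x => (κ x : Qb)) (X ^ i)).coeff t = if i = n then 1 else 0 := by
    intro j
    by_cases hn : ∃ n : ℕ, (n : ℚ) = -(ρ none j + ∑ x, κ x)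
    · obtain ⟨n, hn⟩ := hn
      rcases certificate (TopL (fun i => (b i).map (Int.castRingHom Qb)) a
        (fun x => (κ x : Qb))) n with ⟨q, h1, h2, h3⟩ | ⟨N, lam, hl⟩
      · exact Eventually.of_forall fun p _ => Or.inl ⟨q, h1, by rw [h2, hn], h3⟩
      · filter_upwards [(eventually_all_finset (Finset.range N)).mpr fun t _ => ev_mem (lam t)]
          with p hp hpp
        refine Or.inr fun n' hn' => ?_
        obtain rfl : n' = n := by exact_mod_cast hn'.trans hn.symm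
        exact ⟨N, lam, fun t ht => hp t ht hpp, hl⟩
    · exact Eventually.of_forall fun p _ => Or.inr fun n h => (hn ⟨n, h⟩).elim
  filter_upwards [eventually_all.mpr fun x => ev_mem (a x),
    eventually_all.mpr fun x => eventually_all.mpr fun x' => ev_mem (a x - a x')⁻¹,
    eventually_all.mpr fun x => eventually_all.mpr fun j => ev_mem (ρ x j),
    eventually_all.mpr fun x => ev_mem (κ x),
    eventually_all.mpr fun x => eventually_all.mpr fun i => ev_poly (g x i),
    eventually_all.mpr fun x => ev_mem ((g x (Fin.last r)).eval (a x))⁻¹,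
    ev_poly hh, ev_mem (((b (Fin.last r)).leadingCoeff : ℤ) : Qb)⁻¹, ev_mem (d : Qb)⁻¹,
    eventually_all.mpr hcert, eventually_ge_atTop r,
    eventually_all.mpr fun x => eventually_all.mpr fun j => ev_lt (d * (ρ (some x) j - κ x)),
    eventually_all.mpr fun j => ev_lt (d * |ρ none j + ∑ x, κ x|),
    ev_lt (d * |∑ x, ∑ j, (ρ (some x) j - κ x) + ∑ j, (ρ none j + ∑ x, κ x) +
      (∑ i : Fin r, (i : ℕ) : ℕ) - m * (∑ i : Fin r, (i : ℕ) : ℕ)|)]
    with p e1 e2 e3 e4 e5 e6 e7 e8 e9 e10 e11 e12 e13 e14 hp hl hfull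
  obtain ⟨k, _, _, _, ⟨φ⟩⟩ : ∃ (k : Type) (_ : Field k) (_ : IsAlgClosed k) (_ : CharP k p),
    Nonempty (V p →+* k) := ⟨kk p, inferInstance, inferInstance, charP_kk p hp.out, ⟨red p⟩⟩
  have hι : Function.Injective (V p).subtype := Subtype.val_injective
  generalize (V p).subtype = ι at *
  choose aA haA using fun x => e1 x hp.out
  choose ρA hρA using fun x j => e3 x j hp.out
  choose κA hκA using fun x => e4 x hp.out
  choose G hG using fun x i => e5 x i hp.out
  obtain ⟨H, hH⟩ := e7 hp.out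
  obtain ⟨dinv, hdinv⟩ := e9 hp.out
  have hdk : (d : k) ≠ 0 := by
    simpa using red_ne_zero ι hι φ d dinv (by simpa using hd.ne') (by simpa using hdinv)
  have haa : a = fun x => ι (aA x) := funext fun x => (haA x).symm
  have hak : Function.Injective fun x => φ (aA x) := by
    intro x x' hxx
    by_contra hne
    obtain ⟨w, hw⟩ := e2 x x' hp.out
    refine red_ne_zero ι hι φ (aA x - aA x') w ?_ (by rw [hw, map_sub, haA, haA]) ?_
    · rw [map_sub, haA, haA, sub_ne_zero]; exact fun h => hne (ha h)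
    · rw [map_sub, sub_eq_zero]; exact hxx
  obtain ⟨y0, hy0, hind⟩ := poly_sols_k p k b hfull
  have hnn : ∀ x, ∃ n : ℕ, n ≤ p ∧ (n : k) = φ (κA x) := fun x => by
    obtain ⟨N, w, h1, h2, -, -⟩ := fract_facts d hd l p hl (κ x) (hκd x)
    rw [red_rat ι hι φ p d hdk (κA x) (κ x) _ (hκA x) N w h1 h2]
    exact exists_nat_rep k p N
  choose n hn hnk using hnn
  have hd' : (0 : ℚ) < d := by exact_mod_cast hd
  have hp' : (0 : ℚ) < p := by exact_mod_cast hp.out.pos
  have hee : ∀ x j, ∃ e : ℕ, e < p ∧ (e : k) = φ (ρA (some x) j) - n x ∧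
      (e : ℚ) = (ρ (some x) j - κ x) + p * Int.fract (l * (ρ (some x) j - κ x)) ∧
      ∃ w : ℤ, (d : ℚ) * Int.fract (l * (ρ (some x) j - κ x)) = w := fun x j => by
    obtain ⟨N, w, h1, h2, h3, h4⟩ := fract_facts d hd l p hl (ρ (some x) j - κ x) (by
      obtain ⟨z, hz⟩ := hρ (some x) j
      obtain ⟨z', hz'⟩ := hκd x
      exact ⟨z - z', by rw [mul_sub, hz, hz', Int.cast_sub]⟩)
    have h5 := red_rat ι hι φ p d hdk (ρA (some x) j - κA x) (ρ (some x) j - κ x) _
      (by rw [map_sub, hρA, hκA, Rat.cast_sub]) N w h1 h2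
    have h6 : (0 : ℚ) ≤ N := by
      rw [h1]
      exact add_nonneg (sub_nonneg.mpr (hκ x j)) (mul_nonneg hp'.le (Int.fract_nonneg _))
    have h7 : 0 ≤ N := by exact_mod_cast h6
    lift N to ℕ using h7
    refine ⟨N, ?_, ?_, by exact_mod_cast h1, w, h2⟩
    · have h8 : (w : ℚ) + 1 ≤ d := by exact_mod_cast h4
      have h9 : (d : ℚ) * N < d * p := by
        have h10 := e12 x j
        rw [Int.cast_natCast] at h1
        rw [h1, mul_add, mul_left_comm, h2]
        nlinarith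
      exact_mod_cast lt_of_mul_lt_mul_left h9 hd'.le
    · rw [hnk, ← map_sub, h5, Int.cast_natCast]
  choose e he1 he2 he3 he4 using hee
  have hNN : ∀ j, ∃ N : ℤ, (N : k) = φ (ρA none j) + ∑ x, (n x : k) ∧
      (N : ℚ) = (ρ none j + ∑ x, κ x) + p * Int.fract (l * (ρ none j + ∑ x, κ x)) ∧
      ∃ w : ℤ, (d : ℚ) * Int.fract (l * (ρ none j + ∑ x, κ x)) = w ∧ 0 ≤ w := fun j => by
    obtain ⟨N, w, h1, h2, h3, h4⟩ := fract_facts d hd l p hl (ρ none j + ∑ x, κ x) (by
      obtain ⟨z, hz⟩ := hρ none j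
      choose z' hz' using hκd
      exact ⟨z + ∑ x, z' x, by simp only [mul_add, Finset.mul_sum, hz, hz']; push_cast; rfl⟩)
    have h5 := red_rat ι hι φ p d hdk (ρA none j + ∑ x, κA x) (ρ none j + ∑ x, κ x) _
      (by simp only [map_add, map_sum, hρA, hκA]; push_cast; rfl) N w h1 h2
    exact ⟨N, by simp only [← h5, map_add, map_sum, hnk], h1, w, h2, h3⟩
  choose N hN1 hN2 hN3 using hNN
  obtain ⟨y, hy, hinj, hsum⟩ := charp_main p e11 (fun i => (b i).map (Int.castRingHom k))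
    (fun x => φ (aA x)) hak (fun x j => φ (ρA (some x) j)) (fun j => φ (ρA none j))
    (fun x => red_local b ι hι φ (aA x) (ρA (some x)) (μ x) (G x)
      (by simpa only [haA, hG] using hg1 x) (by simpa only [haA, hG] using hg2 x)
      (by simpa only [haA, hG, hρA] using hg3 x) (by simpa only [haA, hG] using e6 x hp.out))
    (fun a' ha' h0 => by
      have h1 : (b (Fin.last r)).map (Int.castRingHom _) * H = Rp aA ^ Nh := by
        apply map_injective ι hι
        simpa only [Polynomial.map_mul, map_int, hH, Polynomial.map_pow, Rp_map, ← haa]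
          using hcof
      have h2 := congrArg (fun f => eval a' (f.map φ)) h1
      simp only [Polynomial.map_mul, map_int, eval_mul, h0, zero_mul, Polynomial.map_pow, Rp_map,
        eval_pow] at h2
      have h3 := pow_eq_zero_iff'.mp h2.symm
      simp only [Rp, eval_prod, Finset.prod_eq_zero_iff, eval_sub, eval_X, eval_C,
        sub_eq_zero] at h3
      obtain ⟨⟨x, -, hx⟩, -⟩ := h3
      exact ha' x hx.symm)
    (red_infty b ι hι φ hb (ρ none) (ρA none) (hρA none) hinf (e8 hp.out))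
    y0 hy0 hind n hn e he1 he2
  obtain ⟨hK, J, hJ1, hJ2⟩ := arith p d hd (∑ i : Fin r, (i : ℕ))
    (fun x j => ρ (some x) j - κ x) (fun x j => Int.fract (l * (ρ (some x) j - κ x)))
    (fun j => ρ none j + ∑ x, κ x) (fun j => Int.fract (l * (ρ none j + ∑ x, κ x)))
    e N (fun j => (y j).natDegree) he3 hN2 he4 hN3
    (fun j => by
      rw [← CharP.intCast_eq_zero_iff k p, Int.cast_add, Int.cast_natCast, (hy j).2.2, hN1]
      ring) hsum e13 e14
  refine ⟨?_, fun i j hij => hinj ?_, J, hJ1, fun j hj => ?_⟩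
  · rw [← hK]
    simp only [Finset.sum_add_distrib, Finset.sum_sub_distrib, Finset.sum_const, Finset.card_univ,
      Fintype.card_fin, nsmul_eq_mul, ← Finset.mul_sum]
    ring
  · have : ρA none i = ρA none j := hι (by rw [hρA, hρA, hij])
    simp only [this]
  · refine (e10 j hp.out).resolve_right fun hc => ?_
    obtain ⟨N', lam, h1, h2⟩ := hc _ (hJ2 j hj)
    refine red_cert b ι hι φ aA κA _ N' lam h1 (by simpa only [haA, hκA] using h2) (y j)
      (hy j).2.1 rfl ?_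
    simpa only [hnk] using (hy j).1

end Pool.Agent.Lib.MP_aa40d3_nt
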