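import Pool.Agent.Lib.MP_aa40d3_nt.FB.Final

open Polynomial Pool.Agent.GR.CV Pool.Agent.GR.GE Pool.Agent.GR.FB
open Pool.Agent.Lib.MP_a01f70_lc.QQ (Place)
open scoped IntermediateField

namespace Pool.Agent.Lib.MP_aa40d3_nt.ManyFreeBranchVariant

/-- The Grothendieck-Katz conjecture for all systems of rank `r` on a curve with punctures `Σ` that
has a simply branched function `f` of degree `d ≥ r + 2`, with at most one branch point or puncture
in each fibre, as soon as `2 d + k(r)` of the branch values are algebraically independent over the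
field generated by the other branch values and the values at the punctures. The genus, the number
of punctures and the position of the other points are arbitrary. The conclusion holds for the
system itself (`ψ = ι`) and for every specialisation `ψ` of it. -/
theorem result (r : ℕ) (hr : 1 ≤ r) : ∃ k : ℕ, ∀ (R : Type) [CommRing R] [Algebra.FiniteType ℤ R]
    (ι ψ : R →+* ℂ) (S : Sys R r) (F : Type) [Field F] [Algebra ℂ F] (x y f : F)
    (Sg : Finset (Place ℂ F)) (d n : ℕ) (t : Fin n → ℂ) (M : Finset (Fin n)),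
    RingHom.ker ι ≤ RingHom.ker ψ → S.P.Monic →
    Irreducible (S.map ι).P → Irreducible (S.map ψ).P → (S.map ψ).D ≠ 0 →
    Transcendental ℂ x → ℂ⟮x, y⟯ = ⊤ → aevalAeval x y (S.map ι).P = 0 →
    Module.finrank ℂ⟮f⟯ F = d → r + 2 ≤ d → Function.Injective t → 2 * d + k ≤ M.card →
    (AlgebraicIndependent (IntermediateField.adjoin ℚ {c : ℂ | ∃ j, j ∉ M ∧ c = t j})
      fun i : M => t i) →
    Fib Sg f 0 (-1) d → (∀ c, c ∉ Set.range t → Fib Sg f c 1 d) →
    (∀ i, (Fib Sg f (t i) 2 1 ∧ Fib Sg f (t i) 1 (d - 2)) ∨ (i ∉ M ∧ Fib Sg f (t i) 1 (d - 1))) →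
    (∀ p ∉ Sg, ∀ φ, At φ p → (S.map ι).Loc (φ x) (φ y)) →
    (∀ m : Ideal R, m.IsMaximal → (S.map (Ideal.Quotient.mk m)).Fund) → (S.map ψ).Alg :=
  final12 r hr

/-- The case in which all points are free: all systems of rank `r` on the generic curve of genus
`g ≥ g₀(r)` with `n` generic punctures, and on the generic curve with a function of degree
`≥ r + 2`. The covering comes from `exists_cov`. -/
theorem generic_curves (r : ℕ) (hr : 1 ≤ r) : ∃ g₀ : ℕ, ∀ (R : Type) [CommRing R]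
    [Algebra.FiniteType ℤ R] (ι ψ : R →+* ℂ) (S : Sys R r) (F : Type) [Field F] [Algebra ℂ F]
    (x y z : F) (Sg : Finset (Place ℂ F)), RingHom.ker ι ≤ RingHom.ker ψ → S.P.Monic →
    Irreducible (S.map ι).P → Irreducible (S.map ψ).P → (S.map ψ).D ≠ 0 →
    Transcendental ℂ x → ℂ⟮x, y⟯ = ⊤ → aevalAeval x y (S.map ι).P = 0 → g₀ ≤ genus F →
    r + 2 ≤ Module.finrank ℂ⟮z⟯ F →
    Moduli Sg (min (3 * genus F - 3) (2 * genus F + 2 * Module.finrank ℂ⟮z⟯ F - 5) + Sg.card) →
    (∀ p ∉ Sg, ∀ φ, At φ p → (S.map ι).Loc (φ x) (φ y)) →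
    (∀ m : Ideal R, m.IsMaximal → (S.map (Ideal.Quotient.mk m)).Fund) → (S.map ψ).Alg := by
  obtain ⟨k, hk⟩ := result r hr
  refine ⟨k + 2, fun R _ _ ι ψ S F _ _ x y z Sg h0 hP hI hI' hD hx hxy hy hg hz hG hL hF => ?_⟩
  have : IsFF F := isFF_of_gen hx hxy hI.ne_zero hy
  obtain ⟨d, f, w, P', n, t, M, hd', hM', hd, hC, hc⟩ := exists_cov Sg hz (by omega) hG
  refine hk R ι ψ S F x y f Sg d n t M h0 hP hI hI' hD hx hxy hy (hM'.deg.symm.trans hd) hd'
    hC.ind.injective (by omega) (indep_rest hC.ind M) (Fib.pls0.2 hC.inf) hC.gen (fun i => ?_) hL hF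
  by_cases hi : i ∈ M
  · exact Or.inl (hC.bra i hi).symm
  · exact Or.inr ⟨hi, hC.pun i hi⟩

end Pool.Agent.Lib.MP_aa40d3_nt.ManyFreeBranchVariant
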