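import Pool.Agent.Lib.MP_aa40d3_nt.MP.Core4

open Polynomial Pool.Agent.GR Pool.Agent.GR.MP

namespace Pool.Agent.Lib.MP_aa40d3_nt.ManyPointsVariant

/-- The Grothendieck-Katz conjecture for primitive Fuchsian systems of rank `r` with at least
`k(r)` singular points that are generic over the field of the other singular points and at which
the multiplicities of the exponent classes are not all divisible by the rank of a tensor factor;
the other points and all residues are otherwise arbitrary. -/
theorem result (r : ℕ) (hr : 1 ≤ r) : ∃ k : ℕ, ∀ (n : ℕ) (R : Type) [CommRing R]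
    [Algebra.FiniteType ℤ R] (ι : R →+* ℂ), Function.Injective ι → ∀ (t : Fin n → R)
    (A : Fin n → Matrix (Fin r) (Fin r) R) (M : Finset (Fin n)), Function.Injective t →
    k ≤ M.card →
    (AlgebraicIndependent (IntermediateField.adjoin ℚ {x : ℂ | ∃ j, j ∉ M ∧ x = ι (t j)})
      fun i : M => ι (t i)) →
    (∀ i ∈ M, ∀ s, 2 ≤ s → Fac (fun i => ι (t i)) (fun i => (A i).map ι) s →
      ∃ lam : ℂ, ¬ s ∣ mult ((A i).map ι) lam) →
    Prim (fun i => ι (t i)) (fun i => (A i).map ι) →
    (∀ m : Ideal R, m.IsMaximal →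
      HasFund (fun i => Ideal.Quotient.mk m (t i)) fun i => (A i).map (Ideal.Quotient.mk m)) →
    ∀ φ : R →+* ℂ, AlgSol (fun i => φ (t i)) fun i => (A i).map φ :=
  final4 r hr

end Pool.Agent.Lib.MP_aa40d3_nt.ManyPointsVariant
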