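import Pool.Agent.Lib.MP_aa40d3_nt.MR.Core3

open Polynomial Pool.Agent.GR

namespace Pool.Agent.Lib.MP_aa40d3_nt.ManyReflectionsVariant

/-- The Grothendieck-Katz conjecture for primitive Fuchsian systems of rank `r` with at least
`k(r)` singular points of reflection type that are generic over the field of the other singular
points; the other points and their residues are arbitrary. -/
theorem result (r : ℕ) (hr : 2 ≤ r) : ∃ k : ℕ, ∀ (n : ℕ) (R : Type) [CommRing R]
    [Algebra.FiniteType ℤ R] (ι : R →+* ℂ), Function.Injective ι → ∀ (t : Fin n → R)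
    (A : Fin n → Matrix (Fin r) (Fin r) R) (M : Finset (Fin n)), Function.Injective t →
    k ≤ M.card →
    (AlgebraicIndependent (IntermediateField.adjoin ℚ {x : ℂ | ∃ j, j ∉ M ∧ x = ι (t j)})
      fun i : M => ι (t i)) →
    (∀ i ∈ M, ∃ (lam mu : ℂ) (m : Fin (r - 1) → ℤ), (∀ z : ℤ, mu - lam ≠ z) ∧
      ((A i).map ι).charpoly = (X - C mu) * ∏ j, (X - C (lam + m j))) →
    Prim (fun i => ι (t i)) (fun i => (A i).map ι) →
    (∀ m : Ideal R, m.IsMaximal →
      HasFund (fun i => Ideal.Quotient.mk m (t i)) fun i => (A i).map (Ideal.Quotient.mk m)) →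
    ∀ φ : R →+* ℂ, AlgSol (fun i => φ (t i)) fun i => (A i).map φ :=
  final3 r hr

end Pool.Agent.Lib.MP_aa40d3_nt.ManyReflectionsVariant
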