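import Pool.Agent.Lib.MP_aa40d3_nt.FK.Final

open Polynomial Pool.Agent.GR.CV Pool.Agent.GR.GE Pool.Agent.GR.FB
open Pool.Agent.Lib.MP_a01f70_lc.QQ (Place)
open scoped IntermediateField

namespace Pool.Agent.Lib.MP_aa40d3_nt.NilpotentBranchVariant

/-- Systems of rank `r` with nilpotent curvature in all positive characteristics on a curve of genus
`g ≥ g₀(r)` with punctures `Σ` that has a simply branched function `f` of degree `d ≥ 4`, with
at most one branch point or puncture in each fibre, become strictly triangular in a basis of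
algebraic functions as soon as ONE branch value `c₀` is transcendental over the field generated by
the other branch values and the values at the punctures. The conclusion holds for the system itself
(`ψ = ι`) and for every specialisation `ψ` of it. -/
theorem result (r : ℕ) (hr : 1 ≤ r) : ∃ g₀ : ℕ, ∀ (R : Type) [CommRing R] [Algebra.FiniteType ℤ R]
    (ι ψ : R →+* ℂ) (S : Sys R r) (F : Type) [Field F] [Algebra ℂ F] (x y f : F)
    (Sg : Finset (Place ℂ F)) (d : ℕ) (c₀ : ℂ), RingHom.ker ι ≤ RingHom.ker ψ → S.P.Monic →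
    Irreducible (S.map ι).P → Irreducible (S.map ψ).P → (S.map ψ).D ≠ 0 →
    Transcendental ℂ x → ℂ⟮x, y⟯ = ⊤ → aevalAeval x y (S.map ι).P = 0 → g₀ ≤ genus F →
    Module.finrank ℂ⟮f⟯ F = d → 4 ≤ d → Fib Sg f 0 (-1) d →
    (∀ c, Fib Sg f c 1 (d - 1) ∨ (Fib Sg f c 2 1 ∧ Fib Sg f c 1 (d - 2))) → Fib Sg f c₀ 2 1 →
    Transcendental (IntermediateField.adjoin ℚ {c | c ≠ c₀ ∧ ¬ Fib Sg f c 1 d}) c₀ →
    (∀ p ∉ Sg, ∀ φ, At φ p → (S.map ι).Loc (φ x) (φ y)) →
    (∀ m : Ideal R, m.IsMaximal → (S.map (Ideal.Quotient.mk m)).Tri) → (S.map ψ).AlgTri :=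
  Pool.Agent.GR.FK.final13N r hr

/-- The case in which all points are free: all systems of rank `r` on the generic curve of genus
`g ≥ g₀(r)` with `n` generic punctures, and on the generic curve with a function of degree
`≥ 4`. The covering comes from `exists_cov`. -/
theorem generic_curves (r : ℕ) (hr : 1 ≤ r) : ∃ g₀ : ℕ, ∀ (R : Type) [CommRing R]
    [Algebra.FiniteType ℤ R] (ι ψ : R →+* ℂ) (S : Sys R r) (F : Type) [Field F] [Algebra ℂ F]
    (x y z : F) (Sg : Finset (Place ℂ F)), RingHom.ker ι ≤ RingHom.ker ψ → S.P.Monic →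
    Irreducible (S.map ι).P → Irreducible (S.map ψ).P → (S.map ψ).D ≠ 0 →
    Transcendental ℂ x → ℂ⟮x, y⟯ = ⊤ → aevalAeval x y (S.map ι).P = 0 → g₀ ≤ genus F →
    4 ≤ Module.finrank ℂ⟮z⟯ F →
    Moduli Sg (min (3 * genus F - 3) (2 * genus F + 2 * Module.finrank ℂ⟮z⟯ F - 5) + Sg.card) →
    (∀ p ∉ Sg, ∀ φ, At φ p → (S.map ι).Loc (φ x) (φ y)) →
    (∀ m : Ideal R, m.IsMaximal → (S.map (Ideal.Quotient.mk m)).Tri) → (S.map ψ).AlgTri := by
  obtain ⟨k, hk⟩ := result r hr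
  refine ⟨k + 2, fun R _ _ ι ψ S F _ _ x y z Sg h0 hP hI hI' hD hx hxy hy hg hz hG hL hF => ?_⟩
  have : IsFF F := isFF_of_gen hx hxy hI.ne_zero hy
  obtain ⟨d, f, w, P', n, t, M, hd', hM', hd, hC, hc⟩ := exists_cov (r := 3) Sg hz (by omega) hG
  obtain ⟨h1, h2, c₀, h3, h4⟩ := Pool.Agent.GR.FK.of_cov hC (Finset.card_pos.1 (by omega))
  exact hk R ι ψ S F x y f Sg d c₀ h0 hP hI hI' hD hx hxy hy (by omega) (hM'.deg.symm.trans hd) hd'
    h1 h2 h3 h4 hL hF

end Pool.Agent.Lib.MP_aa40d3_nt.NilpotentBranchVariant
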