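import Pool.Agent.Lib.MP_aa40d3_nt.NP.Pts

open Polynomial Pool.Agent.GR

namespace Pool.Agent.Lib.MP_aa40d3_nt.NilpotentPointsVariant

/-- An irreducible Fuchsian system of rank `r` with nilpotent `p`-curvature for almost all `p`, such
that every subsystem of the endomorphisms that is an algebra and not scalar is ramified at `k(r)` or
more singular points that are generic over the field of the other singular points, has a full basis
of algebraic solutions, and so have all its specialisations. -/
theorem result (r : ℕ) (hr : 1 ≤ r) : ∃ k : ℕ, ∀ (n : ℕ) (R : Type) [CommRing R]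
    [Algebra.FiniteType ℤ R] (ι : R →+* ℂ), Function.Injective ι → ∀ (t : Fin n → R)
    (A : Fin n → Matrix (Fin r) (Fin r) R) (M : Finset (Fin n)) (P₀ : ℕ), Function.Injective t →
    (AlgebraicIndependent (IntermediateField.adjoin ℚ {x : ℂ | ∃ j, j ∉ M ∧ x = ι (t j)})
      fun i : M => ι (t i)) →
    Irred (fun i => ι (t i)) (fun i => (A i).map ι) →
    ManyRam k M (fun i => ι (t i)) (fun i => (A i).map ι) →
    (∀ p : ℕ, p.Prime → P₀ < p → ∀ m : Ideal R, m.IsMaximal → (p : R) ∈ m →
      NilCurv p (fun i => Ideal.Quotient.mk m (t i)) fun i => (A i).map (Ideal.Quotient.mk m)) →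
    ∀ φ : R →+* ℂ, AlgSol (fun i => φ (t i)) fun i => (A i).map φ :=
  NP.final5N r hr

end Pool.Agent.Lib.MP_aa40d3_nt.NilpotentPointsVariant
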