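import Pool.Agent.Lib.MP_aa40d3_nt.OC.Final

open Polynomial Pool.Agent.GR.CV Pool.Agent.GR.GE Pool.Agent.GR.OC
open Pool.Agent.GR.RC (Free)
open Pool.Agent.Lib.MP_a01f70_lc.QQ (Place)
open scoped IntermediateField

namespace Pool.Agent.Lib.MP_aa40d3_nt.OnePointCurveVariant

/-- The Grothendieck-Katz conjecture, from nilpotent curvature in positive characteristic, for
systems of rank `r` with irreducible traceless endomorphisms on an ARBITRARY curve of genus `g`
with punctures `Σ`, when `k(r, g)` punctures are ramified and ONE of them, `p₀`, is free. The curve,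
the other punctures and the singularities there are arbitrary. In positive genus the determinant
has finite order. The conclusion holds for the system itself (`ψ = ι`) and for every
specialisation `ψ` of it. -/
theorem result (r g : ℕ) : ∃ k : ℕ, ∀ (R : Type) [CommRing R] [Algebra.FiniteType ℤ R]
    (ι ψ : R →+* ℂ) (S : Sys R r) (F : Type) [Field F] [Algebra ℂ F] (x y : F)
    (Sg M : Finset (Place ℂ F)) (p₀ : Place ℂ F), RingHom.ker ι ≤ RingHom.ker ψ → S.P.Monic →
    Irreducible (S.map ι).P → Irreducible (S.map ψ).P → (S.map ψ).D ≠ 0 → Transcendental ℂ x →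
    ℂ⟮x, y⟯ = ⊤ → aevalAeval x y (S.map ι).P = 0 → genus F = g → p₀ ∈ M → M ⊆ Sg → k ≤ M.card →
    Free Sg p₀ → (∀ p ∈ M, ∀ φ, At φ p → RamL (S.map ι) (φ x) (φ y)) →
    (∀ p ∉ Sg, ∀ φ, At φ p → (S.map ι).Loc (φ x) (φ y)) → AdF (S.map ι) x y →
    (g = 0 ∨ DetO (S.map ι) x y) →
    (∀ m : Ideal R, m.IsMaximal → (S.map (Ideal.Quotient.mk m)).Tri) → (S.map ψ).Alg :=
  finalC r g

end Pool.Agent.Lib.MP_aa40d3_nt.OnePointCurveVariant
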