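import Pool.Agent.Lib.MP_aa40d3_nt.OG.Fin

open Polynomial Pool.Agent.GR Pool.Agent.GR.OP Pool.Agent.GR.OG

namespace Pool.Agent.GR.OnePointGVariant

/-- An irreducible Fuchsian system of rank `r` with nilpotent `p`-curvature for almost all `p`,
with residues in an irreducible Lie algebra `g` (up to scalars) on which the adjoint system is
irreducible, whose local exponentials have two eigenvalues at one singular point that is
transcendental over the field of the other singular points and at `k(r)` arbitrary singular points:
all specialisations of the system have algebraic solutions. -/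
theorem result (r : ℕ) : ∃ k : ℕ, ∀ (n : ℕ) (R : Type) [CommRing R]
    [Algebra.FiniteType ℤ R] (ι : R →+* ℂ), Function.Injective ι → ∀ (t : Fin n → R)
    (A : Fin n → Matrix (Fin r) (Fin r) R) (o : Fin n) (S : Finset (Fin n)) (P₀ : ℕ),
    Function.Injective t →
    Transcendental (IntermediateField.adjoin ℚ {x : ℂ | ∃ j, j ≠ o ∧ x = ι (t j)}) (ι (t o)) →
    Irred (fun i => ι (t i)) (fun i => (A i).map ι) →
    ∀ g, LieSys (fun i => ι (t i)) (fun i => (A i).map ι) g → Two ((A o).map ι) → k ≤ S.card →
    (∀ j ∈ S, Two ((A j).map ι)) →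
    (∀ p : ℕ, p.Prime → P₀ < p → ∀ m : Ideal R, m.IsMaximal → (p : R) ∈ m →
      NilCurv p (fun i => Ideal.Quotient.mk m (t i)) fun i => (A i).map (Ideal.Quotient.mk m)) →
    ∀ φ : R →+* ℂ, AlgSol (fun i => φ (t i)) fun i => (A i).map φ :=
  finalG r

end Pool.Agent.GR.OnePointGVariant
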