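import Pool.Agent.Lib.MP_aa40d3_nt.Final
import Pool.Agent.Lib.MP_aa40d3_nt.Bridge

open Polynomial Pool.Agent.Lib.MP_aa40d3_nt

namespace Pool.Agent.Lib.MP_aa40d3_nt.OrderTwoVariant

theorem order_two_iff (m : ℕ) (b : Fin (2 + 1) → ℤ[X]) (hb : b (Fin.last 2) ≠ 0)
    (a : Fin m → AlgebraicClosure ℚ) (ρ : Option (Fin m) → Fin 2 → ℚ) (h : RiemannScheme b a ρ)
    (d : ℕ) (hd : 0 < d) (hρ : ∀ x j, ∃ z : ℤ, (d : ℚ) * ρ x j = z)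
    (l : ℤ) (hl : IsCoprime l (d : ℤ)) (τ : Option (Fin m) → ℝ) (hτ : 0 ≤ ∑ x, τ x)
    (hlt : ∑ x, ∑ j, Int.fract (l * (ρ x j : ℝ) - τ x) + 2 * ∑ x, τ x < 2) :
    FullBasis (AlgebraicClosure (RatFunc ℚ))
      (algebraMap (RatFunc ℚ) (AlgebraicClosure (RatFunc ℚ)) RatFunc.X) b ↔
    ∃ N : ℕ, ∀ p : ℕ, N < p → ∀ _ : Fact (Nat.Prime p),
      FullBasis (RatFunc (ZMod p)) RatFunc.X b :=
  ⟨easy b hb, order_two b hb a ρ h d hd hρ l hl τ hτ hlt⟩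

end Pool.Agent.Lib.MP_aa40d3_nt.OrderTwoVariant
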