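import Pool.Agent.Lib.MP_aa40d3_nt.MG.Core5

open Polynomial Pool.Agent.GR

namespace Pool.Agent.Lib.MP_aa40d3_nt.RamifiedPointsVariant

/-- The Grothendieck-Katz conjecture for irreducible Fuchsian systems of rank `r` such that every
subsystem of the endomorphisms that is an algebra and not scalar is ramified at `k(r)` or more
singular points that are generic over the field of the other singular points. -/
theorem result (r : ℕ) (hr : 1 ≤ r) : ∃ k : ℕ, ∀ (n : ℕ) (R : Type) [CommRing R]
    [Algebra.FiniteType ℤ R] (ι : R →+* ℂ), Function.Injective ι → ∀ (t : Fin n → R)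
    (A : Fin n → Matrix (Fin r) (Fin r) R) (M : Finset (Fin n)), Function.Injective t →
    (AlgebraicIndependent (IntermediateField.adjoin ℚ {x : ℂ | ∃ j, j ∉ M ∧ x = ι (t j)})
      fun i : M => ι (t i)) →
    Irred (fun i => ι (t i)) (fun i => (A i).map ι) →
    ManyRam k M (fun i => ι (t i)) (fun i => (A i).map ι) →
    (∀ m : Ideal R, m.IsMaximal →
      HasFund (fun i => Ideal.Quotient.mk m (t i)) fun i => (A i).map (Ideal.Quotient.mk m)) →
    ∀ φ : R →+* ℂ, AlgSol (fun i => φ (t i)) fun i => (A i).map φ :=
  final5 r hr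

end Pool.Agent.Lib.MP_aa40d3_nt.RamifiedPointsVariant
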