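import Pool.Agent.Lib.MP_aa40d3_nt.R2.Core4

open Polynomial Pool.Agent.GR

namespace Pool.Agent.Lib.MP_aa40d3_nt.RankTwoOnePointVariant

/-- The Grothendieck-Katz conjecture for primitive Fuchsian systems of rank two with one singular
point that is transcendental over the field of the other singular points and whose exponent
difference is not an integer; the other points and all residues are otherwise arbitrary. -/
theorem result (n : ℕ) (R : Type) [CommRing R] [Algebra.FiniteType ℤ R] (ι : R →+* ℂ)
    (hι : Function.Injective ι) (t : Fin n → R) (A : Fin n → Matrix (Fin 2) (Fin 2) R) (o : Fin n)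
    (ht : Function.Injective t)
    (ho : Transcendental (IntermediateField.adjoin ℚ {x : ℂ | ∃ j, j ≠ o ∧ x = ι (t j)}) (ι (t o)))
    (he : ∃ lam mu : ℂ, (∀ z : ℤ, mu - lam ≠ z) ∧
      ((A o).map ι).charpoly = (X - C mu) * (X - C lam))
    (hpr : Prim (fun i => ι (t i)) fun i => (A i).map ι)
    (hp : ∀ m : Ideal R, m.IsMaximal →
      HasFund (fun i => Ideal.Quotient.mk m (t i)) fun i => (A i).map (Ideal.Quotient.mk m))
    (φ : R →+* ℂ) : AlgSol (fun i => φ (t i)) fun i => (A i).map φ :=
  final4 n R ι hι t A o ht ho he hpr hp φ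

end Pool.Agent.Lib.MP_aa40d3_nt.RankTwoOnePointVariant
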