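import Mathlib

open Polynomial

namespace Pool.Agent.Lib.MP_aa40d3_nt

section Twist
variable {A B : Type*} [CommRing A] [CommRing B]

/-- falling factorial -/
def ff (s : A) (i : ℕ) : A := ∏ t ∈ Finset.range i, (s - t)

lemma ff_succ (s : A) (i : ℕ) : ff s (i + 1) = ff s i * (s - i) := by
  simp [ff, Finset.prod_range_succ]

lemma ff_zero (s : A) : ff s 0 = 1 := by simp [ff]

lemma ff_natCast (n i : ℕ) : ff (n : A) i = (n.descFactorial i : A) := by
  induction i with
  | zero => simp [ff]
  | succ i ih =>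
    rw [ff_succ, ih, Nat.descFactorial_succ]
    rcases le_or_gt i n with h | h
    · push_cast [h]; ring
    · rw [Nat.descFactorial_eq_zero_iff_lt.mpr h]; simp

lemma map_ff (φ : A →+* B) (s : A) (i : ℕ) : φ (ff s i) = ff (φ s) i := by
  simp [ff, map_prod]

/-- twisted iterated derivative -/
noncomputable def tw (R S q : A[X]) : ℕ → A[X]
  | 0 => q
  | i + 1 => R * derivative (tw R S q i) + (S - (i : A[X]) * derivative R) * tw R S q i

lemma mul_derivative_pow (R : A[X]) (i : ℕ) :
    R * derivative (R ^ i) = (i : A[X]) * derivative R * R ^ i := by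
  induction i with
  | zero => simp
  | succ i ih =>
    rw [pow_succ, derivative_mul, mul_add, ← mul_assoc, ih]
    push_cast; ring

lemma tw_spec (δ : B → B) (hmul : ∀ u v, δ (u * v) = u * δ v + v * δ u) (ι : A[X] →+* B)
    (hι : ∀ f, δ (ι f) = ι (derivative f)) (R S q : A[X]) (u : B)
    (hu : ι R * δ u = ι S * u) (i : ℕ) :
    ι R ^ i * δ^[i] (u * ι q) = u * ι (tw R S q i) := by
  induction i with
  | zero => simp [tw]
  | succ i ih =>
    rw [Function.iterate_succ_apply']
    set w := δ^[i] (u * ι q)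
    have h1 := congrArg δ ih
    rw [hmul, hmul, ← map_pow, hι, hι] at h1
    have h2 := congrArg ι (mul_derivative_pow R i)
    simp only [map_mul, map_pow, map_natCast] at h2 h1
    simp only [tw, map_add, map_mul, map_sub, map_natCast]
    linear_combination ι R * h1 - w * h2 + ι (tw R S q i) * hu
      - (i : B) * ι (derivative R) * ih

lemma tw_map (φ : A →+* B) (R S q : A[X]) (i : ℕ) :
    (tw R S q i).map φ = tw (R.map φ) (S.map φ) (q.map φ) i := by
  induction i with
  | zero => simp [tw]
  | succ i ih =>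
    simp only [tw, Polynomial.map_add, Polynomial.map_mul, Polynomial.map_sub, ← derivative_map,
      ih, Polynomial.map_natCast]

lemma tw_add (R S q q' : A[X]) (i : ℕ) : tw R S (q + q') i = tw R S q i + tw R S q' i := by
  induction i with
  | zero => simp [tw]
  | succ i ih => simp only [tw, ih, derivative_add]; ring

lemma tw_smul (R S q : A[X]) (c : A) (i : ℕ) : tw R S (c • q) i = c • tw R S q i := by
  induction i with
  | zero => simp [tw]
  | succ i ih => simp only [tw, ih, derivative_smul, smul_add, mul_smul_comm]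

lemma tw_eval (a n : A) (w : A[X]) (i : ℕ) :
    (tw (X - C a) (C n) w i).eval a = ff n i * w.eval a := by
  induction i with
  | zero => simp [tw, ff]
  | succ i ih =>
    simp only [tw, eval_add, eval_mul, eval_sub, eval_X, eval_C, sub_self, zero_mul, zero_add,
      derivative_sub, derivative_X, derivative_C, sub_zero, mul_one, eval_natCast, ih, ff_succ]
    ring

lemma local_tw (a : A) (n : ℕ) (w : A[X]) (i : ℕ) :
    (X - C a) ^ i * derivative^[i] ((X - C a) ^ n * w)
      = (X - C a) ^ n * tw (X - C a) (C (n : A)) w i := by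
  have := tw_spec (A := A) (B := A[X]) derivative
    (fun u v => by rw [derivative_mul]; ring) (RingHom.id _) (fun f => rfl)
    (X - C a) (C (n : A)) w ((X - C a) ^ n)
    (by simp only [RingHom.id_apply]; rw [mul_derivative_pow]; simp) i
  simpa using this

lemma natDegree_X_pow_mul_iter [Nontrivial A] (y : A[X]) (i : ℕ) :
    (X ^ i * derivative^[i] y).natDegree ≤ y.natDegree := by
  rcases le_or_gt i y.natDegree with h | h
  · have h1 := natDegree_iterate_derivative y i
    have h2 : (X ^ i * derivative^[i] y).natDegree ≤ i + (derivative^[i] y).natDegree := by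
      refine natDegree_mul_le.trans ?_
      rw [natDegree_X_pow]
    omega
  · rw [iterate_derivative_eq_zero h]; simp

lemma coeff_X_pow_mul_iter (y : A[X]) (i n : ℕ) :
    (X ^ i * derivative^[i] y).coeff n = ff (n : A) i * y.coeff n := by
  rw [ff_natCast, coeff_X_pow_mul']
  split_ifs with h
  · rw [coeff_iterate_derivative, Nat.sub_add_cancel h, nsmul_eq_mul]
  · rw [Nat.descFactorial_eq_zero_iff_lt.mpr (not_le.mp h)]; simp

lemma coeff_prod_le {ι : Type*} (s : Finset ι) (f : ι → A[X]) (d : ι → ℕ)
    (h : ∀ i ∈ s, (f i).natDegree ≤ d i) :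
    (∏ i ∈ s, f i).natDegree ≤ ∑ i ∈ s, d i ∧
      (∏ i ∈ s, f i).coeff (∑ i ∈ s, d i) = ∏ i ∈ s, (f i).coeff (d i) := by
  classical
  induction s using Finset.induction_on with
  | empty => simp
  | insert a s ha ih =>
    have ih' := ih (fun i hi => h i (Finset.mem_insert_of_mem hi))
    have h1 := h a (Finset.mem_insert_self _ _)
    rw [Finset.prod_insert ha, Finset.sum_insert ha, Finset.prod_insert ha]
    refine ⟨natDegree_mul_le.trans (by omega), ?_⟩
    rw [coeff_mul_add_eq_of_natDegree_le h1 ih'.1, ih'.2]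

end Twist

section Wr
variable {k : Type*} [Field k] {r : ℕ}

/-- Wronskian -/
noncomputable def wr (y : Fin r → k[X]) : k[X] :=
  (Matrix.of fun i j : Fin r => derivative^[(i : ℕ)] (y j)).det

lemma det_ff_ne_zero (v : Fin r → k) (hv : Function.Injective v) :
    (Matrix.of fun i j : Fin r => ff (v j) i).det ≠ 0 := by
  have h := Matrix.det_eval_matrixOfPolynomials_eq_det_vandermonde v
    (fun i : Fin r => ∏ t ∈ Finset.range i, (X - C (t : k)))
    (fun i => by
      rw [natDegree_prod_of_monic _ _ (fun t _ => monic_X_sub_C _)]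
      simp only [natDegree_X_sub_C]
      simp)
    (fun i => monic_prod_of_monic _ _ (fun t _ => monic_X_sub_C _))
  have h2 := Matrix.det_vandermonde_ne_zero_iff.mpr hv
  rw [h, ← Matrix.det_transpose] at h2
  have h3 : (Matrix.of fun i j : Fin r => ff (v j) i) =
      (Matrix.of fun i j : Fin r =>
        (∏ t ∈ Finset.range j, (X - C (t : k))).eval (v i)).transpose := by
    ext i j
    simp [ff, eval_prod]
  rw [h3]; exact h2

lemma wr_degree (y : Fin r → k[X]) (hy : ∀ j, y j ≠ 0)
    (hinj : Function.Injective fun j => ((y j).natDegree : k)) :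
    wr y ≠ 0 ∧ (wr y).natDegree + ∑ i : Fin r, (i : ℕ) = ∑ j, (y j).natDegree := by
  have h1 : (Matrix.of fun i j : Fin r => X ^ (i : ℕ) * derivative^[(i : ℕ)] (y j)).det
      = X ^ (∑ i : Fin r, (i : ℕ)) * wr y := by
    rw [← Finset.prod_pow_eq_pow_sum]
    exact Matrix.det_mul_column (fun i : Fin r => (X : k[X]) ^ (i : ℕ))
      (Matrix.of fun i j : Fin r => derivative^[(i : ℕ)] (y j))
  set N := (Matrix.of fun i j : Fin r => X ^ (i : ℕ) * derivative^[(i : ℕ)] (y j)) with hN
  have h2 : ∀ σ : Equiv.Perm (Fin r), (∏ j, N (σ j) j).natDegree ≤ ∑ j, (y j).natDegree ∧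
      (∏ j, N (σ j) j).coeff (∑ j, (y j).natDegree) =
        ∏ j, (ff ((y j).natDegree : k) (σ j) * (y j).leadingCoeff) := by
    intro σ
    have := coeff_prod_le Finset.univ (fun j => N (σ j) j) (fun j => (y j).natDegree)
      (fun j _ => natDegree_X_pow_mul_iter _ _)
    refine ⟨this.1, this.2.trans (Finset.prod_congr rfl fun j _ => ?_)⟩
    exact coeff_X_pow_mul_iter _ _ _
  have h3 : N.det.natDegree ≤ ∑ j, (y j).natDegree := by
    rw [Matrix.det_apply]
    refine natDegree_sum_le_of_forall_le _ _ fun σ _ => ?_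
    exact (natDegree_smul_le _ _).trans (h2 σ).1
  have h4 : N.det.coeff (∑ j, (y j).natDegree) ≠ 0 := by
    have : N.det.coeff (∑ j, (y j).natDegree) =
        (Matrix.of fun i j : Fin r => (y j).leadingCoeff *
          (Matrix.of fun i j : Fin r => ff ((y j).natDegree : k) i) i j).det := by
      rw [Matrix.det_apply, Matrix.det_apply, finsetSum_coeff]
      refine Finset.sum_congr rfl fun σ _ => ?_
      rw [coeff_smul, (h2 σ).2]
      simp [mul_comm]
    rw [this, Matrix.det_mul_row]
    exact mul_ne_zero (Finset.prod_ne_zero_iff.mpr fun j _ => leadingCoeff_ne_zero.mpr (hy j))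
      (det_ff_ne_zero _ hinj)
  have h5 : N.det.natDegree = ∑ j, (y j).natDegree :=
    le_antisymm h3 (le_natDegree_of_ne_zero h4)
  have h6 : wr y ≠ 0 := by
    intro h; rw [h1, h] at h4; simp at h4
  refine ⟨h6, ?_⟩
  rw [← h5, h1, natDegree_mul (by simp) h6, natDegree_X_pow, add_comm]

lemma rootMult_eq (a : k) (n : ℕ) (w : k[X]) (hw : w.eval a ≠ 0) :
    rootMultiplicity a ((X - C a) ^ n * w) = n := by
  have h0 : w ≠ 0 := by rintro rfl; simp at hw
  rw [mul_comm, rootMultiplicity_mul_X_sub_C_pow h0, rootMultiplicity_eq_zero hw, zero_add]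

lemma exists_local (a : k) (z : k[X]) (hz : z ≠ 0) :
    ∃ w : k[X], z = (X - C a) ^ rootMultiplicity a z * w ∧ w.eval a ≠ 0 := by
  obtain ⟨w, h1, h2⟩ := exists_eq_pow_rootMultiplicity_mul_and_not_dvd z hz a
  exact ⟨w, h1, fun h => h2 (dvd_iff_isRoot.mpr h)⟩

lemma wr_order (a : k) (z : Fin r → k[X]) (hz : ∀ j, z j ≠ 0)
    (hinj : Function.Injective fun j => (rootMultiplicity a (z j) : k)) :
    wr z ≠ 0 ∧ rootMultiplicity a (wr z) + ∑ i : Fin r, (i : ℕ) =
      ∑ j, rootMultiplicity a (z j) := by
  choose w hw hw0 using fun j => exists_local a (z j) (hz j)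
  set e := fun j => rootMultiplicity a (z j) with he
  set G := Matrix.of fun i j : Fin r => tw (X - C a) (C (e j : k)) (w j) i with hG
  have h1 : (X - C a) ^ (∑ i : Fin r, (i : ℕ)) * wr z = (X - C a) ^ (∑ j, e j) * G.det := by
    rw [← Finset.prod_pow_eq_pow_sum, ← Finset.prod_pow_eq_pow_sum, wr,
      ← Matrix.det_mul_column, ← Matrix.det_mul_row]
    congr 1
    ext1 i j
    simp only [Matrix.of_apply, hG]
    rw [← local_tw, ← hw j]
  have h2 : G.det.eval a ≠ 0 := by
    have : G.det.eval a = (Matrix.of fun i j : Fin r => (w j).eval a *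
          (Matrix.of fun i j : Fin r => ff (e j : k) i) i j).det := by
      rw [← coe_evalRingHom, RingHom.map_det]
      congr 1
      ext i j
      simp only [hG, RingHom.mapMatrix_apply, Matrix.map_apply, Matrix.of_apply, coe_evalRingHom,
        tw_eval, mul_comm]
    rw [this, Matrix.det_mul_row]
    exact mul_ne_zero (Finset.prod_ne_zero_iff.mpr fun j _ => hw0 j) (det_ff_ne_zero _ hinj)
  have h3 : G.det ≠ 0 := by intro h; rw [h] at h2; simp at h2
  have h6 : wr z ≠ 0 := by
    intro h; rw [h, mul_zero] at h1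
    exact mul_ne_zero (pow_ne_zero _ (X_sub_C_ne_zero a)) h3 h1.symm
  refine ⟨h6, ?_⟩
  have h7 := rootMult_eq a (∑ j, e j) _ h2
  rw [← h1, mul_comm, rootMultiplicity_mul_X_sub_C_pow h6] at h7
  exact h7

lemma wr_comb (y : Fin r → k[X]) (α : Fin r → Fin r → k) :
    wr (fun j => ∑ i, α j i • y i) = C (Matrix.of α).det * wr y := by
  have : (Matrix.of fun i j : Fin r => derivative^[(i : ℕ)] (∑ l, α j l • y l)) =
      (Matrix.of fun i j : Fin r => derivative^[(i : ℕ)] (y j)) *
        ((C : k →+* k[X]).mapMatrix (Matrix.of α)).transpose := by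
    ext1 i j
    simp only [Matrix.mul_apply, iterate_derivative_sum, iterate_derivative_smul, Matrix.of_apply,
      Matrix.transpose_apply, RingHom.mapMatrix_apply, Matrix.map_apply]
    simp only [smul_eq_C_mul, mul_comm]
  rw [wr, this, Matrix.det_mul, Matrix.det_transpose, ← RingHom.map_det, mul_comm]
  rfl

end Wr

end Pool.Agent.Lib.MP_aa40d3_nt
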