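import Pool.Agent.Lib.MP_aa40d3_nt.CharP

open Polynomial

namespace Pool.Agent.Lib.MP_aa40d3_nt

section
variable {A B : Type*} [CommRing A] [CommRing B] {r m : ℕ}

noncomputable def Rp (a : Fin m → A) : A[X] := ∏ x, (X - C (a x))

noncomputable def Sp (a κ : Fin m → A) : A[X] :=
  ∑ x, C (κ x) * ∏ x' ∈ Finset.univ.erase x, (X - C (a x'))

noncomputable def Top (β : Fin (r + 1) → A[X]) (a κ : Fin m → A) (q : A[X]) : A[X] :=
  ∑ i : Fin (r + 1), β i * Rp a ^ (r - i) * tw (Rp a) (Sp a κ) q i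

lemma Rp_map (φ : A →+* B) (a : Fin m → A) : (Rp a).map φ = Rp (fun x => φ (a x)) := by
  simp [Rp, Polynomial.map_prod]

lemma Sp_map (φ : A →+* B) (a κ : Fin m → A) :
    (Sp a κ).map φ = Sp (fun x => φ (a x)) (fun x => φ (κ x)) := by
  simp [Sp, Polynomial.map_prod, Polynomial.map_sum]

lemma Top_map (φ : A →+* B) (β : Fin (r + 1) → A[X]) (a κ : Fin m → A) (q : A[X]) :
    (Top β a κ q).map φ =
      Top (fun i => (β i).map φ) (fun x => φ (a x)) (fun x => φ (κ x)) (q.map φ) := by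
  simp only [Top, Polynomial.map_sum, Polynomial.map_mul, Polynomial.map_pow, tw_map, Rp_map,
    Sp_map]

noncomputable def TopL (β : Fin (r + 1) → A[X]) (a κ : Fin m → A) : A[X] →ₗ[A] A[X] where
  toFun := Top β a κ
  map_add' q q' := by simp only [Top, tw_add, mul_add, Finset.sum_add_distrib]
  map_smul' c q := by simp only [Top, tw_smul, mul_smul_comm, Finset.smul_sum, RingHom.id_apply]

lemma log_prod {ι : Type*} [DecidableEq ι] (δ : B → B)
    (hmul : ∀ u v, δ (u * v) = u * δ v + v * δ u) (h1 : δ 1 = 0) (s : Finset ι) (R c u : ι → B)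
    (h : ∀ x, R x * δ (u x) = c x * u x) :
    (∏ x ∈ s, R x) * δ (∏ x ∈ s, u x) =
      (∑ x ∈ s, c x * ∏ x' ∈ s.erase x, R x') * ∏ x ∈ s, u x := by
  induction s using Finset.induction_on with
  | empty => simp [h1]
  | insert t s ht ih =>
    rw [Finset.prod_insert ht, Finset.prod_insert ht, Finset.sum_insert ht,
      Finset.erase_insert ht, hmul]
    have : ∑ x ∈ s, c x * ∏ x' ∈ (insert t s).erase x, R x' =
        R t * ∑ x ∈ s, c x * ∏ x' ∈ s.erase x, R x' := by
      rw [Finset.mul_sum]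
      refine Finset.sum_congr rfl fun x hx => ?_
      rw [Finset.erase_insert_of_ne (by rintro rfl; exact ht hx),
        Finset.prod_insert (fun h => ht (Finset.mem_of_mem_erase h))]
      ring
    rw [this]
    linear_combination R t * u t * ih + (∏ x ∈ s, R x) * (∏ x ∈ s, u x) * h t

lemma Top_spec (δ : B → B) (hmul : ∀ u v, δ (u * v) = u * δ v + v * δ u) (ι : A[X] →+* B)
    (hι : ∀ f, δ (ι f) = ι (derivative f)) (β : Fin (r + 1) → A[X]) (a κ : Fin m → A)
    (u : Fin m → B) (hu : ∀ x, ι (X - C (a x)) * δ (u x) = ι (C (κ x)) * u x) (q : A[X]) :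
    ι (Rp a) ^ r * ∑ i : Fin (r + 1), ι (β i) * δ^[i] ((∏ x, u x) * ι q) =
      (∏ x, u x) * ι (Top β a κ q) := by
  have h1 : δ 1 = 0 := by simpa using hι 1
  have h2 := log_prod δ hmul h1 Finset.univ _ _ u hu
  have h3 : ι (Rp a) * δ (∏ x, u x) = ι (Sp a κ) * ∏ x, u x := by
    simpa only [Rp, Sp, map_prod, map_sum, map_mul] using h2
  simp only [Top, map_sum, map_mul, map_pow, Finset.mul_sum]
  refine Finset.sum_congr rfl fun i _ => ?_
  have h4 := tw_spec δ hmul ι hι _ _ q _ h3 i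
  have h5 : ι (Rp a) ^ r = ι (Rp a) ^ (r - i) * ι (Rp a) ^ (i : ℕ) := by
    rw [← pow_add, Nat.sub_add_cancel (Nat.lt_succ_iff.mp i.2)]
  rw [h5]
  linear_combination ι (Rp a) ^ (r - i) * ι (β i) * h4

end

section
variable {k : Type*} [Field k] {r m : ℕ}

lemma Rp_ne_zero (a : Fin m → k) : Rp a ≠ 0 :=
  Finset.prod_ne_zero_iff.mpr fun _ _ => X_sub_C_ne_zero _

theorem charp_main [IsAlgClosed k] (p : ℕ) [Fact p.Prime] [CharP k p] (hr : r ≤ p)
    (β : Fin (r + 1) → k[X]) (a : Fin m → k) (ha : Function.Injective a)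
    (ρ : Fin m → Fin r → k) (σ : Fin r → k)
    (L1 : ∀ x (y : k[X]), y ≠ 0 → ∑ i : Fin (r + 1), β i * derivative^[(i : ℕ)] y = 0 →
      ∃ j, (rootMultiplicity (a x) y : k) = ρ x j)
    (L2 : ∀ a', (∀ x, a x ≠ a') → (β (Fin.last r)).eval a' ≠ 0)
    (L3 : ∀ y : k[X], y ≠ 0 → ∑ i : Fin (r + 1), β i * derivative^[(i : ℕ)] y = 0 →
      ∃ j, (y.natDegree : k) = -σ j)
    (y0 : Fin r → k[X])
    (hy0 : ∀ j, ∑ i : Fin (r + 1), β i * derivative^[(i : ℕ)] (y0 j) = 0)
    (hind : ∀ c : Fin r → k[X], ∑ j, expand _ p (c j) * y0 j = 0 → ∀ j, c j = 0)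
    (n : Fin m → ℕ) (hn : ∀ x, n x ≤ p) (e : Fin m → Fin r → ℕ) (he : ∀ x j, e x j < p)
    (hee : ∀ x j, (e x j : k) = ρ x j - n x) :
    ∃ y : Fin r → k[X], (∀ j, Top β a (fun x => (n x : k)) (y j) = 0 ∧ y j ≠ 0 ∧
      ((y j).natDegree : k) = -σ j - ∑ x, (n x : k)) ∧ Function.Injective σ ∧
      ∑ j, (y j).natDegree + m * ∑ i : Fin r, (i : ℕ) =
        ∑ x, ∑ j, e x j + ∑ i : Fin r, (i : ℕ) := by
  classical
  obtain ⟨u, hu⟩ : ∃ u : k[X], u = ∏ x, (X - C (a x)) ^ n x := ⟨_, rfl⟩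
  have hu0 : u ≠ 0 := hu ▸ Finset.prod_ne_zero_iff.mpr fun _ _ => pow_ne_zero _ (X_sub_C_ne_zero _)
  let M : Submodule k k[X] :=
    { carrier := {z | ∑ i : Fin (r + 1), β i * derivative^[(i : ℕ)] (u * z) = 0}
      add_mem' := fun {z w} hz hw => by
        simp only [Set.mem_ofPred_eq] at *
        simp only [mul_add, iterate_map_add, Finset.sum_add_distrib, hz, hw, add_zero]
      zero_mem' := by simp
      smul_mem' := fun c z hz => by
        simp only [Set.mem_ofPred_eq] at *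
        simp only [mul_smul_comm, iterate_derivative_smul, ← Finset.smul_sum, hz, smul_zero] }
  have hM : ∀ z, z ∈ M ↔ ∑ i : Fin (r + 1), β i * derivative^[(i : ℕ)] (u * z) = 0 :=
    fun z => Iff.rfl
  have hexp : ∀ (c z : k[X]), ∑ i : Fin (r + 1), β i * derivative^[(i : ℕ)] (expand k p c * z) =
      expand k p c * ∑ i : Fin (r + 1), β i * derivative^[(i : ℕ)] z := by
    intro c z
    simp only [iter_expand_mul, Finset.mul_sum, mul_left_comm]
  have hexp2 : ∀ a : k, expand k p (X - C (a ^ p)) = (X - C a) ^ p := fun a => by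
    rw [sub_pow_char, map_sub, expand_X, expand_C, C_pow]
  obtain ⟨v, hv⟩ : ∃ v : k[X], v = ∏ x, (X - C (a x)) ^ (p - n x) := ⟨_, rfl⟩
  have hv0 : v ≠ 0 := hv ▸ Finset.prod_ne_zero_iff.mpr fun _ _ => pow_ne_zero _ (X_sub_C_ne_zero _)
  have huv : u * v = expand k p (∏ x, (X - C (a x ^ p))) := by
    rw [hu, hv, map_prod, ← Finset.prod_mul_distrib]
    refine Finset.prod_congr rfl fun x _ => ?_
    rw [hexp2, ← pow_add, Nat.add_sub_cancel' (hn x)]
  have hroot : ∀ (a' : k), rootMultiplicity a' u = ∑ x, if a x = a' then n x else 0 := by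
    intro a'
    rw [hu]
    have : ∀ s : Finset (Fin m), rootMultiplicity a' (∏ x ∈ s, (X - C (a x)) ^ n x) =
        ∑ x ∈ s, if a x = a' then n x else 0 := by
      intro s
      induction s using Finset.induction_on with
      | empty => simp
      | insert t s ht ih =>
        rw [Finset.prod_insert ht, Finset.sum_insert ht, rootMultiplicity_mul, ih]
        · congr 1
          split_ifs with h
          · rw [h, rootMultiplicity_X_sub_C_pow]
          · exact rootMultiplicity_eq_zero (by simp [sub_eq_zero, Ne.symm h])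
        · exact mul_ne_zero (pow_ne_zero _ (X_sub_C_ne_zero _))
            (Finset.prod_ne_zero_iff.mpr fun _ _ => pow_ne_zero _ (X_sub_C_ne_zero _))
    exact this _
  have hdegu : u.natDegree = ∑ x, n x := by
    rw [hu, natDegree_prod_of_monic _ _ (fun x _ => (monic_X_sub_C _).pow _)]
    simp only [natDegree_pow, natDegree_X_sub_C, mul_one]
  obtain ⟨y, hy, hd, hsum⟩ := core p M hr
    (fun z hz => by
      rw [hM] at *
      rw [mul_left_comm, ← expand_X p, hexp, hz, mul_zero])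
    (fun a' z hz => by
      rw [hM] at *
      rw [mul_left_comm, ← hexp2, hexp, hexp2] at hz
      exact (mul_eq_zero.mp hz).resolve_left (pow_ne_zero _ (X_sub_C_ne_zero _)))
    (fun j => v * y0 j) (fun j => by rw [hM, ← mul_assoc, huv, hexp, hy0, mul_zero])
    (fun c hc => hind c (by
      simp only [mul_left_comm _ v, ← Finset.mul_sum] at hc
      exact (mul_eq_zero.mp hc).resolve_left hv0))
    a ha e he
    (fun x z hz hz0 => by
      obtain ⟨j, hj⟩ := L1 x _ (mul_ne_zero hu0 hz0) hz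
      refine ⟨j, ?_⟩
      rw [rootMultiplicity_mul (mul_ne_zero hu0 hz0), hroot] at hj
      simp only [ha.eq_iff, Finset.sum_ite_eq', Finset.mem_univ, if_true] at hj
      rw [hee, ← hj]; push_cast; ring)
    (fun a' ha' z hz hz0 => by
      obtain ⟨j, hj⟩ := sol_ord_ordinary β a' (L2 a' ha') _ (mul_ne_zero hu0 hz0) hz
      refine ⟨j, ?_⟩
      rw [rootMultiplicity_mul (mul_ne_zero hu0 hz0), hroot] at hj
      simpa [ha'] using hj)
    (fun j => -σ j - ∑ x, (n x : k))
    (fun z hz hz0 => by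
      obtain ⟨j, hj⟩ := L3 _ (mul_ne_zero hu0 hz0) hz
      refine ⟨j, ?_⟩
      rw [natDegree_mul hu0 hz0, hdegu] at hj
      rw [← hj]; push_cast; ring)
  refine ⟨y, fun j => ⟨?_, (hy j).2⟩, fun i j hij => hd (by simp only [hij]), by simpa using hsum⟩
  have h1 := Top_spec (A := k) (B := k[X]) derivative
    (fun u v => by rw [derivative_mul]; ring) (RingHom.id _) (fun f => rfl) β a
    (fun x => (n x : k)) (fun x => (X - C (a x)) ^ n x)
    (fun x => by simp only [RingHom.id_apply]; rw [mul_derivative_pow]; simp) (y j)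
  simp only [RingHom.id_apply, ← hu] at h1
  rw [(hM _).mp (hy j).1, mul_zero] at h1
  exact (mul_eq_zero.mp h1.symm).resolve_left hu0

end

end Pool.Agent.Lib.MP_aa40d3_nt
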