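import Pool.Agent.Lib.MP_aa40d3_nt.Main2

open Polynomial

namespace Pool.Agent.Lib.MP_aa40d3_nt

lemma exists_derivation {S T : Type} [CommRing S] [CommRing T] [Algebra S T]
    [Algebra.FormallyEtale S T] (d : S →+ S) (hd : ∀ a b, d (a * b) = a * d b + b * d a) :
    ∃ D : Derivation ℤ T T, ∀ s, D (algebraMap S T s) = algebraMap S T (d s) := by
  let d' : Derivation ℤ S T := Derivation.mk'
    (((algebraMap S T).toAddMonoidHom.comp d).toIntLinearMap) (fun a b => by
      simp [hd, Algebra.smul_def])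
  have h := KaehlerDifferential.isBaseChange_of_formallyEtale ℤ S T
  refine ⟨(h.lift d'.liftKaehlerDifferential).compDer (KaehlerDifferential.D ℤ T), fun s => ?_⟩
  change h.lift d'.liftKaehlerDifferential (KaehlerDifferential.D ℤ T (algebraMap S T s)) = _
  rw [← KaehlerDifferential.map_D ℤ ℤ S T, h.lift_eq,
    Derivation.liftKaehlerDifferential_comp_D]
  rfl

abbrev KK := AlgebraicClosure (RatFunc ℚ)

noncomputable abbrev xK : KK := algebraMap (RatFunc ℚ) KK RatFunc.X

lemma exists_D : ∃ D : @Derivation ℤ KK KK _ _ _ (Ring.toIntAlgebra KK) _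
    (AddCommGroup.toIntModule KK), D xK = 1 := by
  have h1 : Algebra.FormallyEtale ℚ[X] (RatFunc ℚ) :=
    Algebra.FormallyEtale.of_isLocalization (nonZeroDivisors ℚ[X])
  have h2 : Algebra.FormallyEtale (RatFunc ℚ) KK := Algebra.FormallyEtale.of_isSeparable _ _
  have h3 : Algebra.FormallyEtale ℚ[X] KK := Algebra.FormallyEtale.comp ℚ[X] (RatFunc ℚ) KK
  obtain ⟨D, hD⟩ := exists_derivation (S := ℚ[X]) (T := KK) derivative.toAddMonoidHom
    (fun a b => by simp [derivative_mul]; ring)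
  refine ⟨D, ?_⟩
  have := hD X
  rw [IsScalarTower.algebraMap_apply ℚ[X] (RatFunc ℚ) KK, RatFunc.algebraMap_X] at this
  simpa using this

lemma exists_emb : Nonempty (Qb →+* KK) := by
  have : Algebra.IsAlgebraic ℚ Qb := ⟨fun x => (AlgebraicClosure.isAlgebraic ℚ).isAlgebraic x⟩
  exact ⟨(IsAlgClosed.lift (R := ℚ) (S := Qb) (M := KK)).toRingHom⟩

section
variable {K : Type} [Field K] [CharZero K] (D : Derivation ℤ K K)

omit [CharZero K] in
lemma deriv_eval₂' {F : Type*} [CommRing F] (x : K)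
    (j : F →+* K) (hj : ∀ c, D (j c) = 0) (f : F[X]) :
    D (eval₂ j x f) = eval₂ j x (derivative f) * D x := by
  induction f using Polynomial.induction_on' with
  | add p q hp hq => simp only [map_add, eval₂_add, hp, hq, add_mul]
  | monomial n c =>
    simp only [eval₂_monomial, derivative_monomial, Derivation.leibniz,
      Derivation.leibniz_pow, hj, smul_eq_mul, map_mul, map_natCast, nsmul_eq_mul]
    ring

lemma D_rat (q : ℚ) : D (q : K) = 0 := by
  have h1 : (q.den : K) * q = q.num := by exact_mod_cast Rat.den_mul_eq_num q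
  have h2 := congrArg D h1
  rw [der_mul, Derivation.map_natCast, Derivation.map_intCast] at h2
  simpa [q.den_nz] using h2

lemma D_emb (j : Qb →+* K) (c : Qb) : D (j c) = 0 := by
  have hc : IsIntegral ℚ c := ((AlgebraicClosure.isAlgebraic ℚ).isAlgebraic c).isIntegral
  have h1 := deriv_eval₂' D (j c) (j.comp (algebraMap ℚ Qb)) (fun q => by
    simpa using D_rat D q) (minpoly ℚ c)
  rw [← hom_eval₂, ← hom_eval₂, ← aeval_def, ← aeval_def, minpoly.aeval, map_zero, map_zero] at h1
  have h2 : aeval c (derivative (minpoly ℚ c)) ≠ 0 :=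
    (minpoly.irreducible hc).separable.aeval_derivative_ne_zero (minpoly.aeval ℚ c)
  exact (mul_eq_zero.mp h1.symm).resolve_left ((map_ne_zero j).mpr h2)

lemma emb_inj (x : K) (hx : D x = 1) (j : Qb →+* K) :
    Function.Injective (eval₂RingHom j x) := by
  rw [injective_iff_map_eq_zero]
  intro f
  induction hn : f.natDegree using Nat.strong_induction_on generalizing f with
  | _ n ih =>
  intro hf
  by_cases h0 : f.natDegree = 0
  · rw [eq_C_of_natDegree_eq_zero h0] at hf ⊢
    simpa using hf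
  · have h1 := deriv_eval₂ D x hx j (D_emb D j) f
    rw [hf, map_zero] at h1
    have := ih _ (hn ▸ natDegree_derivative_lt h0) _ rfl h1.symm
    exact (h0 (derivative_eq_zero.mp this)).elim

lemma exists_u [IsAlgClosed K] (x : K) (hx : D x = 1) (j : Qb →+* K) (a : Qb) (κ : ℚ) :
    ∃ u : K, u ≠ 0 ∧
      eval₂RingHom j x (X - C a) * D u = eval₂RingHom j x (C (κ : Qb)) * u := by
  obtain ⟨w, hw⟩ := IsAlgClosed.exists_pow_nat_eq (x - j a) κ.den_pos
  have h1 : D (x - j a) = 1 := by rw [map_sub, hx, D_emb, sub_zero]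
  have h2 : x - j a ≠ 0 := by intro h; rw [h, map_zero] at h1; exact zero_ne_one h1
  have h3 : w ≠ 0 := by rintro rfl; rw [zero_pow κ.den_nz] at hw; exact h2 hw.symm
  have h4 : (κ.den : K) * (x - j a) * D w = w := by
    rw [← hw, Derivation.leibniz_pow, smul_eq_mul, nsmul_eq_mul] at h1
    have h5 : w ^ κ.den = w ^ (κ.den - 1) * w := by
      rw [← pow_succ, Nat.sub_add_cancel κ.den_pos]
    rw [← hw, h5]
    linear_combination w * h1
  refine ⟨w ^ κ.num, zpow_ne_zero _ h3, ?_⟩
  have h6 : (κ.den : K) * κ = κ.num := by exact_mod_cast Rat.den_mul_eq_num κ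
  have h7 : (κ.den : K) ≠ 0 := by exact_mod_cast κ.den_nz
  simp only [coe_eval₂RingHom, eval₂_sub, eval₂_X, eval₂_C, map_ratCast,
    Derivation.leibniz_zpow, smul_eq_mul, zsmul_eq_mul]
  apply mul_left_cancel₀ h7
  rw [zpow_sub_one₀ h3]
  have h8 : w⁻¹ * w = 1 := inv_mul_cancel₀ h3
  linear_combination (κ.num : K) * w ^ κ.num * w⁻¹ * h4 - w ^ κ.num * h6
    + (κ.num : K) * w ^ κ.num * h8

lemma sol_K [IsAlgClosed K] {r m : ℕ} (b : Fin (r + 1) → ℤ[X]) (a : Fin m → Qb) (x : K)
    (hx : D x = 1) (j : Qb →+* K) (κ : Fin m → ℚ) :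
    ∃ U : K, U ≠ 0 ∧ eval₂RingHom j x (Rp a) * D U =
        eval₂RingHom j x (Sp a fun x => (κ x : Qb)) * U ∧
      ∀ q, Top (fun i => (b i).map (Int.castRingHom Qb)) a (fun x => (κ x : Qb)) q = 0 →
        ∑ i : Fin (r + 1), aeval x (b i) * (⇑D)^[(i : ℕ)] (U * eval₂RingHom j x q) = 0 := by
  choose u hu0 hu using fun t => exists_u D x hx j (a t) (κ t)
  refine ⟨∏ t, u t, Finset.prod_ne_zero_iff.mpr fun t _ => hu0 t, ?_, fun q hq => ?_⟩
  · have h2 := log_prod D (der_mul D) (by simp) Finset.univ _ _ u hu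
    simpa only [Rp, Sp, map_prod, map_sum, map_mul] using h2
  · have h1 := Top_spec D (der_mul D) (eval₂RingHom j x) (deriv_eval₂ D x hx j (D_emb D j))
      (fun i => (b i).map (Int.castRingHom Qb)) a (fun x => (κ x : Qb)) u hu q
    rw [hq, map_zero, mul_zero] at h1
    simp only [aeval_eq_eval₂ j]
    exact (mul_eq_zero.mp h1).resolve_left
      (pow_ne_zero _ ((map_ne_zero_iff _ (emb_inj D x hx j)).mpr (Rp_ne_zero a)))

omit [CharZero K] in
lemma indep_two (y₁ y₂ : K) (h : y₁ * D y₂ - y₂ * D y₁ ≠ 0) (c : Fin 2 → K)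
    (hc : ∀ j, D (c j) = 0) (h0 : ∑ j, c j * ![y₁, y₂] j = 0) (j : Fin 2) : c j = 0 := by
  simp only [Fin.sum_univ_two, Matrix.cons_val_zero, Matrix.cons_val_one] at h0
  have h1 := congrArg D h0
  rw [map_add, der_mul, der_mul, hc, hc, map_zero] at h1
  fin_cases j
  · refine (mul_eq_zero.mp ?_).resolve_right h
    simp only [Fin.zero_eta]
    linear_combination D y₂ * h0 - y₂ * h1
  · refine (mul_eq_zero.mp ?_).resolve_right h
    simp only [Fin.mk_one]
    linear_combination y₁ * h1 - D y₁ * h0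

end

lemma wr_ne_of_types {m : ℕ} (a : Fin m → Qb) (ha : Function.Injective a) (κ κ' : Fin m → ℚ)
    (q q' : Qb[X]) (hq : q ≠ 0) (hq' : q' ≠ 0)
    (h : (∃ x, ∀ z : ℤ, κ x - κ' x ≠ z) ∨ (κ = κ' ∧ q.natDegree ≠ q'.natDegree)) :
    Rp a * (q * derivative q' - q' * derivative q) +
      ((Sp a fun x => (κ' x : Qb)) - Sp a fun x => (κ x : Qb)) * (q * q') ≠ 0 := by
  rcases h with ⟨x, hx⟩ | ⟨rfl, hne⟩
  · intro h0
    obtain ⟨w, hw, hw0⟩ := exists_local (a x) q hq
    obtain ⟨w', hw', hw0'⟩ := exists_local (a x) q' hq'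
    generalize rootMultiplicity (a x) q = n at hw
    generalize rootMultiplicity (a x) q' = n' at hw'
    have h1 := local_tw (a x) n w 1
    have h2 := local_tw (a x) n' w' 1
    rw [← hw] at h1
    rw [← hw'] at h2
    simp only [pow_one, Function.iterate_one] at h1 h2
    set Rx : Qb[X] := ∏ x' ∈ Finset.univ.erase x, (X - C (a x')) with hRx
    have hR : Rp a = (X - C (a x)) * Rx :=
      (Finset.mul_prod_erase _ (fun x => X - C (a x)) (Finset.mem_univ x)).symm
    have h3 : (X - C (a x)) ^ n * (X - C (a x)) ^ n' *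
        (Rx * (w * tw (X - C (a x)) (C (n' : Qb)) w' 1 - w' * tw (X - C (a x)) (C (n : Qb)) w 1) +
        ((Sp a fun x => (κ' x : Qb)) - Sp a fun x => (κ x : Qb)) * (w * w')) = 0 := by
      rw [← h0, hR]
      have e1 : (X - C (a x)) * Rx * (q * derivative q' - q' * derivative q) =
          Rx * (q * ((X - C (a x)) * derivative q') - q' * ((X - C (a x)) * derivative q)) := by
        ring
      rw [e1, h1, h2, hw, hw']
      ring
    have h4 := congrArg (eval (a x)) ((mul_eq_zero.mp h3).resolve_left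
      (mul_ne_zero (pow_ne_zero _ (X_sub_C_ne_zero _)) (pow_ne_zero _ (X_sub_C_ne_zero _))))
    have h5 : ∀ κ : Fin m → ℚ, (Sp a fun x => (κ x : Qb)).eval (a x) = κ x * Rx.eval (a x) := by
      intro κ
      rw [Sp, eval_finsetSum, Finset.sum_eq_single x]
      · simp [hRx]
      · intro t _ ht
        rw [eval_mul, eval_prod, Finset.prod_eq_zero (i := x) (by simp [Ne.symm ht]) (by simp),
          mul_zero]
      · simp
    have h6 : Rx.eval (a x) ≠ 0 := by
      rw [hRx, eval_prod, Finset.prod_ne_zero_iff]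
      intro t ht
      simpa [sub_eq_zero, ha.eq_iff, eq_comm] using ht
    simp only [eval_add, eval_mul, eval_sub, tw_eval, h5, eval_zero, ff, Finset.prod_range_one,
      Nat.cast_zero, sub_zero] at h4
    have h7 : ((n' : Qb) - n + κ' x - κ x) * (Rx.eval (a x) * (w.eval (a x) * w'.eval (a x)))
        = 0 := by linear_combination h4
    have h8 := (mul_eq_zero.mp h7).resolve_right (mul_ne_zero h6 (mul_ne_zero hw0 hw0'))
    apply hx (n' - n)
    have : ((κ x - κ' x : ℚ) : Qb) = (((n' - n : ℤ) : ℚ) : Qb) := by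
      push_cast; linear_combination -h8
    exact_mod_cast this
  · rw [sub_self, zero_mul, add_zero]
    refine mul_ne_zero (Rp_ne_zero a) ?_
    have := (wr_degree ![q, q'] (fun j => by fin_cases j <;> simpa) (by
      intro i j hij
      fin_cases i <;> fin_cases j <;> simp_all)).1
    simpa [wr, Matrix.det_fin_two] using this

theorem fullBasis_two {m : ℕ} (b : Fin 3 → ℤ[X]) (a : Fin m → Qb) (ha : Function.Injective a)
    (κ κ' : Fin m → ℚ) (s s' : ℚ) (h1 : Sol0 (r := 2) b a κ s) (h2 : Sol0 (r := 2) b a κ' s')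
    (h : (∃ x, ∀ z : ℤ, κ x - κ' x ≠ z) ∨ (κ = κ' ∧ s ≠ s')) : FullBasis KK xK (n := 2) b := by
  obtain ⟨q, hq, hqs, hT⟩ := h1
  obtain ⟨q', hq', hqs', hT'⟩ := h2
  obtain ⟨D, hD⟩ := exists_D
  obtain ⟨j⟩ := exists_emb
  obtain ⟨U, hU0, hU, hsol⟩ := sol_K D (r := 2) b a xK hD j κ
  obtain ⟨U', hU0', hU', hsol'⟩ := sol_K D (r := 2) b a xK hD j κ'
  refine ⟨D, hD, ![U * eval₂RingHom j xK q, U' * eval₂RingHom j xK q'], fun t => ?_,
    indep_two D _ _ fun h0 => ?_⟩
  · fin_cases t
    · exact hsol q hT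
    · exact hsol' q' hT'
  · have h3 := wr_ne_of_types a ha κ κ' q q' hq hq' (h.imp_right fun h => ⟨h.1, fun h4 =>
      h.2 (by rw [← hqs, ← hqs', h4])⟩)
    apply mul_ne_zero (mul_ne_zero hU0 hU0') ((map_ne_zero_iff _ (emb_inj D xK hD j)).mpr h3)
    rw [der_mul, der_mul, deriv_eval₂ D xK hD j (D_emb D j),
      deriv_eval₂ D xK hD j (D_emb D j)] at h0
    simp only [map_add, map_mul, map_sub]
    linear_combination eval₂RingHom j xK (Rp a) * h0
      - U * eval₂RingHom j xK q * eval₂RingHom j xK q' * hU'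
      + U' * eval₂RingHom j xK q * eval₂RingHom j xK q' * hU

end Pool.Agent.Lib.MP_aa40d3_nt
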